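import Pool.Agent.Helper74.AS.Defs

/-!
Basic facts on seminorms dominated by the norm.
-/

set_option autoImplicit false

open scoped Topology
open Filter Set

namespace Pool.Agent.Helper74.AS

variable {X : Type*} [NormedAddCommGroup X] [NormedSpace ℝ X]

namespace Sem

variable {q : X → ℝ}

theorem zero (h : Sem q) : q 0 = 0 := by
  have := h.smul 0 0
  simpa using this

theorem neg (h : Sem q) (x : X) : q (-x) = q x := by
  have := h.smul (-1) x
  simpa using this

theorem nonneg (h : Sem q) (x : X) : 0 ≤ q x := by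
  have h1 := h.add x (-x)
  rw [add_neg_cancel, h.zero, h.neg] at h1
  linarith

theorem sub_le (h : Sem q) (x y : X) : q x - q y ≤ q (x - y) := by
  have h1 := h.add (x - y) y
  rw [sub_add_cancel] at h1
  linarith

theorem lip (h : Sem q) (x y : X) : |q x - q y| ≤ ‖x - y‖ := by
  rw [abs_le]
  have h1 := h.sub_le x y
  have h2 := h.sub_le y x
  have h3 := h.le (x - y)
  have h4 := h.le (y - x)
  rw [norm_sub_rev] at h4
  constructor <;> linarith

theorem attain (h : Sem q) (x : X) : ∃ φ ∈ K q, φ x = q x := by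
  classical
  obtain ⟨g, hg1, hg2⟩ := exists_extension_of_le_sublinear
    (LinearPMap.mkSpanSingleton' x (q x) (by
      intro c hc
      have h1 := h.smul c x
      rw [hc, h.zero] at h1
      have h2 : |c| = 0 ∨ q x = 0 := by
        have := h1.symm
        rwa [mul_eq_zero] at this
      rcases h2 with h2 | h2
      · rw [abs_eq_zero.1 h2, map_zero, zero_smul]
      · rw [h2, smul_zero])) q
    (fun c hc y => by rw [h.smul, abs_of_pos hc]) h.add (by
      rintro ⟨y, hy⟩
      rw [LinearPMap.domain_mkSpanSingleton, Submodule.mem_span_singleton] at hy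
      obtain ⟨c, rfl⟩ := hy
      rw [LinearPMap.mkSpanSingleton'_apply]
      change c • q x ≤ q (c • x)
      rw [h.smul, smul_eq_mul]
      exact mul_le_mul_of_nonneg_right (le_abs_self c) (h.nonneg x))
  have hb : ∀ y, ‖g y‖ ≤ 1 * ‖y‖ := by
    intro y
    rw [one_mul, Real.norm_eq_abs, abs_le]
    have h1 := hg2 y
    have h2 := hg2 (-y)
    rw [map_neg, h.neg] at h2
    have h3 := h.le y
    constructor <;> linarith
  refine ⟨g.mkContinuous 1 hb, ?_, ?_⟩
  · intro y
    exact hg2 y
  · have h1 := hg1 ⟨x, by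
      rw [LinearPMap.domain_mkSpanSingleton]; exact Submodule.mem_span_singleton_self x⟩
    change g x = q x
    change g x = _ at h1
    rw [h1, LinearPMap.mkSpanSingleton'_apply_self]

end Sem

theorem K_norm {q : X → ℝ} (h : Sem q) {φ : X →L[ℝ] ℝ} (hφ : φ ∈ K q) : ‖φ‖ ≤ 1 := by
  refine φ.opNorm_le_bound zero_le_one fun y => ?_
  rw [one_mul, Real.norm_eq_abs, abs_le]
  have h1 := hφ y
  have h2 := hφ (-y)
  rw [map_neg, h.neg] at h2
  have h3 := h.le y
  constructor <;> linarith

theorem K_abs {q : X → ℝ} (h : Sem q) {φ : X →L[ℝ] ℝ} (hφ : φ ∈ K q) (x : X) : |φ x| ≤ q x := by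
  have h1 := hφ x
  have h2 := hφ (-x)
  rw [map_neg, h.neg] at h2
  rw [abs_le]
  constructor <;> linarith

theorem K_mono {q r : X → ℝ} (h : ∀ x, q x ≤ r x) : K q ⊆ K r := fun _ hφ x => (hφ x).trans (h x)

theorem K_zero {q : X → ℝ} (h : Sem q) : (0 : X →L[ℝ] ℝ) ∈ K q := fun x => h.nonneg x

theorem K_neg {q : X → ℝ} (h : Sem q) {φ : X →L[ℝ] ℝ} (hφ : φ ∈ K q) : -φ ∈ K q := by
  intro x
  have := hφ (-x)
  rw [map_neg, h.neg] at this
  exact this

theorem sem_norm : Sem (fun x : X => ‖x‖) :=
  ⟨norm_add_le, fun c x => by rw [norm_smul, Real.norm_eq_abs], fun _ => le_rfl⟩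

end Pool.Agent.Helper74.AS
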