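import Pool.Agent.Helper74.AS.Basic
import Pool.Agent.Helper74.Full.Ekeland

/-!
AS-18. A Fréchet differentiable bump gives small slices (Ekeland, Lebourg).

Let `b x₀ ≠ 0`, `C = 1/(b x₀)² - q x₀ + 1`, `Z = {x | 1 ≤ (C + q x) * b x ^ 2}` (closed, hence complete; on
`Z`: `b x ≠ 0` and `0 < C + q x`), `f x = 1/(b x)² - q x`, continuous on `Z` and bounded below
there (the support of `b` is bounded, `q x ≤ ‖x‖`). Note `f x ≤ C` on `Z`, and `x₀ ∈ Z`. `ekeland` on
the subtype `Z` gives `z ∈ Z`, `f z ≤ f x₀ < C`, `f z ≤ f y + (ε/6) ‖z - y‖` for all `y ∈ Z`. A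
neighbourhood of `z` is contained in `Z`. With `L` = derivative of `1/b²` at `z` there is `r > 0`
with `q (z + h) ≤ q z + L h + (ε/3) ‖h‖` for `‖h‖ ≤ r`. The slice `w = z`, `a = q z - r ε / 6` works:
for `φ ∈ K q`, `a < φ z`, `‖h‖ = r` (or `≤ r`): `φ h = φ (z + h) - φ z ≤ q (z + h) - a ≤ L h + (ε/2) r`,
so `‖φ - L‖ ≤ ε/2`.
-/

set_option autoImplicit false

open scoped Topology
open Filter Set

namespace Pool.Agent.Helper74.AS

theorem dent_of_bump {X : Type*} [NormedAddCommGroup X] [NormedSpace ℝ X] [CompleteSpace X]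
    (b : X → ℝ) (hb : Differentiable ℝ b) (hne : ∃ x, b x ≠ 0)
    (hbd : Bornology.IsBounded (Function.support b)) : Dent X := by
  intro q hq ε hε
  obtain ⟨x₀, hx₀⟩ := hne
  obtain ⟨R, hR0, hR⟩ := hbd.exists_pos_norm_le
  have hbc : Continuous b := hb.continuous
  have hqc : Continuous q := by
    apply LipschitzWith.continuous (K := 1)
    apply LipschitzWith.of_dist_le_mul
    intro x y
    rw [Real.dist_eq, dist_eq_norm]
    simpa using hq.lip x y
  obtain ⟨C, hC⟩ : ∃ C : ℝ, C = 1 / (b x₀) ^ 2 - q x₀ + 1 := ⟨_, rfl⟩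
  obtain ⟨Z, hZ⟩ : ∃ Z : Set X, Z = {x | 1 ≤ (C + q x) * b x ^ 2} := ⟨_, rfl⟩
  have hZc : IsClosed Z := by
    rw [hZ]
    exact isClosed_le continuous_const (by fun_prop)
  have hZb : ∀ x ∈ Z, b x ≠ 0 := by
    intro x hx h0
    rw [hZ] at hx
    have : (1 : ℝ) ≤ (C + q x) * b x ^ 2 := hx
    rw [h0] at this
    norm_num at this
  have hx₀Z : x₀ ∈ Z := by
    rw [hZ]
    change (1 : ℝ) ≤ (C + q x₀) * b x₀ ^ 2
    have h1 : (C + q x₀) * b x₀ ^ 2 = 1 + b x₀ ^ 2 := by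
      rw [hC]
      field_simp
      ring
    rw [h1]
    have := sq_nonneg (b x₀)
    linarith
  have : CompleteSpace Z := hZc.completeSpace_coe
  have hfc : Continuous (fun x : Z => 1 / (b x.1) ^ 2 - q x.1) := by
    apply Continuous.sub
    · apply Continuous.div continuous_const
      · exact (hbc.comp continuous_subtype_val).pow 2
      · intro x
        exact pow_ne_zero 2 (hZb x.1 x.2)
    · exact hqc.comp continuous_subtype_val
  obtain ⟨z, hz1, hz2⟩ := Full.ekeland (fun x : Z => 1 / (b x.1) ^ 2 - q x.1) hfc (-R) (by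
      intro x
      have h1 : ‖x.1‖ ≤ R := hR x.1 (hZb x.1 x.2)
      have h2 := hq.le x.1
      have h3 : 0 ≤ 1 / (b x.1) ^ 2 := by positivity
      change -R ≤ 1 / (b x.1) ^ 2 - q x.1
      linarith) (ε / 6) (by positivity) ⟨x₀, hx₀Z⟩
  simp only at hz1 hz2
  have hbz : b z.1 ≠ 0 := hZb z.1 z.2
  have hbz2 : 0 < b z.1 ^ 2 := by positivity
  have hlt : 1 < (C + q z.1) * b z.1 ^ 2 := by
    have h1 : 0 ≤ ε / 6 * dist (⟨x₀, hx₀Z⟩ : Z) z := by positivity
    have h2 : 1 / b z.1 ^ 2 < C + q z.1 := by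
      have h3 : C - 1 = 1 / (b x₀) ^ 2 - q x₀ := by rw [hC]; ring
      linarith
    rwa [div_lt_iff₀ hbz2] at h2
  have hnhds : ∀ᶠ y in 𝓝 z.1, y ∈ Z := by
    have h1 : ContinuousAt (fun y => (C + q y) * b y ^ 2) z.1 := by
      apply Continuous.continuousAt
      fun_prop
    have h2 := h1.eventually (lt_mem_nhds hlt)
    filter_upwards [h2] with y hy
    rw [hZ]
    exact hy.le
  obtain ⟨g, hg⟩ : ∃ g : X → ℝ, g = fun y => 1 / (b y) ^ 2 := ⟨_, rfl⟩
  have hgd : DifferentiableAt ℝ g z.1 := by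
    rw [hg]
    have h1 : DifferentiableAt ℝ (fun y => b y ^ 2) z.1 := (hb z.1).fun_pow 2
    have h2 : DifferentiableAt ℝ (fun y => (b y ^ 2)⁻¹) z.1 := h1.fun_inv (pow_ne_zero 2 hbz)
    simpa only [one_div] using h2
  obtain ⟨L, hL⟩ := hgd
  have hL' := (hasFDerivAt_iff_isLittleO.1 hL).def (show (0 : ℝ) < ε / 6 by positivity)
  obtain ⟨r, hr, hrr⟩ := Metric.eventually_nhds_iff.1 (hL'.and hnhds)
  have key : ∀ h : X, ‖h‖ = r / 2 → q (z.1 + h) ≤ q z.1 + L h + ε / 3 * (r / 2) := by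
    intro h hh
    have h0 : dist (z.1 + h) z.1 < r := by
      rw [dist_eq_norm, add_sub_cancel_left, hh]
      linarith
    obtain ⟨h1, h2⟩ := hrr h0
    have h3 := hz2 ⟨z.1 + h, h2⟩
    simp only at h3
    have h4 : dist z (⟨z.1 + h, h2⟩ : Z) = r / 2 := by
      rw [Subtype.dist_eq, dist_comm, dist_eq_norm]
      simp only
      rw [add_sub_cancel_left, hh]
    rw [h4] at h3
    rw [add_sub_cancel_left, hh, Real.norm_eq_abs] at h1
    have h5 := (abs_le.1 h1).2
    simp only [hg] at h5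
    linarith
  obtain ⟨φ₀, hφ₀, hφ₀z⟩ := hq.attain z.1
  have main : ∀ φ ∈ K q, q z.1 - r / 2 * ε / 6 < φ z.1 → ‖φ - L‖ ≤ ε / 2 := by
    intro φ hφ hφz
    have hs : ∀ h : X, ‖h‖ = r / 2 → (φ - L) h ≤ ε / 2 * (r / 2) := by
      intro h hh
      have h1 := key h hh
      have h2 := hφ (z.1 + h)
      rw [map_add] at h2
      change φ h - L h ≤ _
      linarith
    apply ContinuousLinearMap.opNorm_le_bound _ (by positivity)
    intro u
    by_cases hu : u = 0
    · simp [hu]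
    have hu' : 0 < ‖u‖ := norm_pos_iff.2 hu
    have hsc : ∀ v : X, ‖v‖ = ‖u‖ → (φ - L) v ≤ ε / 2 * ‖u‖ := by
      intro v hv
      have h1 := hs ((r / 2 / ‖u‖) • v) (by
        rw [norm_smul, hv, Real.norm_eq_abs, abs_of_pos (by positivity)]
        field_simp)
      rw [map_smul, smul_eq_mul] at h1
      have h2 : r / 2 / ‖u‖ * (φ - L) v ≤ r / 2 / ‖u‖ * (ε / 2 * ‖u‖) := by
        refine h1.trans (le_of_eq ?_)
        field_simp
      exact le_of_mul_le_mul_left h2 (by positivity)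
    rw [Real.norm_eq_abs, abs_le]
    constructor
    · have h1 := hsc (-u) (norm_neg u)
      rw [map_neg] at h1
      linarith
    · exact hsc u rfl
  refine ⟨z.1, q z.1 - r / 2 * ε / 6, ⟨φ₀, hφ₀, ?_⟩, ?_⟩
  · rw [hφ₀z]
    have : 0 < r / 2 * ε / 6 := by positivity
    linarith
  · intro φ hφ ψ hψ h1 h2
    have h3 := main φ hφ h1
    have h4 := main ψ hψ h2
    have h5 : φ - ψ = (φ - L) - (ψ - L) := by abel
    rw [h5]
    refine (norm_sub_le _ _).trans ?_
    linarith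

end Pool.Agent.Helper74.AS
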