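import Pool.Agent.Helper74.AS.BumpDent

/-!
AS-19. A Fréchet differentiable bump implies that separable subspaces have separable duals.

`sep_of_dent`: let `Y` be separable with `Dent Y`; suppose `Y*` is not separable. Then for some
`ε > 0` there is an uncountable `A` in the unit ball of `Y*` with `ε < ‖φ - ψ‖` for `φ ≠ ψ` in `A`.
Let `D₀` be countable dense in `Y`. `A' = A \ ⋃ {φ ∈ A | a < φ w}` over all
`(w, a) ∈ D₀ × ℚ` for which this set is countable. For real `(w, a)`: if some `φ ∈ A'` has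
`a < φ w` then there are two different such `φ`. Let `q y = sup {|φ y| : φ ∈ A'}`: `Sem`,
`±A' ⊆ K q`. A nonempty slice of `K q` contains two elements of `A'` or two elements of `-A'`.
-/

set_option autoImplicit false

open scoped Topology
open Filter Set

namespace Pool.Agent.Helper74.AS

namespace BumpSep_aux

/-- a nonseparable metric space has an uncountable separated subset -/
theorem exists_separated {Z : Type*} [PseudoMetricSpace Z]
    (h : ¬ TopologicalSpace.SeparableSpace Z) :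
    ∃ ε : ℝ, 0 < ε ∧ ∃ A : Set Z, ¬ A.Countable ∧ ∀ x ∈ A, ∀ y ∈ A, x ≠ y → ε < dist x y := by
  by_contra hc
  push Not at hc
  apply h
  have h2 : SecondCountableTopology Z := by
    refine Metric.secondCountable_of_almost_dense_set fun ε hε => ?_
    obtain ⟨A, hA⟩ := zorn_subset {A : Set Z | ∀ x ∈ A, ∀ y ∈ A, x ≠ y → ε < dist x y} (by
      intro c hc1 hc2
      refine ⟨⋃₀ c, ?_, fun s hs => subset_sUnion_of_mem hs⟩
      rintro x ⟨s, hs, hx⟩ y ⟨t, ht, hy⟩ hxy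
      rcases hc2.total hs ht with hst | hst
      · exact hc1 ht x (hst hx) y hy hxy
      · exact hc1 hs x hx y (hst hy) hxy)
    refine ⟨A, ?_, fun x => ?_⟩
    · by_contra hcount
      obtain ⟨x, hx, y, hy, hxy, hle⟩ := hc ε hε A hcount
      exact absurd (hA.prop x hx y hy hxy) (not_lt.2 hle)
    · by_cases hx : x ∈ A
      · exact ⟨x, hx, by rw [dist_self]; exact hε.le⟩
      · by_contra hno
        push Not at hno
        apply hx
        refine hA.le_of_ge (y := insert x A) ?_ (subset_insert x A) (mem_insert x A)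
        rintro y (rfl | hy) z (rfl | hz) hyz
        · exact absurd rfl hyz
        · exact hno z hz
        · rw [dist_comm]
          exact hno y hy
        · exact hA.prop y hy z hz hyz
  infer_instance

/-- a nonseparable dual has an uncountable separated subset of the unit ball -/
theorem exists_ball {Y : Type*} [NormedAddCommGroup Y] [NormedSpace ℝ Y]
    (h : ¬ TopologicalSpace.SeparableSpace (Y →L[ℝ] ℝ)) :
    ∃ ε : ℝ, 0 < ε ∧ ∃ A : Set (Y →L[ℝ] ℝ), ¬ A.Countable ∧ (∀ φ ∈ A, ‖φ‖ ≤ 1) ∧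
      ∀ φ ∈ A, ∀ ψ ∈ A, φ ≠ ψ → ε < ‖φ - ψ‖ := by
  obtain ⟨ε, hε, A, hA, hsep⟩ := exists_separated h
  obtain ⟨n, hn⟩ : ∃ n : ℕ, ¬ (A ∩ {φ | ‖φ‖ ≤ n}).Countable := by
    by_contra hc
    push Not at hc
    apply hA
    have h1 : A ⊆ ⋃ n : ℕ, A ∩ {φ | ‖φ‖ ≤ n} := by
      intro φ hφ
      obtain ⟨n, hn⟩ := exists_nat_ge ‖φ‖
      exact mem_iUnion.2 ⟨n, hφ, hn⟩
    exact (countable_iUnion hc).mono h1
  have hn0 : (0 : ℝ) < (n : ℝ) + 1 := by positivity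
  have hinj : Function.Injective (fun φ : Y →L[ℝ] ℝ => ((n : ℝ) + 1)⁻¹ • φ) :=
    smul_right_injective _ (inv_ne_zero hn0.ne')
  refine ⟨ε / ((n : ℝ) + 1), div_pos hε hn0,
    (fun φ : Y →L[ℝ] ℝ => ((n : ℝ) + 1)⁻¹ • φ) '' (A ∩ {φ | ‖φ‖ ≤ n}), ?_, ?_, ?_⟩
  · intro hc
    exact hn (countable_of_injective_of_countable_image hinj.injOn hc)
  · rintro _ ⟨φ, hφ, rfl⟩
    have h1 : ‖φ‖ ≤ n := hφ.2
    change ‖((n : ℝ) + 1)⁻¹ • φ‖ ≤ 1
    rw [norm_smul, norm_inv, Real.norm_eq_abs, abs_of_pos hn0, inv_mul_le_iff₀ hn0]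
    linarith
  · rintro _ ⟨φ, hφ, rfl⟩ _ ⟨ψ, hψ, rfl⟩ hne
    have h1 : φ ≠ ψ := fun h => hne (by rw [h])
    have h2 := hsep φ hφ.1 ψ hψ.1 h1
    rw [dist_eq_norm] at h2
    change ε / ((n : ℝ) + 1) < ‖((n : ℝ) + 1)⁻¹ • φ - ((n : ℝ) + 1)⁻¹ • ψ‖
    have h3 : ((n : ℝ) + 1)⁻¹ • φ - ((n : ℝ) + 1)⁻¹ • ψ = ((n : ℝ) + 1)⁻¹ • (φ - ψ) :=
      (smul_sub _ _ _).symm
    rw [h3, norm_smul, norm_inv, Real.norm_eq_abs, abs_of_pos hn0, div_eq_inv_mul]
    exact mul_lt_mul_of_pos_left h2 (inv_pos.2 hn0)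

/-- condensation: every slice that meets `A'` contains two elements of `A'` -/
theorem condense {Y : Type*} [NormedAddCommGroup Y] [NormedSpace ℝ Y]
    [TopologicalSpace.SeparableSpace Y] (A : Set (Y →L[ℝ] ℝ)) (hA : ¬ A.Countable)
    (hA1 : ∀ φ ∈ A, ‖φ‖ ≤ 1) :
    ∃ A' : Set (Y →L[ℝ] ℝ), A' ⊆ A ∧ A'.Nonempty ∧ ∀ (w : Y) (a : ℝ), ∀ φ ∈ A', a < φ w →
      ∃ φ₁ ∈ A', ∃ φ₂ ∈ A', φ₁ ≠ φ₂ ∧ a < φ₁ w ∧ a < φ₂ w := by
  obtain ⟨D₀, hD₀, hdense⟩ := TopologicalSpace.exists_countable_dense Y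
  let C : Y → ℚ → Set (Y →L[ℝ] ℝ) := fun w a => {φ | φ ∈ A ∧ (a : ℝ) < φ w}
  let U : Set (Y →L[ℝ] ℝ) := ⋃ w ∈ D₀, ⋃ a : ℚ, ⋃ _ : (C w a).Countable, C w a
  have hU : U.Countable := by
    refine hD₀.biUnion fun w _ => countable_iUnion fun a => countable_iUnion fun h => h
  have hdiff : ∀ B : Set (Y →L[ℝ] ℝ), ¬ B.Countable → ¬ (B \ U).Countable := by
    intro B hB hc
    apply hB
    exact (hc.union hU).mono fun x hx => by
      by_cases h : x ∈ U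
      · exact Or.inr h
      · exact Or.inl ⟨hx, h⟩
  refine ⟨A \ U, sdiff_subset, ?_, ?_⟩
  · rw [nonempty_iff_ne_empty]
    intro h0
    exact hdiff A hA (by rw [h0]; exact countable_empty)
  · intro w a φ hφ hlt
    obtain ⟨w', hw', hd⟩ := hdense.exists_dist_lt w
      (show (0 : ℝ) < (φ w - a) / 4 by linarith)
    rw [dist_eq_norm] at hd
    obtain ⟨r, hr1, hr2⟩ := exists_rat_btwn
      (show a + (φ w - a) / 4 < φ w - (φ w - a) / 4 by linarith)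
    have hop : ∀ ψ ∈ A, |ψ w - ψ w'| < (φ w - a) / 4 := by
      intro ψ hψ
      have h1 : |ψ (w - w')| ≤ 1 * ‖w - w'‖ := by
        refine (ψ.le_opNorm _).trans ?_
        exact mul_le_mul_of_nonneg_right (hA1 ψ hψ) (norm_nonneg _)
      rw [map_sub, one_mul] at h1
      exact lt_of_le_of_lt h1 hd
    have hmem : φ ∈ C w' r := by
      refine ⟨hφ.1, ?_⟩
      have h1 := abs_lt.1 (hop φ hφ.1)
      linarith [h1.1, h1.2]
    have hunc : ¬ (C w' r).Countable := by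
      intro hc
      apply hφ.2
      exact mem_biUnion hw' (mem_iUnion.2 ⟨r, mem_iUnion.2 ⟨hc, hmem⟩⟩)
    have hns : ¬ (C w' r \ U).Subsingleton := fun hs => hdiff _ hunc hs.countable
    rw [not_subsingleton_iff] at hns
    obtain ⟨φ₁, h₁, φ₂, h₂, hne⟩ := hns
    refine ⟨φ₁, ⟨h₁.1.1, h₁.2⟩, φ₂, ⟨h₂.1.1, h₂.2⟩, hne, ?_, ?_⟩
    · have h3 := abs_lt.1 (hop φ₁ h₁.1.1)
      have h4 : (r : ℝ) < φ₁ w' := h₁.1.2
      linarith [h3.1]
    · have h3 := abs_lt.1 (hop φ₂ h₂.1.1)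
      have h4 : (r : ℝ) < φ₂ w' := h₂.1.2
      linarith [h3.1]

/-- the seminorm of a set of functionals -/
noncomputable def sn {Y : Type*} [NormedAddCommGroup Y] [NormedSpace ℝ Y]
    (A : Set (Y →L[ℝ] ℝ)) (y : Y) : ℝ := ⨆ φ : A, |φ.1 y|

section sn

variable {Y : Type*} [NormedAddCommGroup Y] [NormedSpace ℝ Y] {A : Set (Y →L[ℝ] ℝ)}

theorem sn_apply_le (hA1 : ∀ φ ∈ A, ‖φ‖ ≤ 1) {φ : Y →L[ℝ] ℝ} (hφ : φ ∈ A) (y : Y) :
    |φ y| ≤ ‖y‖ := by
  have h1 := φ.le_opNorm y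
  have h2 : ‖φ‖ * ‖y‖ ≤ 1 * ‖y‖ := mul_le_mul_of_nonneg_right (hA1 φ hφ) (norm_nonneg _)
  rw [Real.norm_eq_abs] at h1
  linarith

theorem sn_bdd (hA1 : ∀ φ ∈ A, ‖φ‖ ≤ 1) (y : Y) : BddAbove (range fun φ : A => |φ.1 y|) := by
  refine ⟨‖y‖, ?_⟩
  rintro _ ⟨φ, rfl⟩
  exact sn_apply_le hA1 φ.2 y

theorem le_sn (hA1 : ∀ φ ∈ A, ‖φ‖ ≤ 1) {φ : Y →L[ℝ] ℝ} (hφ : φ ∈ A) (y : Y) : |φ y| ≤ sn A y :=
  le_ciSup (sn_bdd hA1 y) ⟨φ, hφ⟩

theorem sn_sem (hA1 : ∀ φ ∈ A, ‖φ‖ ≤ 1) (hne : A.Nonempty) : Sem (sn A) := by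
  have hN : Nonempty A := hne.to_subtype
  refine ⟨fun x y => ?_, fun c x => ?_, fun x => ?_⟩
  · refine ciSup_le fun φ => ?_
    rw [map_add]
    exact (abs_add_le _ _).trans (add_le_add (le_sn hA1 φ.2 x) (le_sn hA1 φ.2 y))
  · have h1 : ∀ φ : A, |φ.1 (c • x)| = |c| * |φ.1 x| := by
      intro φ
      rw [map_smul, smul_eq_mul, abs_mul]
    change (⨆ φ : A, |φ.1 (c • x)|) = |c| * ⨆ φ : A, |φ.1 x|
    rw [Real.mul_iSup_of_nonneg (abs_nonneg c)]
    exact congrArg _ (funext h1)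
  · exact ciSup_le fun φ => sn_apply_le hA1 φ.2 x

theorem mem_K_sn (hA1 : ∀ φ ∈ A, ‖φ‖ ≤ 1) {φ : Y →L[ℝ] ℝ} (hφ : φ ∈ A) : φ ∈ K (sn A) :=
  fun y => (le_abs_self _).trans (le_sn hA1 hφ y)

end sn

end BumpSep_aux

open BumpSep_aux in
theorem sep_of_dent {Y : Type*} [NormedAddCommGroup Y] [NormedSpace ℝ Y]
    [TopologicalSpace.SeparableSpace Y] (h : Dent Y) :
    TopologicalSpace.SeparableSpace (Y →L[ℝ] ℝ) := by
  by_contra hns
  obtain ⟨ε, hε, A, hA, hA1, hsep⟩ := exists_ball hns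
  obtain ⟨A', hsub, hne, hcond⟩ := condense A hA hA1
  have hA'1 : ∀ φ ∈ A', ‖φ‖ ≤ 1 := fun φ hφ => hA1 φ (hsub hφ)
  have hS := sn_sem hA'1 hne
  obtain ⟨w, a, ⟨φ, hφ, hlt⟩, hsmall⟩ := h (sn A') hS ε hε
  have hlt2 : a < sn A' w := lt_of_lt_of_le hlt (hφ w)
  have hN : Nonempty A' := hne.to_subtype
  obtain ⟨⟨ψ, hψ⟩, hψlt⟩ := exists_lt_of_lt_ciSup hlt2
  change a < |ψ w| at hψlt
  rcases le_or_gt 0 (ψ w) with h0 | h0
  · rw [abs_of_nonneg h0] at hψlt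
    obtain ⟨φ₁, h₁, φ₂, h₂, hne12, hl1, hl2⟩ := hcond w a ψ hψ hψlt
    exact absurd (hsmall φ₁ (mem_K_sn hA'1 h₁) φ₂ (mem_K_sn hA'1 h₂) hl1 hl2)
      (not_le.2 (hsep φ₁ (hsub h₁) φ₂ (hsub h₂) hne12))
  · rw [abs_of_neg h0] at hψlt
    have h3 : a < ψ (-w) := by rwa [map_neg]
    obtain ⟨φ₁, h₁, φ₂, h₂, hne12, hl1, hl2⟩ := hcond (-w) a ψ hψ h3
    have h4 := hsmall (-φ₁) (K_neg hS (mem_K_sn hA'1 h₁)) (-φ₂) (K_neg hS (mem_K_sn hA'1 h₂))
      (by rw [map_neg] at hl1; exact hl1) (by rw [map_neg] at hl2; exact hl2)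
    have h5 : ‖-φ₁ - -φ₂‖ = ‖φ₁ - φ₂‖ := by
      rw [← norm_neg]
      congr 1
      abel
    rw [h5] at h4
    exact absurd h4 (not_le.2 (hsep φ₁ (hsub h₁) φ₂ (hsub h₂) hne12))

theorem sep_of_bump {X : Type*} [NormedAddCommGroup X] [NormedSpace ℝ X] [CompleteSpace X]
    (b : X → ℝ) (hb : Differentiable ℝ b) (hne : ∃ x, b x ≠ 0)
    (hbd : Bornology.IsBounded (Function.support b)) (F : Submodule ℝ X)
    (hF : TopologicalSpace.IsSeparable (F : Set X)) :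
    TopologicalSpace.SeparableSpace (F →L[ℝ] ℝ) := by
  obtain ⟨x₀, hx₀⟩ := hne
  have hYc : CompleteSpace F.topologicalClosure :=
    F.isClosed_topologicalClosure.completeSpace_coe
  have hYs : TopologicalSpace.SeparableSpace F.topologicalClosure := by
    have h1 : TopologicalSpace.IsSeparable (F.topologicalClosure : Set X) := by
      rw [Submodule.topologicalClosure_coe]
      exact hF.closure
    exact h1.separableSpace
  have hdent : Dent F.topologicalClosure := by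
    refine dent_of_bump (fun y => b (x₀ + (y : X))) ?_ ⟨0, ?_⟩ ?_
    · have h1 : Differentiable ℝ fun y : F.topologicalClosure => x₀ + (y : X) :=
        (differentiable_const x₀).add F.topologicalClosure.subtypeL.differentiable
      exact hb.comp h1
    · simpa using hx₀
    · obtain ⟨r, hr⟩ := hbd.subset_closedBall (0 : X)
      refine (Metric.isBounded_closedBall (x := (0 : F.topologicalClosure))
        (r := r + ‖x₀‖)).subset ?_
      intro y hy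
      have h1 : x₀ + (y : X) ∈ Metric.closedBall (0 : X) r := hr hy
      rw [mem_closedBall_zero_iff] at h1 ⊢
      have h2 : ‖(y : X)‖ ≤ ‖x₀ + (y : X)‖ + ‖x₀‖ := by
        have h3 : (y : X) = (x₀ + (y : X)) - x₀ := by abel
        calc ‖(y : X)‖ = ‖(x₀ + (y : X)) - x₀‖ := by rw [← h3]
          _ ≤ _ := norm_sub_le _ _
      have h4 : ‖y‖ = ‖(y : X)‖ := rfl
      linarith
  have hdual := sep_of_dent hdent
  have hle : F ≤ F.topologicalClosure := F.le_topologicalClosure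
  let ι : F →L[ℝ] F.topologicalClosure :=
    ⟨Submodule.inclusion hle, by
      refine Continuous.subtype_mk ?_ _
      exact continuous_subtype_val⟩
  let R : (F.topologicalClosure →L[ℝ] ℝ) → (F →L[ℝ] ℝ) := fun φ => φ.comp ι
  have hR : Continuous R := (ContinuousLinearMap.compL ℝ F F.topologicalClosure ℝ).flip ι |>.continuous
  have hsurj : Function.Surjective R := by
    intro g
    obtain ⟨G, hG, -⟩ := exists_extension_norm_eq F g
    refine ⟨G.comp F.topologicalClosure.subtypeL, ?_⟩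
    ext x
    exact hG x
  exact hsurj.denseRange.separableSpace hR

end Pool.Agent.Helper74.AS
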