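import Pool.Agent.Helper74.AS.Der

/-!
AS-2. Existence of derivation chains.

By well-founded recursion on `Ordinal.{u}` define `Q ξ x = sInf ({p x} ∪ {D ε (Q ζ) x | ζ < ξ})`.
-/

set_option autoImplicit false

open scoped Topology Pointwise
open Filter Set

namespace Pool.Agent.Helper74.AS

universe u

variable {X : Type u} [NormedAddCommGroup X] [NormedSpace ℝ X]

namespace Chn_aux

/-- the transfinite derivation -/
noncomputable def Q (ε : ℝ) (p : X → ℝ) (ξ : Ordinal.{u}) : X → ℝ := fun x =>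
  sInf (insert (p x) (Set.range fun ζ : Set.Iio ξ => D ε (Q ε p ζ.1) x))
termination_by ξ
decreasing_by exact ζ.2

theorem Q_eq (ε : ℝ) (p : X → ℝ) (ξ : Ordinal.{u}) (x : X) :
    Q ε p ξ x = sInf (insert (p x) (Set.range fun ζ : Set.Iio ξ => D ε (Q ε p ζ.1) x)) := by
  rw [Q]

theorem main {ε : ℝ} (hε : 0 < ε) {p : X → ℝ} (hp : Sem p) (ξ : Ordinal.{u}) :
    Sem (Q ε p ξ) ∧ (∀ x, Q ε p ξ x ≤ p x) ∧ ∀ ζ < ξ, ∀ x, Q ε p ξ x ≤ D ε (Q ε p ζ) x := by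
  induction ξ using WellFoundedLT.induction with
  | _ ξ ih =>
  have hD : ∀ ζ < ξ, Sem (D ε (Q ε p ζ)) := fun ζ hζ => D_sem hε (ih ζ hζ).1
  have hbdd : ∀ x, BddBelow (insert (p x) (Set.range fun ζ : Set.Iio ξ => D ε (Q ε p ζ.1) x)) := by
    intro x
    refine ⟨0, ?_⟩
    rintro r (rfl | ⟨ζ, rfl⟩)
    · exact hp.nonneg x
    · exact (hD ζ.1 ζ.2).nonneg x
  have hne : ∀ x, (insert (p x) (Set.range fun ζ : Set.Iio ξ => D ε (Q ε p ζ.1) x)).Nonempty :=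
    fun x => ⟨p x, Set.mem_insert _ _⟩
  have h1 : ∀ x, Q ε p ξ x ≤ p x := by
    intro x
    rw [Q_eq]
    exact csInf_le (hbdd x) (Set.mem_insert _ _)
  have h2 : ∀ ζ < ξ, ∀ x, Q ε p ξ x ≤ D ε (Q ε p ζ) x := by
    intro ζ hζ x
    rw [Q_eq]
    exact csInf_le (hbdd x) (Set.mem_insert_of_mem _ ⟨⟨ζ, hζ⟩, rfl⟩)
  have hDp : ∀ ζ < ξ, ∀ x, D ε (Q ε p ζ) x ≤ p x := fun ζ hζ x =>
    (D_le hε (ih ζ hζ).1 x).trans ((ih ζ hζ).2.1 x)
  have hDD : ∀ ζ ζ', ζ < ζ' → ζ' < ξ → ∀ x, D ε (Q ε p ζ') x ≤ D ε (Q ε p ζ) x :=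
    fun ζ ζ' h h' x => (D_le hε (ih ζ' h').1 x).trans ((ih ζ' h').2.2 ζ h x)
  refine ⟨⟨?_, ?_, fun x => (h1 x).trans (hp.le x)⟩, h1, h2⟩
  · intro x y
    have key : ∀ a ∈ insert (p x) (Set.range fun ζ : Set.Iio ξ => D ε (Q ε p ζ.1) x),
        ∀ b ∈ insert (p y) (Set.range fun ζ : Set.Iio ξ => D ε (Q ε p ζ.1) y),
        Q ε p ξ (x + y) ≤ a + b := by
      rintro a (rfl | ⟨⟨ζ, hζ⟩, rfl⟩) b (rfl | ⟨⟨ζ', hζ'⟩, rfl⟩)
      · exact (h1 _).trans (hp.add x y)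
      · exact ((h2 ζ' hζ' _).trans ((hD ζ' hζ').add x y)).trans
          (add_le_add (hDp ζ' hζ' x) le_rfl)
      · exact ((h2 ζ hζ _).trans ((hD ζ hζ).add x y)).trans
          (add_le_add le_rfl (hDp ζ hζ y))
      · rcases lt_trichotomy ζ ζ' with h | h | h
        · exact ((h2 ζ' hζ' _).trans ((hD ζ' hζ').add x y)).trans
            (add_le_add (hDD ζ ζ' h hζ' x) le_rfl)
        · subst h
          exact (h2 ζ hζ _).trans ((hD ζ hζ).add x y)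
        · exact ((h2 ζ hζ _).trans ((hD ζ hζ).add x y)).trans
            (add_le_add le_rfl (hDD ζ' ζ h hζ y))
    have k1 : ∀ a ∈ insert (p x) (Set.range fun ζ : Set.Iio ξ => D ε (Q ε p ζ.1) x),
        Q ε p ξ (x + y) - a ≤ Q ε p ξ y := by
      intro a ha
      rw [Q_eq ε p ξ y]
      refine le_csInf (hne y) fun b hb => ?_
      have := key a ha b hb
      linarith
    have k2 : Q ε p ξ (x + y) - Q ε p ξ y ≤ Q ε p ξ x := by
      rw [Q_eq ε p ξ x]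
      refine le_csInf (hne x) fun a ha => ?_
      have := k1 a ha
      linarith
    linarith
  · intro c x
    have hset : insert (p (c • x)) (Set.range fun ζ : Set.Iio ξ => D ε (Q ε p ζ.1) (c • x)) =
        |c| • insert (p x) (Set.range fun ζ : Set.Iio ξ => D ε (Q ε p ζ.1) x) := by
      ext r
      rw [Set.mem_smul_set]
      constructor
      · rintro (rfl | ⟨⟨ζ, hζ⟩, rfl⟩)
        · exact ⟨p x, Set.mem_insert _ _, by rw [smul_eq_mul, hp.smul]⟩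
        · exact ⟨_, Set.mem_insert_of_mem _ ⟨⟨ζ, hζ⟩, rfl⟩, by
            rw [smul_eq_mul]; exact ((hD ζ hζ).smul c x).symm⟩
      · rintro ⟨s, (rfl | ⟨⟨ζ, hζ⟩, rfl⟩), rfl⟩
        · left
          rw [smul_eq_mul, hp.smul]
        · right
          exact ⟨⟨ζ, hζ⟩, by rw [smul_eq_mul]; exact (hD ζ hζ).smul c x⟩
    rw [Q_eq ε p ξ (c • x), hset, Real.sInf_smul_of_nonneg (abs_nonneg c), smul_eq_mul,
      ← Q_eq ε p ξ x]

end Chn_aux

open Chn_aux in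
theorem exists_chain (hX : Dent X) {ε : ℝ} (hε : 0 < ε) {p : X → ℝ} (hp : Sem p) :
    ∃ N, Chain ε p N := by
  refine ⟨Set.range (Q ε p), ?_, ?_, ?_, ?_⟩
  · rintro _ ⟨ξ, rfl⟩
    exact (main hε hp ξ).1
  · rintro _ ⟨ξ, rfl⟩
    exact (main hε hp ξ).2.1
  · rintro _ ⟨ξ, rfl⟩ _ ⟨ζ, rfl⟩
    rcases lt_trichotomy ξ ζ with h | h | h
    · exact Or.inr (Or.inl ((main hε hp ζ).2.2 ξ h))
    · exact Or.inl (by rw [h])
    · exact Or.inr (Or.inr ((main hε hp ξ).2.2 ζ h))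
  · intro x hx
    have hex : ∃ ξ, Q ε p ξ x ≠ p x := by
      by_contra hc
      push Not at hc
      have hlt : ∀ ζ ξ : Ordinal.{u}, ζ < ξ → Q ε p ξ ≠ Q ε p ζ := by
        intro ζ ξ h he
        have h1 : D ε (Q ε p ζ) = Q ε p ζ := by
          funext y
          refine le_antisymm (D_le hε (main hε hp ζ).1 y) ?_
          have h2 := (main hε hp ξ).2.2 ζ h y
          rwa [he] at h2
        have h3 := D_ne hX hε (main hε hp ζ).1 h1 x
        rw [hc ζ] at h3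
        exact hx.ne' h3
      refine not_injective_of_ordinal (Q ε p) ?_
      intro ξ ζ he
      rcases lt_trichotomy ξ ζ with h | h | h
      · exact absurd he.symm (hlt ξ ζ h)
      · exact h
      · exact absurd he (hlt ζ ξ h)
    obtain ⟨ξ, hξ, hmin⟩ : ∃ ξ, Q ε p ξ x ≠ p x ∧ ∀ ζ < ξ, Q ε p ζ x = p x := by
      obtain ⟨ξ, h1, h2⟩ := WellFounded.has_min (r := ((· < ·) : Ordinal.{u} → Ordinal.{u} → Prop))
        wellFounded_lt {ξ | Q ε p ξ x ≠ p x} hex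
      exact ⟨ξ, h1, fun ζ hζ => by
        by_contra hc
        exact h2 ζ hc hζ⟩
    have h1 : Q ε p ξ x < p x := lt_of_le_of_ne ((main hε hp ξ).2.1 x) hξ
    rw [Q_eq] at h1
    obtain ⟨a, ha, h2⟩ := exists_lt_of_csInf_lt ⟨p x, Set.mem_insert _ _⟩ h1
    rcases ha with rfl | ⟨⟨ζ, hζ⟩, rfl⟩
    · exact absurd h2 (lt_irrefl _)
    · exact ⟨Q ε p ζ, ⟨ζ, rfl⟩, hmin ζ hζ, h2⟩

theorem chain_spec (hX : Dent X) {ε : ℝ} (hε : 0 < ε) {p : X → ℝ} (hp : Sem p) :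
    Chain ε p (chain ε p) := by
  have h := exists_chain hX hε hp
  rw [chain, dif_pos h]
  exact h.choose_spec

end Pool.Agent.Helper74.AS
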