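import Pool.Agent.Helper74.AS.Defs

/-!
AS-5. Comparison of two solutions.

`IsSol.cmp`: suppose `t - t' > L`. Then `t - b > t' - b'` (both positive), and for all `i`:
`max (v i - t) 0 ≤ max (v' i - t') 0` (if `t < v i` then `v i - t ≤ v' i + L - t < v' i - t'`).
Summing over the union of the two finsets (terms outside vanish),
`η² (t - b)² ≤ η² (t' - b')²`, contradiction.
`IsSol.cmp_tau`: apply `cmp` to `v - b`, `0`, `t - b` and `v' - b'`, `0`, `t' - b'`.
-/

set_option autoImplicit false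

open scoped Topology
open Filter Set

namespace Pool.Agent.Helper74.AS

private theorem Cmp_aux_sum {ι : Type*} {S U : Finset ι} (hSU : S ⊆ U) {v : ι → ℝ} {t : ℝ}
    (h : ∀ i, i ∉ S → v i ≤ t) :
    ∑ i ∈ U, (max (v i - t) 0) ^ 2 = ∑ i ∈ S, (max (v i - t) 0) ^ 2 := by
  refine (Finset.sum_subset hSU fun i _ hi => ?_).symm
  rw [max_eq_right (by linarith [h i hi])]
  norm_num

private theorem Cmp_aux_shift {ι : Type*} {η : ℝ} {v : ι → ℝ} {b t : ℝ}
    (h : IsSol η v b t) : IsSol η (fun i => v i - b) 0 (t - b) := by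
  obtain ⟨hbt, S, hS, hs⟩ := h
  refine ⟨by linarith, S, fun i hi => by linarith [hS i hi], ?_⟩
  rw [sub_zero, ← hs]
  refine Finset.sum_congr rfl fun i _ => ?_
  rw [show v i - b - (t - b) = v i - t by ring]

theorem IsSol.cmp {ι : Type*} {η : ℝ} (hη : 0 < η) {v v' : ι → ℝ} {b b' t t' L : ℝ}
    (h : IsSol η v b t) (h' : IsSol η v' b' t') (hb : b - b' ≤ L)
    (hv : ∀ i, t < v i → v i - v' i ≤ L) : t - t' ≤ L := by
  classical
  by_contra hlt
  rw [not_le] at hlt
  obtain ⟨hbt, S, hS, hs⟩ := h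
  obtain ⟨hbt', S', hS', hs'⟩ := h'
  have h1 := Cmp_aux_sum (Finset.subset_union_left (s₁ := S) (s₂ := S')) hS
  have h2 := Cmp_aux_sum (Finset.subset_union_right (s₁ := S) (s₂ := S')) hS'
  have h3 : ∑ i ∈ S ∪ S', (max (v i - t) 0) ^ 2 ≤ ∑ i ∈ S ∪ S', (max (v' i - t') 0) ^ 2 := by
    refine Finset.sum_le_sum fun i _ => ?_
    refine pow_le_pow_left₀ (le_max_right _ _) ?_ 2
    refine max_le ?_ (le_max_right _ _)
    rcases lt_or_ge t (v i) with hi | hi
    · exact le_max_of_le_left (by linarith [hv i hi])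
    · exact le_max_of_le_right (by linarith)
  rw [h1, h2, hs, hs'] at h3
  have h4 : (t - b) ^ 2 ≤ (t' - b') ^ 2 := le_of_mul_le_mul_left h3 (by positivity)
  have h5 : t' - b' < t - b := by linarith
  have h6 : (t' - b') ^ 2 < (t - b) ^ 2 := pow_lt_pow_left₀ h5 (by linarith) (by norm_num)
  linarith

theorem IsSol.cmp_tau {ι : Type*} {η : ℝ} (hη : 0 < η) {v v' : ι → ℝ} {b b' t t' L : ℝ}
    (h : IsSol η v b t) (h' : IsSol η v' b' t') (hL : 0 ≤ L)
    (hv : ∀ i, t < v i → (v i - b) - (v' i - b') ≤ L) : (t - b) - (t' - b') ≤ L := by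
  refine IsSol.cmp hη (Cmp_aux_shift h) (Cmp_aux_shift h') (by linarith) fun i hi => ?_
  exact hv i (by linarith)

end Pool.Agent.Helper74.AS
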