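import Pool.Agent.Helper74.AS.Nodes
import Pool.Agent.Helper74.AS.Cmp

/-!
AS-9. The operator is a contraction.

Let `τ, τ'` be the two solutions at `(p, x, α)` (for `F`, `G`), `A = 2cα` (both are `≤ A`),
`e = κ (r A + δ |τ - τ'|)`. Then `|F q x (κτ) - G q x (κτ')| ≤ r κ τ + δ κ |τ - τ'| ≤ e` for every
`Sem q`, so base and all nodes differ by at most `(1 + 2c) e` (`hh_lip`). `IsSol.cmp` (both
directions) gives `|t - t'| ≤ (1 + 2c) e`, and `IsSol.cmp_tau` gives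
`|τ - τ'| ≤ (2 + 2c) e ≤ (2+2c) κ r A + |τ - τ'|/2`. Hence the claim (the constants are tiny).
-/

set_option autoImplicit false

open scoped Topology
open Filter Set

namespace Pool.Agent.Helper74.AS

universe u

variable {X : Type u} [NormedAddCommGroup X] [NormedSpace ℝ X] {P : Par} {δ : ℝ} {F G : Fam X}

private theorem Contr_aux (hX : Dent X) (hP : P.Ok) (hF : MM δ F) (hG : MM δ G) (hδ : 0 ≤ δ)
    (hδ1 : δ ≤ 1 / 10) {r : ℝ} (hr : 0 ≤ r)
    (h : ∀ q, Sem q → ∀ x α, 0 < α → |F q x α - G q x α| ≤ r * α)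
    {p : X → ℝ} (hp : Sem p) (x : X) {α τ τ' : ℝ} (hα : 0 < α) (hτ : IsTau P F p x α τ)
    (hτ' : IsTau P G p x α τ') :
    (F p x (P.κ * τ) + τ) - (G p x (P.κ * τ') + τ') ≤
        2 * ((r * α / 500 + |τ - τ'| / 10) / 1000) ∧
      τ - τ' ≤ 3 * ((r * α / 500 + |τ - τ'| / 10) / 1000) := by
  obtain ⟨h0, h1, h2⟩ := hτ
  obtain ⟨h0', h1', h2'⟩ := hτ'
  have hκτ : 0 < P.κ * τ := mul_pos hP.κ0 h0
  have hκτ' : 0 < P.κ * τ' := mul_pos hP.κ0 h0'
  set e : ℝ := (r * α / 500 + |τ - τ'| / 10) / 1000 with he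
  have hrα : 0 ≤ r * α := mul_nonneg hr hα.le
  have habs := abs_nonneg (τ - τ')
  have he0 : 0 ≤ e := by rw [he]; linarith
  have hk : ∀ q, Sem q → |F q x (P.κ * τ) - G q x (P.κ * τ')| ≤ e := by
    intro q hq
    have a1 := h q hq x _ hκτ
    have a2 := hG.lip_a hq x hκτ hκτ'
    have a3 : |P.κ * τ - P.κ * τ'| = P.κ * |τ - τ'| := by
      rw [← mul_sub, abs_mul, abs_of_pos hP.κ0]
    rw [a3] at a2
    have a4 : P.κ * |τ - τ'| ≤ 1 / 1000 * |τ - τ'| :=
      mul_le_mul_of_nonneg_right hP.κ1 (abs_nonneg _)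
    have a5 : δ * (P.κ * |τ - τ'|) ≤ 1 / 10 * (1 / 1000 * |τ - τ'|) :=
      mul_le_mul hδ1 a4 (mul_nonneg hP.κ0.le (abs_nonneg _)) (by norm_num)
    have a6 : τ ≤ α / 500 := by
      have : P.c * α ≤ 1 / 1000 * α := mul_le_mul_of_nonneg_right hP.c1 hα.le
      linarith
    have a7 : P.κ * τ ≤ 1 / 1000 * (α / 500) :=
      mul_le_mul hP.κ1 a6 h0.le (by norm_num)
    have a8 := mul_le_mul_of_nonneg_left a7 hr
    have a9 := abs_sub_le (F q x (P.κ * τ)) (G q x (P.κ * τ)) (G q x (P.κ * τ'))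
    rw [he]
    linarith
  have hkp := abs_le.1 (hk p hp)
  have hnode : ∀ i, node P F p x α τ i - node P G p x α τ' i ≤ (1 + 2 * P.c) * e := by
    intro i
    have hc := hP.c0
    have hce : 0 ≤ P.c * e := mul_nonneg hc.le he0
    match i with
    | none =>
      change P.c * α - P.c * α ≤ _
      linarith
    | some q =>
      have hC := chain_spec hX hP.ε0 hp
      have hq := hC.sem q.1 q.2
      have b1 := abs_le.1 (hk q.1 hq)
      have b2 := abs_le.1 (hk (D P.ε q.1) (D_sem hP.ε0 hq))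
      have b3 := hh_lip hα hα (F q.1 x (P.κ * τ) - F (D P.ε q.1) x (P.κ * τ))
        (G q.1 x (P.κ * τ') - G (D P.ε q.1) x (P.κ * τ'))
      rw [sub_self, abs_zero, zero_add] at b3
      have b4 : |(F q.1 x (P.κ * τ) - F (D P.ε q.1) x (P.κ * τ)) -
          (G q.1 x (P.κ * τ') - G (D P.ε q.1) x (P.κ * τ'))| ≤ 2 * e := by
        rw [abs_le]
        constructor <;> linarith [b1.1, b1.2, b2.1, b2.2]
      have b5 := abs_le.1 (b3.trans b4)
      have b6 := mul_le_mul_of_nonneg_left b5.2 hc.le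
      change (F q.1 x (P.κ * τ) + P.c * hh α (F q.1 x (P.κ * τ) - F (D P.ε q.1) x (P.κ * τ))) -
        (G q.1 x (P.κ * τ') + P.c * hh α (G q.1 x (P.κ * τ') - G (D P.ε q.1) x (P.κ * τ'))) ≤ _
      linarith [b1.1, b1.2]
  have hc1 : P.c * e ≤ 1 / 1000 * e := mul_le_mul_of_nonneg_right hP.c1 he0
  have hce : 0 ≤ P.c * e := mul_nonneg hP.c0.le he0
  have r1 := IsSol.cmp (L := (1 + 2 * P.c) * e) hP.η0 h2 h2' (by linarith [hkp.2])
    (fun i _ => hnode i)
  have r2 := IsSol.cmp_tau (L := (2 + 2 * P.c) * e) hP.η0 h2 h2' (by linarith)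
    (fun i _ => by linarith [hnode i, hkp.1])
  constructor <;> linarith

theorem contr (hX : Dent X) (hP : P.Ok) (hF : MM δ F) (hG : MM δ G) (hδ : 0 ≤ δ)
    (hδ1 : δ ≤ 1 / 10) {r : ℝ} (hr : 0 ≤ r)
    (h : ∀ q, Sem q → ∀ x α, 0 < α → |F q x α - G q x α| ≤ r * α) :
    ∀ p, Sem p → ∀ x α, 0 < α → |T P F p x α - T P G p x α| ≤ r / 2 * α := by
  intro p hp x α hα
  have h' : ∀ q, Sem q → ∀ x α, 0 < α → |G q x α - F q x α| ≤ r * α := by
    intro q hq x α hα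
    rw [abs_sub_comm]
    exact h q hq x α hα
  have s1 := tau_spec hX hP hF hδ hδ1 hp x hα
  have s2 := tau_spec hX hP hG hδ hδ1 hp x hα
  have c1 := Contr_aux hX hP hF hG hδ hδ1 hr h hp x hα s1 s2
  have c2 := Contr_aux hX hP hG hF hδ hδ1 hr h' hp x hα s2 s1
  rw [abs_sub_comm (tau P G p x α) (tau P F p x α)] at c2
  have hrα : 0 ≤ r * α := mul_nonneg hr hα.le
  have hd : |tau P F p x α - tau P G p x α| ≤
      3 * ((r * α / 500 + |tau P F p x α - tau P G p x α| / 10) / 1000) := by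
    rw [abs_le]
    constructor <;> linarith [c1.2, c2.2]
  change |(F p x (P.κ * tau P F p x α) + tau P F p x α) -
    (G p x (P.κ * tau P G p x α) + tau P G p x α)| ≤ _
  rw [abs_le]
  constructor <;> linarith [c1.1, c2.1]

end Pool.Agent.Helper74.AS
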