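import Mathlib

/-!
Definitions for `C¹` approximation of seminorms on Asplund spaces.
-/

set_option autoImplicit false

open scoped Topology
open Filter Set

namespace Pool.Agent.Helper74.AS

section defs

variable {X : Type*} [NormedAddCommGroup X] [NormedSpace ℝ X]

/-- seminorms dominated by the norm -/
structure Sem (q : X → ℝ) : Prop where
  add : ∀ x y, q (x + y) ≤ q x + q y
  smul : ∀ (c : ℝ) (x : X), q (c • x) = |c| * q x
  le : ∀ x, q x ≤ ‖x‖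

/-- functionals dominated by `q` -/
def K (q : X → ℝ) : Set (X →L[ℝ] ℝ) := {φ | ∀ x, φ x ≤ q x}

/-- the slice of `K q` given by `w` and `a` has diameter at most `ε` -/
def Small (q : X → ℝ) (ε : ℝ) (w : X) (a : ℝ) : Prop :=
  ∀ φ ∈ K q, ∀ ψ ∈ K q, a < φ w → a < ψ w → ‖φ - ψ‖ ≤ ε

/-- the functionals of `K q` which lie in no small slice -/
def Kd (ε : ℝ) (q : X → ℝ) : Set (X →L[ℝ] ℝ) := {φ | φ ∈ K q ∧ ∀ w a, Small q ε w a → φ w ≤ a}

open Classical in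
/-- the derived seminorm -/
noncomputable def D (ε : ℝ) (q : X → ℝ) : X → ℝ :=
  if ∀ x, q x ≤ ε * ‖x‖ then 0 else fun x => sSup ((fun φ : X →L[ℝ] ℝ => φ x) '' Kd ε q)

/-- `N` is a derivation chain below `p` -/
structure Chain (ε : ℝ) (p : X → ℝ) (N : Set (X → ℝ)) : Prop where
  sem : ∀ q ∈ N, Sem q
  le : ∀ q ∈ N, ∀ x, q x ≤ p x
  cmp : ∀ q ∈ N, ∀ r ∈ N, q = r ∨ (∀ x, r x ≤ D ε q x) ∨ ∀ x, q x ≤ D ε r x
  jump : ∀ x, 0 < p x → ∃ q ∈ N, q x = p x ∧ D ε q x < p x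

variable (X) in
/-- every dual ball has small slices -/
def Dent : Prop :=
  ∀ q : X → ℝ, Sem q → ∀ ε : ℝ, 0 < ε → ∃ (w : X) (a : ℝ), (∃ φ ∈ K q, a < φ w) ∧ Small q ε w a

open Classical in
/-- a derivation chain below `p` -/
noncomputable def chain (ε : ℝ) (p : X → ℝ) : Set (X → ℝ) :=
  if h : ∃ N, Chain ε p N then h.choose else ∅

/-- `t` solves `∑ ((v i - t)⁺)² = η² (t - b)²`, `b < t` -/
def IsSol {ι : Type*} (η : ℝ) (v : ι → ℝ) (b t : ℝ) : Prop :=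
  b < t ∧ ∃ S : Finset ι, (∀ i, i ∉ S → v i ≤ t) ∧
    ∑ i ∈ S, (max (v i - t) 0) ^ 2 = η ^ 2 * (t - b) ^ 2

/-- truncation of `j` at the scale `a` -/
noncomputable def hh (a j : ℝ) : ℝ := a * max j 0 / (a + max j 0)

/-- parameters -/
structure Par where
  (c κ η ε : ℝ)

/-- admissible parameters -/
structure Par.Ok (P : Par) : Prop where
  c0 : 0 < P.c
  c1 : P.c ≤ 1 / 1000
  κ0 : 0 < P.κ
  κ1 : P.κ ≤ 1 / 1000
  η0 : 0 < P.η
  η1 : P.η ≤ 1 / 1000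
  ε0 : 0 < P.ε

/-- families of functions approximating the seminorms -/
abbrev Fam (X : Type*) := (X → ℝ) → X → ℝ → ℝ

/-- the value at a node -/
noncomputable def node (P : Par) (F : Fam X) (p : X → ℝ) (x : X) (α τ : ℝ) :
    Option (chain P.ε p) → ℝ
  | none => P.c * α
  | some q => F q.1 x (P.κ * τ) + P.c * hh α (F q.1 x (P.κ * τ) - F (D P.ε q.1) x (P.κ * τ))

/-- admissible families -/
structure MM (δ : ℝ) (F : Fam X) : Prop where
  lo : ∀ q, Sem q → ∀ x α, 0 < α → q x ≤ F q x α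
  hi : ∀ q, Sem q → ∀ x α, 0 < α → F q x α ≤ q x + α
  loc : ∀ q, Sem q → ∀ y z α β s, 0 < α → 0 < β →
    (∀ φ ∈ K q, q y - α ≤ φ y → φ (y - z) ≤ s) →
    F q y α - F q z β ≤ s + δ * (‖y - z‖ + |α - β|)

/-- `τ` solves the equation of the operator at `(p, x, α)` -/
def IsTau (P : Par) (F : Fam X) (p : X → ℝ) (x : X) (α τ : ℝ) : Prop :=
  0 < τ ∧ τ ≤ 2 * P.c * α ∧
    IsSol P.η (node P F p x α τ) (F p x (P.κ * τ)) (F p x (P.κ * τ) + τ)

open Classical in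
/-- a solution of the equation of the operator -/
noncomputable def tau (P : Par) (F : Fam X) (p : X → ℝ) (x : X) (α : ℝ) : ℝ :=
  if h : ∃ τ, IsTau P F p x α τ then h.choose else 0

/-- the smoothing operator -/
noncomputable def T (P : Par) (F : Fam X) : Fam X := fun p x α =>
  F p x (P.κ * tau P F p x α) + tau P F p x α

/-- the functionals of `K q` which are almost maximal at `x` are close to each other -/
def Good (ε : ℝ) (q : X → ℝ) (x : X) (α : ℝ) : Prop :=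
  ∀ φ ∈ K q, ∀ ψ ∈ K q, q x - 2 * α ≤ φ x → q x - 2 * α ≤ ψ x → ‖φ - ψ‖ ≤ 2 * ε

end defs

/-- `h` is differentiable at `e₀` up to the error `l` -/
def Flat {E : Type*} [NormedAddCommGroup E] [NormedSpace ℝ E] (l : ℝ) (h : E → ℝ) (e₀ : E) :
    Prop :=
  ∀ m > l, ∃ φ : E →L[ℝ] ℝ, ∀ᶠ p in 𝓝 (e₀, e₀), |h p.1 - h p.2 - φ (p.1 - p.2)| ≤ m * ‖p.1 - p.2‖

/-- parameters of level `n` -/
noncomputable def par (n : ℕ) : Par :=
  ⟨(1 / 4) ^ n / 1000, (1 / 4) ^ n / 1000, (1 / 4) ^ n / 1000, (1 / 4) ^ n⟩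

/-- `F` as a function on `X × ℝ` -/
def fn {X : Type*} (F : Fam X) (q : X → ℝ) : X × ℝ → ℝ := fun e => F q e.1 e.2

end Pool.Agent.Helper74.AS
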