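import Pool.Agent.Helper74.AS.Basic

/-!
AS-1. The derivation `D` (definitions in Defs.lean, facts on `Sem`, `K` in Basic.lean).
-/

set_option autoImplicit false

open scoped Topology
open Filter Set

namespace Pool.Agent.Helper74.AS

variable {X : Type*} [NormedAddCommGroup X] [NormedSpace ℝ X]

namespace Der_aux

theorem D_zero_of {ε : ℝ} {q : X → ℝ} (h : ∀ x, q x ≤ ε * ‖x‖) : D ε q = 0 := by
  unfold D
  rw [if_pos h]

theorem D_sup_of {ε : ℝ} {q : X → ℝ} (h : ¬ ∀ x, q x ≤ ε * ‖x‖) (x : X) :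
    D ε q x = sSup ((fun φ : X →L[ℝ] ℝ => φ x) '' Kd ε q) := by
  unfold D
  rw [if_neg h]

theorem small_neg {q : X → ℝ} (hq : Sem q) {ε : ℝ} {w : X} {a : ℝ} (h : Small q ε w a) :
    Small q ε (-w) a := by
  intro φ hφ ψ hψ h1 h2
  have h3 := h (-φ) (K_neg hq hφ) (-ψ) (K_neg hq hψ) (by
    rw [map_neg] at h1
    exact h1) (by
    rw [map_neg] at h2
    exact h2)
  have h4 : -φ - -ψ = -(φ - ψ) := by abel
  rw [h4, norm_neg] at h3
  exact h3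

theorem Kd_neg {q : X → ℝ} (hq : Sem q) {ε : ℝ} {φ : X →L[ℝ] ℝ} (hφ : φ ∈ Kd ε q) :
    -φ ∈ Kd ε q := by
  refine ⟨K_neg hq hφ.1, fun w a h => ?_⟩
  have h1 := hφ.2 (-w) a (small_neg hq h)
  rw [map_neg] at h1
  exact h1

theorem le_of_K_norm {q : X → ℝ} (hq : Sem q) {ε : ℝ} (h : ∀ φ ∈ K q, ‖φ‖ ≤ ε) (x : X) :
    q x ≤ ε * ‖x‖ := by
  obtain ⟨φ, hφ, h1⟩ := hq.attain x
  rw [← h1]
  calc φ x ≤ ‖φ x‖ := Real.le_norm_self _
    _ ≤ ‖φ‖ * ‖x‖ := φ.le_opNorm x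
    _ ≤ ε * ‖x‖ := mul_le_mul_of_nonneg_right (h φ hφ) (norm_nonneg _)

theorem Kd_zero {q : X → ℝ} (hq : Sem q) {ε : ℝ} (h : ¬ ∀ x, q x ≤ ε * ‖x‖) :
    (0 : X →L[ℝ] ℝ) ∈ Kd ε q := by
  refine ⟨K_zero hq, fun w a hs => ?_⟩
  by_contra hc
  rw [not_le] at hc
  apply h
  apply le_of_K_norm hq
  intro φ hφ
  have hc' : a < 0 := hc
  rcases le_total 0 (φ w) with h0 | h0
  · have h1 := hs φ hφ 0 (K_zero hq) (lt_of_lt_of_le hc' h0) hc
    rwa [sub_zero] at h1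
  · have h1 := hs (-φ) (K_neg hq hφ) 0 (K_zero hq) (by
      change a < -(φ w)
      linarith) hc
    rwa [sub_zero, norm_neg] at h1

theorem bdd {q : X → ℝ} {ε : ℝ} (x : X) :
    BddAbove ((fun φ : X →L[ℝ] ℝ => φ x) '' Kd ε q) :=
  ⟨q x, by
    rintro _ ⟨φ, hφ, rfl⟩
    exact hφ.1 x⟩

theorem le_D {q : X → ℝ} {ε : ℝ} (h : ¬ ∀ x, q x ≤ ε * ‖x‖) {φ : X →L[ℝ] ℝ}
    (hφ : φ ∈ Kd ε q) (x : X) : φ x ≤ D ε q x := by
  rw [D_sup_of h]
  exact le_csSup (bdd x) ⟨φ, hφ, rfl⟩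

theorem D_le_of {q : X → ℝ} (hq : Sem q) {ε : ℝ} (h : ¬ ∀ x, q x ≤ ε * ‖x‖) {x : X} {r : ℝ}
    (hr : ∀ φ ∈ Kd ε q, φ x ≤ r) : D ε q x ≤ r := by
  rw [D_sup_of h]
  refine csSup_le ⟨_, 0, Kd_zero hq h, rfl⟩ ?_
  rintro _ ⟨φ, hφ, rfl⟩
  exact hr φ hφ

theorem D_smul_le {q : X → ℝ} (hq : Sem q) {ε : ℝ} (h : ¬ ∀ x, q x ≤ ε * ‖x‖) (c : ℝ) (x : X) :
    D ε q (c • x) ≤ |c| * D ε q x := by
  apply D_le_of hq h
  intro φ hφ
  rw [map_smul, smul_eq_mul]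
  calc c * φ x ≤ |c * φ x| := le_abs_self _
    _ = |c| * |φ x| := abs_mul _ _
    _ ≤ |c| * D ε q x := by
        apply mul_le_mul_of_nonneg_left _ (abs_nonneg c)
        rw [abs_le']
        exact ⟨le_D h hφ x, le_D h (Kd_neg hq hφ) x⟩

end Der_aux

open Der_aux

theorem D_le {ε : ℝ} (hε : 0 < ε) {q : X → ℝ} (hq : Sem q) (x : X) : D ε q x ≤ q x := by
  by_cases h : ∀ x, q x ≤ ε * ‖x‖
  · rw [D_zero_of h]
    exact hq.nonneg x
  · exact D_le_of hq h fun φ hφ => hφ.1 x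

theorem D_sem {ε : ℝ} (hε : 0 < ε) {q : X → ℝ} (hq : Sem q) : Sem (D ε q) := by
  by_cases h : ∀ x, q x ≤ ε * ‖x‖
  · rw [D_zero_of h]
    refine ⟨fun x y => ?_, fun c x => ?_, fun x => ?_⟩
    · simp
    · simp
    · simp
  · refine ⟨fun x y => ?_, fun c x => ?_, fun x => (D_le hε hq x).trans (hq.le x)⟩
    · apply D_le_of hq h
      intro φ hφ
      rw [map_add]
      exact add_le_add (le_D h hφ x) (le_D h hφ y)
    · apply le_antisymm (D_smul_le hq h c x)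
      rcases eq_or_ne c 0 with rfl | hc
      · rw [abs_zero, zero_mul]
        exact le_D h (Kd_zero hq h) _
      · have h1 := D_smul_le hq h c⁻¹ (c • x)
        rw [smul_smul, inv_mul_cancel₀ hc, one_smul, abs_inv] at h1
        have h2 : 0 < |c| := abs_pos.2 hc
        calc |c| * D ε q x ≤ |c| * (|c|⁻¹ * D ε q (c • x)) :=
              mul_le_mul_of_nonneg_left h1 h2.le
          _ = D ε q (c • x) := by
              rw [← mul_assoc, mul_inv_cancel₀ h2.ne', one_mul]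

theorem D_ne (hX : Dent X) {ε : ℝ} (hε : 0 < ε) {q : X → ℝ} (hq : Sem q) (h : D ε q = q) (x : X) :
    q x = 0 := by
  by_cases h0 : ∀ x, q x ≤ ε * ‖x‖
  · rw [D_zero_of h0] at h
    rw [← h]
    rfl
  · exfalso
    obtain ⟨w, a, ⟨φ, hφ, h1⟩, h2⟩ := hX q hq ε hε
    have h3 : D ε q w ≤ a := D_le_of hq h0 fun ψ hψ => hψ.2 w a h2
    rw [h] at h3
    have h4 := hφ w
    linarith

theorem face {ε : ℝ} (hε : 0 < ε) {q : X → ℝ} (hq : Sem q) {x : X} {δ : ℝ}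
    (h : D ε q x < q x - δ) {φ ψ : X →L[ℝ] ℝ} (hφ : φ ∈ K q) (hψ : ψ ∈ K q)
    (h1 : q x - δ ≤ φ x) (h2 : q x - δ ≤ ψ x) : ‖φ - ψ‖ ≤ 2 * ε := by
  by_cases h0 : ∀ x, q x ≤ ε * ‖x‖
  · have key : ∀ θ ∈ K q, ‖θ‖ ≤ ε := by
      intro θ hθ
      refine θ.opNorm_le_bound hε.le fun y => ?_
      rw [Real.norm_eq_abs]
      exact (K_abs hq hθ y).trans (h0 y)
    calc ‖φ - ψ‖ ≤ ‖φ‖ + ‖ψ‖ := norm_sub_le _ _
      _ ≤ ε + ε := add_le_add (key φ hφ) (key ψ hψ)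
      _ = 2 * ε := by ring
  · set m : X →L[ℝ] ℝ := (1 / 2 : ℝ) • (φ + ψ) with hm
    have hmv : ∀ y, m y = (1 / 2 : ℝ) * (φ y + ψ y) := fun y => rfl
    have hmK : m ∈ K q := by
      intro y
      rw [hmv]
      have h3 := hφ y
      have h4 := hψ y
      linarith
    have hnot : ¬ ∀ w a, Small q ε w a → m w ≤ a := by
      intro hc
      have h3 : m x ≤ D ε q x := le_D h0 ⟨hmK, hc⟩ x
      rw [hmv] at h3
      linarith
    push Not at hnot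
    obtain ⟨w, a, hs, h3⟩ := hnot
    rw [hmv] at h3
    have h3' : a < m w := by rw [hmv]; exact h3
    rcases lt_or_ge a (φ w) with h4 | h4
    · have h5 := hs φ hφ m hmK h4 h3'
      have h6 : φ - ψ = (2 : ℝ) • (φ - m) := by
        ext y
        change φ y - ψ y = 2 * (φ y - m y)
        rw [hmv]
        ring
      rw [h6, norm_smul, Real.norm_eq_abs, abs_of_pos two_pos]
      linarith
    · have h4' : a < ψ w := by linarith
      have h5 := hs ψ hψ m hmK h4' h3'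
      have h6 : φ - ψ = (-2 : ℝ) • (ψ - m) := by
        ext y
        change φ y - ψ y = (-2) * (ψ y - m y)
        rw [hmv]
        ring
      rw [h6, norm_smul, Real.norm_eq_abs, abs_neg, abs_of_pos two_pos]
      linarith

end Pool.Agent.Helper74.AS
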