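import Pool.Agent.Helper74.AS.Der

set_option autoImplicit false

open scoped Topology
open Filter Set

namespace Pool.Agent.Helper74.AS

variable {X : Type*} [NormedAddCommGroup X] [NormedSpace ℝ X]

namespace Fin_aux

theorem exists_top {ε : ℝ} (hε : 0 < ε) {p : X → ℝ} {N : Set (X → ℝ)} (h : Chain ε p N)
    (S : Finset (X → ℝ)) (hS : ∀ q ∈ S, q ∈ N) (hne : S.Nonempty) :
    ∃ q₀ ∈ S, ∀ r ∈ S, r ≠ q₀ → ∀ x, r x ≤ D ε q₀ x := by
  classical
  induction S using Finset.induction_on with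
  | empty => exact absurd hne (by simp)
  | insert q S hq ih =>
    by_cases hS0 : S.Nonempty
    · obtain ⟨q₀, hq₀, hq₀'⟩ := ih (fun r hr => hS r (Finset.mem_insert_of_mem hr)) hS0
      have hqN := hS q (Finset.mem_insert_self _ _)
      have hq₀N := hS q₀ (Finset.mem_insert_of_mem hq₀)
      rcases h.cmp q hqN q₀ hq₀N with h1 | h1 | h1
      · exact absurd (h1 ▸ hq₀) hq
      · refine ⟨q, Finset.mem_insert_self _ _, fun r hr hrq x => ?_⟩
        rcases Finset.mem_insert.1 hr with h2 | h2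
        · exact absurd h2 hrq
        · by_cases h3 : r = q₀
          · rw [h3]; exact h1 x
          · exact ((hq₀' r h2 h3 x).trans (D_le hε (h.sem q₀ hq₀N) x)).trans (h1 x)
      · refine ⟨q₀, Finset.mem_insert_of_mem hq₀, fun r hr hrq x => ?_⟩
        rcases Finset.mem_insert.1 hr with h2 | h2
        · rw [h2]; exact h1 x
        · exact hq₀' r h2 hrq x
    · rw [Finset.not_nonempty_iff_eq_empty] at hS0
      subst hS0
      refine ⟨q, by simp, fun r hr hrq => ?_⟩
      simp only [insert_empty_eq, Finset.mem_singleton] at hr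
      exact absurd hr hrq

theorem sum_le {ε : ℝ} (hε : 0 < ε) {p : X → ℝ} {N : Set (X → ℝ)} (h : Chain ε p N) (x : X)
    (n : ℕ) : ∀ S : Finset (X → ℝ), S.card = n → (∀ q ∈ S, q ∈ N) → ∀ u : ℝ, 0 ≤ u →
      (∀ q ∈ S, q x ≤ u) → ∑ q ∈ S, (q x - D ε q x) ≤ u := by
  classical
  induction n with
  | zero =>
    intro S hS _ u hu _
    rw [Finset.card_eq_zero.1 hS, Finset.sum_empty]
    exact hu
  | succ n ih =>
    intro S hS hSN u hu hSu
    obtain ⟨q₀, hq₀, htop⟩ := exists_top hε h S hSN (Finset.card_pos.1 (by omega))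
    have h1 := ih (S.erase q₀) (by rw [Finset.card_erase_of_mem hq₀]; omega)
      (fun q hq => hSN q (Finset.mem_of_mem_erase hq)) (D ε q₀ x)
      ((D_sem hε (h.sem q₀ (hSN q₀ hq₀))).nonneg x)
      (fun q hq => htop q (Finset.mem_of_mem_erase hq) (Finset.ne_of_mem_erase hq) x)
    rw [← Finset.add_sum_erase S _ hq₀]
    have h2 := hSu q₀ hq₀
    linarith

end Fin_aux

open Fin_aux

theorem Chain.fin {ε : ℝ} (hε : 0 < ε) {p : X → ℝ} {N : Set (X → ℝ)} (h : Chain ε p N) (x : X)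
    {r : ℝ} (hr : 0 < r) : {q | q ∈ N ∧ r ≤ q x - D ε q x}.Finite := by
  by_contra hinf
  obtain ⟨n, hn⟩ := exists_nat_gt (‖p x‖ / r)
  obtain ⟨S, hS, hSn⟩ := Set.Infinite.exists_subset_card_eq hinf (n + 1)
  have h1 := sum_le hε h x (n + 1) S hSn (fun q hq => (hS hq).1) ‖p x‖ (norm_nonneg _)
    (fun q hq => (h.le q (hS hq).1 x).trans (Real.le_norm_self _))
  have h2 : S.card • r ≤ ∑ q ∈ S, (q x - D ε q x) :=
    Finset.card_nsmul_le_sum S _ r (fun q hq => (hS hq).2)
  rw [hSn, nsmul_eq_mul] at h2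
  rw [div_lt_iff₀ hr] at hn
  push_cast at h2
  nlinarith

end Pool.Agent.Helper74.AS
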