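import Pool.Agent.Helper74.AS.Basic

/-!
AS-17. If all separable subspaces have separable duals then all dual balls have small slices.

Suppose `q` is `Sem`, `ε > 0` and no nonempty slice of `K q` is small for `ε`. Then for all `w` and
`a < q w` there is a vector `u w a`, `‖u‖ ≤ 1`, with
(1) `2 a + ε s ≤ q (w + s • u) + q (w - s • u)` for all `s ≥ 0`. Let `A` be a countable set,
containing `0`, closed under `+`, rational multiples and `w ↦ u w a` for `a` rational, `Y` its
closure. `Y*` is separable: let `f n` be dense in `Y*`. For `y ∈ Y` let `φ_y ∈ K q` with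
`φ_y y = q y`; the sets `A n = {y ∈ Y | ‖φ_y|Y - f n‖ ≤ ε/4}` cover `Y`; by Baire the closure of
one of them contains a ball `V` of `Y`. For `y, y' ∈ A n`:
`q y' - q y ≤ φ_{y'} (y' - y) ≤ f n (y' - y) + (ε/4)‖y' - y‖`; by continuity this holds for all
`y, y' ∈ V`, which contradicts (1) at a point `w ∈ A ∩ V`.
-/

set_option autoImplicit false

open scoped Topology
open Filter Set

namespace Pool.Agent.Helper74.AS

universe u

namespace SepDent_aux

variable {X : Type u} [NormedAddCommGroup X] [NormedSpace ℝ X]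

/-- iterated closure of `{0}` under addition, rational multiples and `g` -/
def step (g : X → ℚ → X) : ℕ → Set X
  | 0 => {0}
  | n + 1 => step g n ∪ (image2 (fun x y => x + y) (step g n) (step g n) ∪
      (image2 (fun (c : ℚ) x => (c : ℝ) • x) univ (step g n) ∪
        image2 (fun x (c : ℚ) => g x c) (step g n) univ))

theorem step_countable (g : X → ℚ → X) (n : ℕ) : (step g n).Countable := by
  induction n with
  | zero => exact countable_singleton 0
  | succ n ih =>
    exact ih.union ((ih.image2 ih _).union (((countable_univ (α := ℚ)).image2 ih _).union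
      (ih.image2 (countable_univ (α := ℚ)) _)))

theorem step_mono (g : X → ℚ → X) : Monotone (step g) :=
  monotone_nat_of_le_succ fun _ => subset_union_left

theorem exists_countable (g : X → ℚ → X) : ∃ A : Set X, A.Countable ∧ (0 : X) ∈ A ∧
    (∀ x ∈ A, ∀ y ∈ A, x + y ∈ A) ∧ (∀ (c : ℚ), ∀ x ∈ A, (c : ℝ) • x ∈ A) ∧
    ∀ x ∈ A, ∀ c : ℚ, g x c ∈ A := by
  refine ⟨⋃ n, step g n, countable_iUnion (step_countable g), mem_iUnion.2 ⟨0, rfl⟩, ?_, ?_, ?_⟩
  · intro x hx y hy
    obtain ⟨m, hm⟩ := mem_iUnion.1 hx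
    obtain ⟨n, hn⟩ := mem_iUnion.1 hy
    refine mem_iUnion.2 ⟨max m n + 1, Or.inr (Or.inl ?_)⟩
    exact mem_image2_of_mem (step_mono g (le_max_left m n) hm) (step_mono g (le_max_right m n) hn)
  · intro c x hx
    obtain ⟨m, hm⟩ := mem_iUnion.1 hx
    exact mem_iUnion.2 ⟨m + 1, Or.inr (Or.inr (Or.inl (mem_image2_of_mem (mem_univ c) hm)))⟩
  · intro x hx c
    obtain ⟨m, hm⟩ := mem_iUnion.1 hx
    exact mem_iUnion.2 ⟨m + 1, Or.inr (Or.inr (Or.inr (mem_image2_of_mem hm (mem_univ c))))⟩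

/-- the closure of a set closed under addition and rational multiples -/
def clo (A : Set X) (h0 : (0 : X) ∈ A) (hadd : ∀ x ∈ A, ∀ y ∈ A, x + y ∈ A)
    (hsmul : ∀ (c : ℚ), ∀ x ∈ A, (c : ℝ) • x ∈ A) : Submodule ℝ X where
  carrier := closure A
  zero_mem' := subset_closure h0
  add_mem' := fun {x y} hx hy =>
    map_mem_closure₂ (f := fun x y : X => x + y) continuous_add hx hy hadd
  smul_mem' := fun c x hx => by
    refine map_mem_closure₂ (f := fun (c : ℝ) (x : X) => c • x) (s := range ((↑) : ℚ → ℝ))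
      continuous_smul ?_ hx ?_
    · rw [Rat.isDenseEmbedding_coe_real.dense.closure_range]
      exact mem_univ c
    · rintro _ ⟨c, rfl⟩ x hx
      exact hsmul c x hx

/-- roughness of a seminorm without small slices -/
theorem exists_dir {q : X → ℝ} (hq : Sem q) {ε : ℝ}
    (hs : ∀ (w : X) (a : ℝ), (∃ φ ∈ K q, a < φ w) → ¬ Small q ε w a) (w : X) (a : ℝ)
    (ha : a < q w) : ∃ u : X, ‖u‖ ≤ 1 ∧ ∀ s : ℝ, 0 ≤ s →
      2 * a + ε * s ≤ q (w + s • u) + q (w - s • u) := by
  obtain ⟨φ₀, hφ₀, h₀⟩ := hq.attain w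
  have h1 := hs w a ⟨φ₀, hφ₀, by rw [h₀]; exact ha⟩
  unfold Small at h1
  push Not at h1
  obtain ⟨φ, hφ, ψ, hψ, hφa, hψa, hlt⟩ := h1
  obtain ⟨v, hv, hv'⟩ : ∃ v : X, ‖v‖ ≤ 1 ∧ ε < φ v - ψ v := by
    obtain ⟨v, hv, hv'⟩ := ContinuousLinearMap.exists_lt_apply_of_lt_opNorm (φ - ψ) hlt
    rw [_root_.sub_apply, Real.norm_eq_abs] at hv'
    rcases le_total 0 (φ v - ψ v) with h | h
    · exact ⟨v, hv.le, by rwa [abs_of_nonneg h] at hv'⟩
    · refine ⟨-v, by rw [norm_neg]; exact hv.le, ?_⟩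
      rw [abs_of_nonpos h] at hv'
      rw [map_neg, map_neg]
      linarith
  refine ⟨v, hv, fun s hs => ?_⟩
  have h2 := hφ (w + s • v)
  have h3 := hψ (w - s • v)
  rw [map_add, map_smul, smul_eq_mul] at h2
  rw [map_sub, map_smul, smul_eq_mul] at h3
  have h4 : ε * s ≤ (φ v - ψ v) * s := mul_le_mul_of_nonneg_right hv'.le hs
  nlinarith

end SepDent_aux

open SepDent_aux in
theorem dent_of_sep {X : Type u} [NormedAddCommGroup X] [NormedSpace ℝ X] [CompleteSpace X]
    (h : ∀ Y : Submodule ℝ X, TopologicalSpace.IsSeparable (Y : Set X) →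
      TopologicalSpace.SeparableSpace (Y →L[ℝ] ℝ)) : Dent X := by
  classical
  by_contra hD
  unfold Dent at hD
  push Not at hD
  obtain ⟨q, hq, ε, hε, hs⟩ := hD
  have hs' : ∀ (w : X) (a : ℝ), (∃ φ ∈ K q, a < φ w) → ¬ Small q ε w a := hs
  have hdir := exists_dir hq hs'
  choose! g hg1 hg2 using hdir
  obtain ⟨A, hAc, hA0, hAadd, hAsmul, hAg⟩ := exists_countable (fun w (a : ℚ) => g w (a : ℝ))
  set Y : Submodule ℝ X := clo A hA0 hAadd hAsmul with hY
  have hYc : (Y : Set X) = closure A := rfl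
  have hsep : TopologicalSpace.IsSeparable (Y : Set X) := hAc.isSeparable.closure
  have := h Y hsep
  have hcl : IsClosed (Y : Set X) := isClosed_closure
  have : CompleteSpace Y := hcl.completeSpace_coe
  set f := TopologicalSpace.denseSeq (Y →L[ℝ] ℝ) with hf
  have hfd : DenseRange f := TopologicalSpace.denseRange_denseSeq _
  choose φ hφ1 hφ2 using fun y : Y => hq.attain (y : X)
  set S : ℕ → Set Y := fun n => {y | ‖(φ y).comp Y.subtypeL - f n‖ ≤ ε / 4} with hS
  have hcov : ⋃ n, closure (S n) = univ := by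
    rw [eq_univ_iff_forall]
    intro y
    obtain ⟨n, hn⟩ := hfd.exists_dist_lt ((φ y).comp Y.subtypeL) (show 0 < ε / 4 by linarith)
    refine mem_iUnion.2 ⟨n, subset_closure ?_⟩
    have e := dist_eq_norm ((φ y).comp Y.subtypeL) (f n)
    rw [e] at hn
    exact hn.le
  obtain ⟨n, hn⟩ := nonempty_interior_of_iUnion_of_closed (fun n => isClosed_closure) hcov
  have hqc : Continuous q := by
    have : LipschitzWith 1 q := LipschitzWith.of_dist_le_mul fun x y => by
      rw [Real.dist_eq, dist_eq_norm, NNReal.coe_one, one_mul]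
      exact hq.lip x y
    exact this.continuous
  have hqY : Continuous fun y : Y => q (y : X) := hqc.comp continuous_subtype_val
  have hkey : ∀ y ∈ closure (S n), ∀ y' ∈ closure (S n),
      q (y' : X) - q (y : X) ≤ f n (y' - y) + ε / 4 * ‖y' - y‖ := by
    have hc : IsClosed {z : Y × Y | q (z.2 : X) - q (z.1 : X) ≤
        f n (z.2 - z.1) + ε / 4 * ‖z.2 - z.1‖} := by
      refine isClosed_le ?_ ?_
      · exact (hqY.comp continuous_snd).sub (hqY.comp continuous_fst)
      · fun_prop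
    have hsub : S n ×ˢ S n ⊆ {z : Y × Y | q (z.2 : X) - q (z.1 : X) ≤
        f n (z.2 - z.1) + ε / 4 * ‖z.2 - z.1‖} := by
      rintro ⟨y, y'⟩ ⟨-, hy'⟩
      have h1 := hφ1 y' (y : X)
      have h2 := hφ2 y'
      have h3 : ((φ y').comp Y.subtypeL - f n) (y' - y) ≤ ε / 4 * ‖y' - y‖ := by
        refine (le_abs_self _).trans ?_
        rw [← Real.norm_eq_abs]
        exact ContinuousLinearMap.le_of_opNorm_le _ hy' _
      have h4 : ((φ y').comp Y.subtypeL - f n) (y' - y) =
          φ y' (y' : X) - φ y' (y : X) - f n (y' - y) := by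
        rw [_root_.sub_apply, ContinuousLinearMap.comp_apply,
          Submodule.subtypeL_apply, Submodule.coe_sub, map_sub]
      rw [h4] at h3
      change q (y' : X) - q (y : X) ≤ f n (y' - y) + ε / 4 * ‖y' - y‖
      linarith
    intro y hy y' hy'
    have h5 : (y, y') ∈ closure (S n ×ˢ S n) := by
      rw [closure_prod_eq]
      exact ⟨hy, hy'⟩
    exact closure_minimal hsub hc h5
  obtain ⟨y₀, hy₀⟩ := hn
  obtain ⟨r₀, hr₀, hball₀⟩ := Metric.isOpen_iff.1 isOpen_interior y₀ hy₀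
  have hy₀A : (y₀ : X) ∈ closure A := y₀.2
  obtain ⟨w₀, hw₀A, hw₀⟩ := Metric.mem_closure_iff.1 hy₀A r₀ hr₀
  set w : Y := ⟨w₀, subset_closure hw₀A⟩ with hw
  have hwV : w ∈ interior (closure (S n)) := by
    refine hball₀ ?_
    rw [Metric.mem_ball, dist_comm, Subtype.dist_eq]
    exact hw₀
  obtain ⟨r, hr, hball⟩ := Metric.isOpen_iff.1 isOpen_interior w hwV
  obtain ⟨a, ha1, ha2⟩ := exists_rat_btwn (show q w₀ - ε * (r / 2) / 8 < q w₀ by
    have : 0 < ε * (r / 2) := by positivity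
    linarith)
  have hu1 := hg1 w₀ a ha2
  have hu2 := hg2 w₀ a ha2 (r / 2) (by linarith)
  have huA : g w₀ a ∈ A := hAg w₀ hw₀A a
  set v : Y := ⟨g w₀ a, subset_closure huA⟩ with hv
  have hvn : ‖v‖ ≤ 1 := hu1
  have hsv : ‖(r / 2) • v‖ ≤ r / 2 := by
    rw [norm_smul, Real.norm_eq_abs, abs_of_pos (by linarith : 0 < r / 2)]
    nlinarith
  have hwc : w ∈ closure (S n) := interior_subset hwV
  have hp : w + (r / 2) • v ∈ closure (S n) := by
    refine interior_subset (hball ?_)
    rw [Metric.mem_ball, dist_eq_norm, add_sub_cancel_left]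
    linarith
  have hm : w - (r / 2) • v ∈ closure (S n) := by
    refine interior_subset (hball ?_)
    rw [Metric.mem_ball, dist_eq_norm, sub_sub_cancel_left, norm_neg]
    linarith
  have k1 := hkey w hwc _ hp
  have k2 := hkey w hwc _ hm
  rw [add_sub_cancel_left] at k1
  rw [sub_sub_cancel_left, norm_neg, map_neg] at k2
  have e1 : ((w + (r / 2) • v : Y) : X) = w₀ + (r / 2) • g w₀ a := rfl
  have e2 : ((w - (r / 2) • v : Y) : X) = w₀ - (r / 2) • g w₀ a := rfl
  have e3 : (w : X) = w₀ := rfl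
  rw [e1, e3] at k1
  rw [e2, e3] at k2
  have h6 : ε / 4 * ‖(r / 2) • v‖ ≤ ε / 4 * (r / 2) :=
    mul_le_mul_of_nonneg_left hsv (by linarith)
  nlinarith

end Pool.Agent.Helper74.AS
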