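import Pool.Agent.Helper74.AS.Iter
import Pool.Agent.Helper74.AS.SepDent
import Pool.Agent.Helper74.AS.BumpSep
import Pool.Agent.Helper74.Apx.DistCov
import Pool.Agent.Helper74.Apx.DistApprox
import Pool.Agent.Helper74.Apx.Glue

/-!
AS-20. The final theorem.

`approx_of_dent`: `Apx.approx_of_cov` and `Apx.cov_of_dist` (`n = 1`); the distance functions are `Sem`
(`Apx.infDist_add`, `infDist_smul`, `infDist_le_norm`) so `exists_C1` applies; `hball` from
`exists_C1` for the norm: `g` with `‖x‖ ≤ g x ≤ ‖x‖ + ε/8`, `β y = smoothTransition (ε/2 - g (y - v))` or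
similar (`ρ = ε/8`).
`bump_of_dent`: `g` for the norm with `α = 1`; `b x = smoothTransition (3 - g x)`: Lipschitz since
`smoothTransition` is `C¹` and constant outside `[0, 1]` (or compose on a compact interval).
-/

set_option autoImplicit false

open scoped Topology
open Filter Set

namespace Pool.Agent.Helper74.AS

universe u

theorem approx_of_dent {X : Type u} [NormedAddCommGroup X] [NormedSpace ℝ X] (hX : Dent X)
    {Y : Type*} [NormedAddCommGroup Y] [NormedSpace ℝ Y] (f : X → Y) (hf : Continuous f) (ε : ℝ)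
    (hε : 0 < ε) : ∃ g : X → Y, ContDiff ℝ 1 g ∧ ∀ x, ‖f x - g x‖ < ε := by
  have hn : (1 : WithTop ℕ∞) ≤ ((⊤ : ℕ∞) : WithTop ℕ∞) := by
    exact_mod_cast le_top
  refine Apx.approx_of_cov hn (Apx.cov_of_dist hn ?_ ?_) f hf ε hε
  · intro A hA R η hη
    have hp : Sem (fun x => Metric.infDist x A) :=
      ⟨Apx.DistApprox.infDist_add hA, Apx.DistApprox.infDist_smul hA,
        Apx.DistApprox.infDist_le_norm hA⟩
    obtain ⟨g, hg1, hg2, -⟩ := exists_C1 hX hp hη
    refine ⟨g, hg1, fun x _ => ?_⟩
    have := hg2 x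
    rw [abs_le]
    constructor <;> linarith [this.1, this.2]
  · intro ε' hε'
    have h8 : 0 < ε' / 8 := by linarith
    obtain ⟨g, hg1, hg2, -⟩ := exists_C1 hX (sem_norm (X := X)) h8
    refine ⟨ε' / 8, h8, fun v => ⟨fun y => Real.smoothTransition (ε' / 2 - g (y - v)), ?_, ?_,
      ?_, ?_⟩⟩
    · exact Real.smoothTransition.contDiff.comp
        (contDiff_const.sub (hg1.comp (contDiff_id.sub contDiff_const)))
    · intro y
      exact Real.smoothTransition.nonneg _
    · intro y hy
      have := (hg2 (y - v)).2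
      exact (Real.smoothTransition.pos_of_pos (by linarith)).ne'
    · intro y y' hy hy'
      have k : ∀ z : X, Real.smoothTransition (ε' / 2 - g (z - v)) ≠ 0 → ‖z - v‖ ≤ ε' / 2 := by
        intro z hz
        by_contra hcon
        apply hz
        apply Real.smoothTransition.zero_of_nonpos
        have := (hg2 (z - v)).1
        linarith
      have e : y - y' = (y - v) - (y' - v) := by abel
      rw [e]
      refine (norm_sub_le _ _).trans ?_
      linarith [k y hy, k y' hy']

theorem bump_of_dent {X : Type u} [NormedAddCommGroup X] [NormedSpace ℝ X] (hX : Dent X) :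
    ∃ b : X → ℝ, ContDiff ℝ 1 b ∧ (∃ L : ℝ, ∀ x y, |b x - b y| ≤ L * ‖x - y‖) ∧ b 0 ≠ 0 ∧
      Bornology.IsBounded (Function.support b) := by
  obtain ⟨g, hg1, hg2, hg3⟩ := exists_C1 hX (sem_norm (X := X)) one_pos
  set h : ℝ → ℝ := fun s => Real.smoothTransition s * Real.smoothTransition (5 - s) with hh
  have hC : ContDiff ℝ 1 h :=
    Real.smoothTransition.contDiff.mul
      (Real.smoothTransition.contDiff.comp (contDiff_const.sub contDiff_id))
  have hcs : HasCompactSupport h := by
    refine HasCompactSupport.intro (K := Icc 0 5) isCompact_Icc ?_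
    intro s hs
    rw [mem_Icc, not_and_or, not_le, not_le] at hs
    rcases hs with hs | hs
    · simp only [hh]
      rw [Real.smoothTransition.zero_of_nonpos hs.le, zero_mul]
    · simp only [hh]
      rw [Real.smoothTransition.zero_of_nonpos (show 5 - s ≤ 0 by linarith), mul_zero]
  obtain ⟨C, hL⟩ := hC.lipschitzWith_of_hasCompactSupport hcs one_ne_zero
  refine ⟨fun x => h (3 - g x), hC.comp (contDiff_const.sub hg1), ⟨C * 2, ?_⟩, ?_, ?_⟩
  · intro x y
    have h1 := hL.dist_le_mul (3 - g x) (3 - g y)
    rw [Real.dist_eq, Real.dist_eq] at h1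
    refine h1.trans ?_
    have e : 3 - g x - (3 - g y) = -(g x - g y) := by ring
    rw [e, abs_neg, mul_assoc]
    exact mul_le_mul_of_nonneg_left (hg3 x y) C.2
  · have h0 := (hg2 0).2
    have h1 := (hg2 0).1
    rw [norm_zero] at h0 h1
    simp only [hh]
    exact mul_ne_zero (Real.smoothTransition.pos_of_pos (by linarith)).ne'
      (Real.smoothTransition.pos_of_pos (by linarith)).ne'
  · refine (Metric.isBounded_closedBall (x := (0 : X)) (r := 3)).subset ?_
    intro x hx
    rw [Function.mem_support] at hx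
    rw [mem_closedBall_zero_iff]
    by_contra hcon
    apply hx
    have := (hg2 x).1
    simp only [hh]
    rw [Real.smoothTransition.zero_of_nonpos (show 3 - g x ≤ 0 by linarith), zero_mul]

end Pool.Agent.Helper74.AS
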