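import Pool.Agent.Helper74.AS.Defs

/-!
AS-11. Calculus of flatness.

`Flat.contDiffOn`: at each `e ∈ U` the functionals `φ_m` (`m → 0`) for `Flat 0` are Cauchy
(`‖φ_m - φ_m'‖ ≤ m + m'`), so there is `φ` with `|h e - h e' - φ (e - e')| ≤ m ‖e - e'‖` near
`(e₀, e₀)` for every `m > 0`, i.e. `HasStrictFDerivAt`. A function with a strict derivative at every
point of an open set is `C¹` there: near `e₀`, `‖h'(e) - φ‖ ≤ m` (`HasFDerivAt.le_of_lip'` applied
to `h - φ`).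
-/

set_option autoImplicit false

open scoped Topology
open Filter Set

namespace Pool.Agent.Helper74.AS

variable {E : Type*} [NormedAddCommGroup E] [NormedSpace ℝ E] {l m : ℝ} {f g : E → ℝ} {e₀ : E}

theorem Flat.mono (h : Flat l f e₀) (hlm : l ≤ m) : Flat m f e₀ :=
  fun k hk => h k (lt_of_le_of_lt hlm hk)

theorem Flat.of_forall (h : ∀ k > l, Flat k f e₀) : Flat l f e₀ := by
  intro m hm
  exact h ((l + m) / 2) (by linarith) m (by linarith)

theorem Flat.of_lip (hl : 0 ≤ l)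
    (h : ∀ᶠ p in 𝓝 (e₀, e₀), |f p.1 - f p.2| ≤ l * ‖p.1 - p.2‖) : Flat l f e₀ := by
  intro m hm
  refine ⟨0, ?_⟩
  filter_upwards [h] with p hp
  rw [zero_apply, sub_zero]
  refine hp.trans ?_
  gcongr

theorem Flat.add (hf : Flat l f e₀) (hg : Flat m g e₀) : Flat (l + m) (fun e => f e + g e) e₀ := by
  intro k hk
  obtain ⟨φ, hφ⟩ := hf (l + (k - (l + m)) / 2) (by linarith)
  obtain ⟨ψ, hψ⟩ := hg (m + (k - (l + m)) / 2) (by linarith)
  refine ⟨φ + ψ, ?_⟩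
  filter_upwards [hφ, hψ] with p h1 h2
  have h3 : f p.1 + g p.1 - (f p.2 + g p.2) - (φ + ψ) (p.1 - p.2) =
      (f p.1 - f p.2 - φ (p.1 - p.2)) + (g p.1 - g p.2 - ψ (p.1 - p.2)) := by
    rw [add_apply]
    ring
  rw [h3]
  refine (abs_add_le _ _).trans ((add_le_add h1 h2).trans (le_of_eq ?_))
  ring

theorem Flat.const_mul (hf : Flat l f e₀) (hl : 0 ≤ l) (c : ℝ) :
    Flat (|c| * l) (fun e => c * f e) e₀ := by
  intro k hk
  by_cases hc : c = 0
  · refine ⟨0, Filter.Eventually.of_forall fun p => ?_⟩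
    simp only [hc, zero_apply, zero_mul, sub_zero, abs_zero]
    have : 0 ≤ k := le_trans (by positivity) hk.le
    positivity
  · have hc0 : 0 < |c| := abs_pos.2 hc
    obtain ⟨φ, hφ⟩ := hf (k / |c|) (by
      rw [gt_iff_lt, lt_div_iff₀ hc0]
      linarith)
    refine ⟨c • φ, ?_⟩
    filter_upwards [hφ] with p h1
    have h3 : c * f p.1 - c * f p.2 - (c • φ) (p.1 - p.2) =
        c * (f p.1 - f p.2 - φ (p.1 - p.2)) := by
      rw [smul_apply, smul_eq_mul]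
      ring
    rw [h3, abs_mul]
    calc |c| * |f p.1 - f p.2 - φ (p.1 - p.2)| ≤ |c| * (k / |c| * ‖p.1 - p.2‖) := by
          gcongr
      _ = k * ‖p.1 - p.2‖ := by
          field_simp

theorem Flat.sum {ι : Type*} (S : Finset ι) {L : ι → ℝ} {v : ι → E → ℝ}
    (h : ∀ i ∈ S, Flat (L i) (v i) e₀) : Flat (∑ i ∈ S, L i) (fun e => ∑ i ∈ S, v i e) e₀ := by
  classical
  induction S using Finset.induction_on with
  | empty =>
    intro k hk
    refine ⟨0, Filter.Eventually.of_forall fun p => ?_⟩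
    simp only [Finset.sum_empty] at hk ⊢
    rw [zero_apply, sub_zero, sub_zero, abs_zero]
    have : 0 ≤ k := le_of_lt hk
    positivity
  | insert a S ha ih =>
    have h1 := Flat.add (h a (Finset.mem_insert_self a S))
      (ih fun i hi => h i (Finset.mem_insert_of_mem hi))
    simp only [Finset.sum_insert ha]
    exact h1

theorem Flat.clm (φ : E →L[ℝ] ℝ) : Flat 0 (fun e => φ e) e₀ := by
  intro k hk
  refine ⟨φ, Filter.Eventually.of_forall fun p => ?_⟩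
  rw [map_sub, sub_self, abs_zero]
  have : 0 ≤ k := le_of_lt hk
  positivity

theorem Flat.congr (hf : Flat l f e₀) (h : f =ᶠ[𝓝 e₀] g) : Flat l g e₀ := by
  intro k hk
  obtain ⟨φ, hφ⟩ := hf k hk
  refine ⟨φ, ?_⟩
  have h1 : ∀ᶠ p in 𝓝 (e₀, e₀), f p.1 = g p.1 := (continuous_fst.tendsto (e₀, e₀)).eventually h
  have h2 : ∀ᶠ p in 𝓝 (e₀, e₀), f p.2 = g p.2 := (continuous_snd.tendsto (e₀, e₀)).eventually h
  filter_upwards [hφ, h1, h2] with p h3 h4 h5
  rw [← h4, ← h5]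
  exact h3

/-- `f - g` has an arbitrarily small local Lipschitz constant -/
theorem Flat.of_close (hg : Flat l g e₀)
    (h : ∀ m > 0, ∀ᶠ p in 𝓝 (e₀, e₀), |(f p.1 - g p.1) - (f p.2 - g p.2)| ≤ m * ‖p.1 - p.2‖) :
    Flat l f e₀ := by
  intro k hk
  obtain ⟨φ, hφ⟩ := hg (l + (k - l) / 2) (by linarith)
  refine ⟨φ, ?_⟩
  filter_upwards [hφ, h ((k - l) / 2) (by linarith)] with p h1 h2
  have h3 : f p.1 - f p.2 - φ (p.1 - p.2) =
      (g p.1 - g p.2 - φ (p.1 - p.2)) + ((f p.1 - g p.1) - (f p.2 - g p.2)) := by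
    ring
  rw [h3]
  refine (abs_add_le _ _).trans ((add_le_add h1 h2).trans (le_of_eq ?_))
  ring

namespace Flat1_aux

lemma norm_sub_le {a b : ℝ} (ha : 0 ≤ a) (hb : 0 ≤ b) {φ ψ : E →L[ℝ] ℝ}
    (h1 : ∀ᶠ p in 𝓝 (e₀, e₀), |f p.1 - f p.2 - φ (p.1 - p.2)| ≤ a * ‖p.1 - p.2‖)
    (h2 : ∀ᶠ p in 𝓝 (e₀, e₀), |f p.1 - f p.2 - ψ (p.1 - p.2)| ≤ b * ‖p.1 - p.2‖) :
    ‖φ - ψ‖ ≤ a + b := by
  apply ContinuousLinearMap.opNorm_le_of_nhds_zero (by positivity)
  have ht : Tendsto (fun x : E => (e₀ + x, e₀)) (𝓝 0) (𝓝 (e₀, e₀)) := by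
    have hc : Continuous fun x : E => (e₀ + x, e₀) := by fun_prop
    have := hc.tendsto 0
    rwa [add_zero] at this
  filter_upwards [ht.eventually h1, ht.eventually h2] with x h3 h4
  rw [add_sub_cancel_left] at h3 h4
  have h5 : (φ - ψ) x = (f (e₀ + x) - f e₀ - ψ x) - (f (e₀ + x) - f e₀ - φ x) := by
    rw [sub_apply]
    ring
  rw [h5, Real.norm_eq_abs]
  refine (abs_sub _ _).trans ?_
  linarith

lemma exists_strict (h : Flat 0 f e₀) : ∃ φ : E →L[ℝ] ℝ, ∀ m > 0, ∀ᶠ p in 𝓝 (e₀, e₀),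
    |f p.1 - f p.2 - φ (p.1 - p.2)| ≤ m * ‖p.1 - p.2‖ := by
  choose φ hφ using fun k : ℕ => h (1 / ((k : ℝ) + 1)) (by positivity)
  have hle : ∀ n m : ℕ, n ≤ m → 1 / ((m : ℝ) + 1) ≤ 1 / ((n : ℝ) + 1) := by
    intro n m hnm
    apply one_div_le_one_div_of_le (by positivity)
    have : (n : ℝ) ≤ m := by exact_mod_cast hnm
    linarith
  have hc : CauchySeq φ := by
    apply cauchySeq_of_le_tendsto_0 (fun N : ℕ => 1 / ((N : ℝ) + 1) + 1 / ((N : ℝ) + 1))
    · intro n m N hn hm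
      rw [dist_eq_norm]
      refine (norm_sub_le (by positivity) (by positivity) (hφ n) (hφ m)).trans ?_
      exact add_le_add (hle N n hn) (hle N m hm)
    · have h1 := tendsto_one_div_add_atTop_nhds_zero_nat (𝕜 := ℝ)
      simpa using h1.add h1
  obtain ⟨ψ, hψ⟩ := cauchySeq_tendsto_of_complete hc
  refine ⟨ψ, ?_⟩
  intro m hm
  have h1 : ∀ᶠ k : ℕ in atTop, 1 / ((k : ℝ) + 1) < m / 2 :=
    (tendsto_order.1 (tendsto_one_div_add_atTop_nhds_zero_nat (𝕜 := ℝ))).2 _ (by positivity)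
  have h2 : ∀ᶠ k : ℕ in atTop, dist (φ k) ψ < m / 2 :=
    (Metric.tendsto_nhds.1 hψ) (m / 2) (by positivity)
  obtain ⟨k, hk1, hk2⟩ := (h1.and h2).exists
  filter_upwards [hφ k] with p hp
  have h3 : f p.1 - f p.2 - ψ (p.1 - p.2) =
      (f p.1 - f p.2 - φ k (p.1 - p.2)) + (φ k - ψ) (p.1 - p.2) := by
    rw [sub_apply]
    ring
  rw [h3]
  have h4 : |(φ k - ψ) (p.1 - p.2)| ≤ m / 2 * ‖p.1 - p.2‖ := by
    rw [← Real.norm_eq_abs]
    refine (ContinuousLinearMap.le_opNorm _ _).trans ?_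
    rw [dist_eq_norm] at hk2
    gcongr
  have h5 : |f p.1 - f p.2 - φ k (p.1 - p.2)| ≤ m / 2 * ‖p.1 - p.2‖ := by
    refine hp.trans ?_
    gcongr
  refine (abs_add_le _ _).trans ?_
  linarith

lemma strict {φ : E →L[ℝ] ℝ} (h : ∀ m > 0, ∀ᶠ p in 𝓝 (e₀, e₀),
    |f p.1 - f p.2 - φ (p.1 - p.2)| ≤ m * ‖p.1 - p.2‖) : HasStrictFDerivAt f φ e₀ := by
  rw [hasStrictFDerivAt_iff_isLittleO, Asymptotics.isLittleO_iff]
  intro c hc
  filter_upwards [h c hc] with p hp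
  rw [Real.norm_eq_abs]
  exact hp

end Flat1_aux

theorem Flat.contDiffOn {U : Set E} (hU : IsOpen U) (h : ∀ e ∈ U, Flat 0 f e) :
    ContDiffOn ℝ 1 f U := by
  have hs : ∀ e ∈ U, ∃ φ : E →L[ℝ] ℝ, ∀ m > 0, ∀ᶠ p in 𝓝 (e, e),
      |f p.1 - f p.2 - φ (p.1 - p.2)| ≤ m * ‖p.1 - p.2‖ :=
    fun e he => Flat1_aux.exists_strict (h e he)
  have hd : ∀ e ∈ U, DifferentiableAt ℝ f e := by
    intro e he
    obtain ⟨φ, hφ⟩ := hs e he
    exact (Flat1_aux.strict hφ).hasFDerivAt.differentiableAt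
  have h0 : (1 : WithTop ℕ∞) = 0 + 1 := by norm_num
  rw [h0, contDiffOn_succ_iff_fderiv_of_isOpen hU]
  refine ⟨fun e he => (hd e he).differentiableWithinAt, fun h1 => absurd h1 (by simp), ?_⟩
  rw [contDiffOn_zero]
  intro e he
  apply ContinuousAt.continuousWithinAt
  obtain ⟨φ, hφ⟩ := hs e he
  have he' : fderiv ℝ f e = φ := (Flat1_aux.strict hφ).hasFDerivAt.fderiv
  rw [ContinuousAt, Metric.tendsto_nhds]
  intro r hr
  have h1 := hφ (r / 2) (by positivity)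
  have h4 : ∀ᶠ x in 𝓝 e, ∀ᶠ a in 𝓝 x,
      |f a - f x - φ (a - x)| ≤ r / 2 * ‖a - x‖ := by
    have h5 := h1.eventually_nhds
    have h6 : Tendsto (fun x : E => (x, x)) (𝓝 e) (𝓝 (e, e)) := by
      have hc : Continuous fun x : E => (x, x) := by fun_prop
      exact hc.tendsto e
    filter_upwards [h6.eventually h5] with x hx
    have h7 : Tendsto (fun a : E => (a, x)) (𝓝 x) (𝓝 (x, x)) := by
      have hc : Continuous fun a : E => (a, x) := by fun_prop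
      exact hc.tendsto x
    exact h7.eventually hx
  filter_upwards [h4, hU.eventually_mem he] with x hx hxU
  rw [he', dist_eq_norm]
  have h5 : HasFDerivAt (fun a => f a - φ a) (fderiv ℝ f x - φ) x :=
    (hd x hxU).hasFDerivAt.sub φ.hasFDerivAt
  have h6 : ‖fderiv ℝ f x - φ‖ ≤ r / 2 := by
    apply h5.le_of_lip' (by positivity)
    filter_upwards [hx] with a ha
    rw [Real.norm_eq_abs]
    have h7 : f a - φ a - (f x - φ x) = f a - f x - φ (a - x) := by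
      rw [map_sub]
      ring
    rw [h7]
    exact ha
  linarith

end Pool.Agent.Helper74.AS
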