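import Pool.Agent.Helper74.AS.Flat1

/-!
AS-12. Composition with a changing scale.

`flat_comp`: for `m' > l + 5m` choose `l' > l`, `l' ≤ 3`, `m'' > m` with `l' + 5 m'' ≤ m'`. Let `φ` be
the functional of `Fq` for `l'` at `(x₀, σ e₀)`, `γ = φ (0, 1)`. From the Lipschitz bound and
flatness at the pairs `((x₀, σ₀ + s), (x₀, σ₀))`: `|γ| ≤ 2 + l' ≤ 5`. Let `ψ` be the functional of
`σ` for `m''`. Then with `e = (x, a)`:
`|Fq (x, σ e) - Fq (x', σ e') - φ (x - x', σ e - σ e')| ≤ l' ‖e - e'‖` (sup norm and `hσ`), and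
`φ (x - x', σ e - σ e') = φ (x - x', 0) + γ (σ e - σ e')`, where
`|σ e - σ e' - ψ (e - e')| ≤ m'' ‖e - e'‖`.
(`e ↦ (e.1, σ e)` is continuous at `e₀` by `hσ`.)

`flat_tau`: near `e₀`: `t e = Fp (x, κ τ e) + τ e`. With `φ, γ` as above for `Fp` and `l'`,
`ψ` for `t` and `l'`: `(τ - τ')(1 + γ κ) = ψ (e - e') - φ (x - x', 0) + R`, `|R| ≤ 2 l' ‖e - e'‖`,
and `|γ| κ ≤ 5/1000`; so `τ` is flat with constant `2 l' / (1 - 5/1000) ≤ 3 l'`.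
-/

set_option autoImplicit false

open scoped Topology
open Filter Set

namespace Pool.Agent.Helper74.AS

variable {X : Type*} [NormedAddCommGroup X] [NormedSpace ℝ X]

namespace Flat2_aux

theorem gam {F : X × ℝ → ℝ} {a₀ : X × ℝ} {φ : X × ℝ →L[ℝ] ℝ} {l : ℝ}
    (h1 : ∀ᶠ p in 𝓝 (a₀, a₀), |F p.1 - F p.2 - φ (p.1 - p.2)| ≤ l * ‖p.1 - p.2‖)
    (h2 : ∀ᶠ p in 𝓝 (a₀, a₀), |F p.1 - F p.2| ≤ 2 * ‖p.1 - p.2‖) :
    |φ (0, 1)| ≤ 2 + l := by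
  have ht : Tendsto (fun s : ℝ => (a₀ + ((0 : X), s), a₀)) (𝓝[>] 0) (𝓝 (a₀, a₀)) := by
    have hc : Continuous (fun s : ℝ => (a₀ + ((0 : X), s), a₀)) := by fun_prop
    have h0 := hc.tendsto 0
    have e : ((a₀ + ((0 : X), (0 : ℝ)), a₀) : (X × ℝ) × (X × ℝ)) = (a₀, a₀) := by
      have : (((0 : X), (0 : ℝ)) : X × ℝ) = 0 := rfl
      rw [this, add_zero]
    rw [e] at h0
    exact h0.mono_left nhdsWithin_le_nhds
  have h3 := ht.eventually (h1.and h2)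
  have h4 : ∀ᶠ s : ℝ in 𝓝[>] 0, 0 < s := eventually_mem_nhdsWithin
  obtain ⟨s, ⟨h5, h6⟩, h7⟩ := (h3.and h4).exists
  simp only [add_sub_cancel_left] at h5 h6
  have hn : ‖(((0 : X), s) : X × ℝ)‖ = s := by
    rw [Prod.norm_mk, norm_zero, Real.norm_eq_abs, abs_of_pos h7, max_eq_right h7.le]
  have hφ : φ ((0 : X), s) = s * φ (0, 1) := by
    have e : (((0 : X), s) : X × ℝ) = s • ((0 : X), (1 : ℝ)) := by
      ext <;> simp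
    rw [e, map_smul, smul_eq_mul]
  rw [hn, hφ] at h5
  rw [hn] at h6
  have h8 : |s * φ (0, 1)| ≤ (2 + l) * s := by
    have e : s * φ (0, 1) = (F (a₀ + ((0 : X), s)) - F a₀) -
        (F (a₀ + ((0 : X), s)) - F a₀ - s * φ (0, 1)) := by ring
    rw [e]
    refine (abs_sub _ _).trans ?_
    linarith
  rw [abs_mul, abs_of_pos h7, mul_comm] at h8
  exact le_of_mul_le_mul_right h8 h7

theorem cont {σ : X × ℝ → ℝ} {e₀ : X × ℝ} {c : ℝ}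
    (hσ : ∀ᶠ p in 𝓝 (e₀, e₀), |σ p.1 - σ p.2| ≤ c * ‖p.1 - p.2‖) : ContinuousAt σ e₀ := by
  have ht : Tendsto (fun e : X × ℝ => (e, e₀)) (𝓝 e₀) (𝓝 (e₀, e₀)) := by
    have hc : Continuous (fun e : X × ℝ => (e, e₀)) := by fun_prop
    exact hc.tendsto e₀
  have h1 := ht.eventually hσ
  rw [ContinuousAt, tendsto_iff_norm_sub_tendsto_zero]
  have h2 : Tendsto (fun e : X × ℝ => c * ‖e - e₀‖) (𝓝 e₀) (𝓝 0) := by
    have hc : Continuous (fun e : X × ℝ => c * ‖e - e₀‖) := by fun_prop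
    have := hc.tendsto e₀
    simpa using this
  refine squeeze_zero' (Eventually.of_forall fun e => norm_nonneg _) ?_ h2
  filter_upwards [h1] with e he
  rw [Real.norm_eq_abs]
  exact he

theorem tend {σ : X × ℝ → ℝ} {e₀ : X × ℝ} (hσ : ContinuousAt σ e₀) :
    Tendsto (fun p : (X × ℝ) × (X × ℝ) => (((p.1.1, σ p.1), (p.2.1, σ p.2)) :
      (X × ℝ) × (X × ℝ))) (𝓝 (e₀, e₀)) (𝓝 ((e₀.1, σ e₀), (e₀.1, σ e₀))) := by
  have hG : ContinuousAt (fun e : X × ℝ => (e.1, σ e)) e₀ := continuousAt_fst.prodMk hσ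
  have h1 : ContinuousAt (fun p : (X × ℝ) × (X × ℝ) => (p.1.1, σ p.1)) (e₀, e₀) :=
    ContinuousAt.comp (f := Prod.fst) (g := fun e : X × ℝ => (e.1, σ e)) hG continuousAt_fst
  have h2 : ContinuousAt (fun p : (X × ℝ) × (X × ℝ) => (p.2.1, σ p.2)) (e₀, e₀) :=
    ContinuousAt.comp (f := Prod.snd) (g := fun e : X × ℝ => (e.1, σ e)) hG continuousAt_snd
  exact h1.prodMk h2

theorem split (φ : X × ℝ →L[ℝ] ℝ) (x : X) (r : ℝ) : φ (x, r) = φ (x, 0) + φ (0, 1) * r := by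
  have e : ((x, r) : X × ℝ) = (x, (0 : ℝ)) + r • ((0 : X), (1 : ℝ)) := by
    ext <;> simp
  rw [e, map_add, map_smul, smul_eq_mul, mul_comm]

end Flat2_aux

open Flat2_aux in
theorem flat_comp {Fq σ : X × ℝ → ℝ} {l m : ℝ} {e₀ : X × ℝ} (hl : 0 ≤ l) (hl2 : l ≤ 2)
    (hm : 0 ≤ m) (hF : Flat l Fq (e₀.1, σ e₀))
    (hFl : ∀ᶠ p in 𝓝 ((e₀.1, σ e₀), (e₀.1, σ e₀)), |Fq p.1 - Fq p.2| ≤ 2 * ‖p.1 - p.2‖)
    (hσ : ∀ᶠ p in 𝓝 (e₀, e₀), |σ p.1 - σ p.2| ≤ ‖p.1 - p.2‖) (hσf : Flat m σ e₀) :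
    Flat (l + 5 * m) (fun e => Fq (e.1, σ e)) e₀ := by
  intro m' hm'
  set d : ℝ := min ((m' - (l + 5 * m)) / 6) 1 with hd
  have hd0 : 0 < d := lt_min (by linarith) one_pos
  have hd1 : d ≤ 1 := min_le_right _ _
  have hd2 : 6 * d ≤ m' - (l + 5 * m) := by
    have : d ≤ (m' - (l + 5 * m)) / 6 := min_le_left _ _
    linarith
  obtain ⟨φ, hφ⟩ := hF (l + d) (by linarith)
  obtain ⟨ψ, hψ⟩ := hσf (m + d) (by linarith)
  have hγ := gam hφ hFl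
  set γ : ℝ := φ (0, 1) with hγd
  have hγ5 : |γ| ≤ 5 := by linarith
  have hσc : ContinuousAt σ e₀ := cont (c := 1) (by simpa using hσ)
  have hG := (tend hσc).eventually hφ
  refine ⟨(φ.comp (ContinuousLinearMap.inl ℝ X ℝ)).comp (ContinuousLinearMap.fst ℝ X ℝ) + γ • ψ,
    ?_⟩
  filter_upwards [hG, hσ, hψ] with p h1 h2 h3
  have hn : ‖(((p.1.1, σ p.1) : X × ℝ) - (p.2.1, σ p.2))‖ ≤ ‖p.1 - p.2‖ := by
    rw [Prod.mk_sub_mk, Prod.norm_mk]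
    refine max_le ?_ ?_
    · have := norm_fst_le (p.1 - p.2)
      simpa using this
    · rw [Real.norm_eq_abs]
      exact h2
  have hN : 0 ≤ ‖p.1 - p.2‖ := norm_nonneg _
  simp only [Prod.mk_sub_mk] at h1 hn
  rw [split φ (p.1.1 - p.2.1) (σ p.1 - σ p.2), ← hγd] at h1
  have e1 : ((φ.comp (ContinuousLinearMap.inl ℝ X ℝ)).comp (ContinuousLinearMap.fst ℝ X ℝ) +
      γ • ψ) (p.1 - p.2) = φ (p.1.1 - p.2.1, 0) + γ * ψ (p.1 - p.2) := by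
    simp
  rw [e1]
  have e2 : Fq (p.1.1, σ p.1) - Fq (p.2.1, σ p.2) - (φ (p.1.1 - p.2.1, 0) + γ * ψ (p.1 - p.2)) =
      (Fq (p.1.1, σ p.1) - Fq (p.2.1, σ p.2) - (φ (p.1.1 - p.2.1, 0) + γ * (σ p.1 - σ p.2))) +
      γ * (σ p.1 - σ p.2 - ψ (p.1 - p.2)) := by ring
  rw [e2]
  have h4 : |γ * (σ p.1 - σ p.2 - ψ (p.1 - p.2))| ≤ 5 * ((m + d) * ‖p.1 - p.2‖) := by
    rw [abs_mul]
    exact mul_le_mul hγ5 h3 (abs_nonneg _) (by norm_num)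
  have h5 : (l + d) * ‖((p.1.1 - p.2.1, σ p.1 - σ p.2) : X × ℝ)‖ ≤ (l + d) * ‖p.1 - p.2‖ :=
    mul_le_mul_of_nonneg_left hn (by linarith)
  refine (abs_add_le _ _).trans ?_
  have h6 : (l + d) * ‖p.1 - p.2‖ + 5 * ((m + d) * ‖p.1 - p.2‖) ≤ m' * ‖p.1 - p.2‖ := by
    have : (l + d) * ‖p.1 - p.2‖ + 5 * ((m + d) * ‖p.1 - p.2‖) =
        (l + 5 * m + 6 * d) * ‖p.1 - p.2‖ := by ring
    rw [this]
    exact mul_le_mul_of_nonneg_right (by linarith) hN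
  linarith

open Flat2_aux in
theorem flat_tau {Fp τ t : X × ℝ → ℝ} {l κ : ℝ} {e₀ : X × ℝ} (hl : 0 ≤ l) (hl2 : l ≤ 2)
    (hκ : 0 < κ) (hκ1 : κ ≤ 1 / 1000) (ht : ∀ᶠ e in 𝓝 e₀, t e = Fp (e.1, κ * τ e) + τ e)
    (hF : Flat l Fp (e₀.1, κ * τ e₀))
    (hFl : ∀ᶠ p in 𝓝 ((e₀.1, κ * τ e₀), (e₀.1, κ * τ e₀)), |Fp p.1 - Fp p.2| ≤ 2 * ‖p.1 - p.2‖)
    (hτ : ∀ᶠ p in 𝓝 (e₀, e₀), |τ p.1 - τ p.2| ≤ 10 * ‖p.1 - p.2‖) (htf : Flat l t e₀) :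
    Flat (3 * l) τ e₀ := by
  intro m' hm'
  set d : ℝ := min ((m' - 3 * l) / 3) 1 with hd
  have hd0 : 0 < d := lt_min (by linarith) one_pos
  have hd1 : d ≤ 1 := min_le_right _ _
  have hd2 : 3 * (l + d) ≤ m' := by
    have : d ≤ (m' - 3 * l) / 3 := min_le_left _ _
    linarith
  obtain ⟨φ, hφ⟩ := hF (l + d) (by linarith)
  obtain ⟨ψ, hψ⟩ := htf (l + d) (by linarith)
  have hγ := gam hφ hFl
  set γ : ℝ := φ (0, 1) with hγd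
  have hγ5 : |γ| ≤ 5 := by linarith
  have hγκ : |γ * κ| ≤ 5 / 1000 := by
    rw [abs_mul, abs_of_pos hκ]
    calc |γ| * κ ≤ 5 * (1 / 1000) := mul_le_mul hγ5 hκ1 hκ.le (by norm_num)
      _ = 5 / 1000 := by norm_num
  have hb : 995 / 1000 ≤ 1 + γ * κ := by
    have := neg_abs_le (γ * κ)
    linarith
  have hb0 : 0 < 1 + γ * κ := by linarith
  have hτc : ContinuousAt τ e₀ := cont hτ
  have hκτ : ContinuousAt (fun e => κ * τ e) e₀ := continuousAt_const.mul hτc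
  have hG := (tend hκτ).eventually hφ
  have ht2 : ∀ᶠ p in 𝓝 (e₀, e₀), t p.1 = Fp (p.1.1, κ * τ p.1) + τ p.1 ∧
      t p.2 = Fp (p.2.1, κ * τ p.2) + τ p.2 := by
    have a1 : Tendsto (fun p : (X × ℝ) × (X × ℝ) => p.1) (𝓝 (e₀, e₀)) (𝓝 e₀) :=
      continuous_fst.tendsto _
    have a2 : Tendsto (fun p : (X × ℝ) × (X × ℝ) => p.2) (𝓝 (e₀, e₀)) (𝓝 e₀) :=
      continuous_snd.tendsto _
    exact (a1.eventually ht).and (a2.eventually ht)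
  refine ⟨(1 + γ * κ)⁻¹ • (ψ - (φ.comp (ContinuousLinearMap.inl ℝ X ℝ)).comp
    (ContinuousLinearMap.fst ℝ X ℝ)), ?_⟩
  filter_upwards [hG, hτ, hψ, ht2] with p h1 h2 h3 h4
  obtain ⟨h41, h42⟩ := h4
  have hn : ‖(((p.1.1, κ * τ p.1) : X × ℝ) - (p.2.1, κ * τ p.2))‖ ≤ ‖p.1 - p.2‖ := by
    rw [Prod.mk_sub_mk, Prod.norm_mk]
    refine max_le ?_ ?_
    · have := norm_fst_le (p.1 - p.2)
      simpa using this
    · rw [Real.norm_eq_abs, ← mul_sub, abs_mul, abs_of_pos hκ]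
      calc κ * |τ p.1 - τ p.2| ≤ 1 / 1000 * (10 * ‖p.1 - p.2‖) :=
            mul_le_mul hκ1 h2 (abs_nonneg _) (by norm_num)
        _ ≤ ‖p.1 - p.2‖ := by linarith [norm_nonneg (p.1 - p.2)]
  have hN : 0 ≤ ‖p.1 - p.2‖ := norm_nonneg _
  simp only [Prod.mk_sub_mk] at h1 hn
  rw [split φ (p.1.1 - p.2.1) (κ * τ p.1 - κ * τ p.2), ← hγd] at h1
  rw [h41, h42] at h3
  have h5 : (l + d) * ‖((p.1.1 - p.2.1, κ * τ p.1 - κ * τ p.2) : X × ℝ)‖ ≤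
      (l + d) * ‖p.1 - p.2‖ := mul_le_mul_of_nonneg_left hn (by linarith)
  have e1 : ((1 + γ * κ)⁻¹ • (ψ - (φ.comp (ContinuousLinearMap.inl ℝ X ℝ)).comp
      (ContinuousLinearMap.fst ℝ X ℝ))) (p.1 - p.2) =
      (1 + γ * κ)⁻¹ * (ψ (p.1 - p.2) - φ (p.1.1 - p.2.1, 0)) := by
    simp
  rw [e1]
  have e2 : τ p.1 - τ p.2 - (1 + γ * κ)⁻¹ * (ψ (p.1 - p.2) - φ (p.1.1 - p.2.1, 0)) =
      (1 + γ * κ)⁻¹ * ((Fp (p.1.1, κ * τ p.1) + τ p.1 - (Fp (p.2.1, κ * τ p.2) + τ p.2) -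
        ψ (p.1 - p.2)) - (Fp (p.1.1, κ * τ p.1) - Fp (p.2.1, κ * τ p.2) -
        (φ (p.1.1 - p.2.1, 0) + γ * (κ * τ p.1 - κ * τ p.2)))) := by
    field_simp
    ring
  rw [e2, abs_mul, abs_of_pos (inv_pos.2 hb0)]
  have h6 : |(Fp (p.1.1, κ * τ p.1) + τ p.1 - (Fp (p.2.1, κ * τ p.2) + τ p.2) -
        ψ (p.1 - p.2)) - (Fp (p.1.1, κ * τ p.1) - Fp (p.2.1, κ * τ p.2) -
        (φ (p.1.1 - p.2.1, 0) + γ * (κ * τ p.1 - κ * τ p.2)))| ≤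
      2 * (l + d) * ‖p.1 - p.2‖ := by
    refine (abs_sub _ _).trans ?_
    linarith
  have h7 : (1 + γ * κ)⁻¹ ≤ 1000 / 995 := by
    rw [inv_le_comm₀ hb0 (by norm_num)]
    norm_num
    linarith
  calc (1 + γ * κ)⁻¹ * _ ≤ 1000 / 995 * (2 * (l + d) * ‖p.1 - p.2‖) :=
        mul_le_mul h7 h6 (abs_nonneg _) (by norm_num)
    _ ≤ 3 * (l + d) * ‖p.1 - p.2‖ := by
        have : 0 ≤ (l + d) * ‖p.1 - p.2‖ := mul_nonneg (by linarith) hN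
        linarith
    _ ≤ m' * ‖p.1 - p.2‖ := mul_le_mul_of_nonneg_right hd2 hN

end Pool.Agent.Helper74.AS
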