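import Pool.Agent.Helper74.AS.Flat1

/-!
AS-13. Flatness of the solution of the equation.
-/

set_option autoImplicit false

open scoped Topology
open Filter Set

namespace Pool.Agent.Helper74.AS

namespace Flat3_aux

lemma abs_posPart_sub (s s₀ : ℝ) : |max s 0 - max s₀ 0| ≤ |s - s₀| :=
  abs_max_sub_max_le_abs s s₀ 0

lemma sq_ineq (s s' s₀ : ℝ) :
    |(max s 0) ^ 2 - (max s' 0) ^ 2 - 2 * (max s₀ 0) * (s - s')| ≤
      2 * (|s - s₀| + |s' - s₀|) * |s - s'| := by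
  have hA := abs_posPart_sub s s₀
  have hB := abs_posPart_sub s' s₀
  have hζ : 0 ≤ max s₀ 0 := le_max_right _ _
  set ζ := max s₀ 0 with hζd
  set A := |s - s₀| with hAd
  set B := |s' - s₀| with hBd
  have hA0 : 0 ≤ A := abs_nonneg _
  have hB0 : 0 ≤ B := abs_nonneg _
  rw [abs_le] at hA hB
  rcases le_total 0 s with h1 | h1 <;> rcases le_total 0 s' with h2 | h2
  · rw [max_eq_left h1] at hA ⊢
    rw [max_eq_left h2] at hB ⊢
    have h3 : s ^ 2 - s' ^ 2 - 2 * ζ * (s - s') = (s + s' - 2 * ζ) * (s - s') := by ring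
    rw [h3, abs_mul]
    apply mul_le_mul_of_nonneg_right _ (abs_nonneg _)
    rw [abs_le]
    constructor <;> linarith
  · rw [max_eq_left h1] at hA ⊢
    rw [max_eq_right h2] at hB ⊢
    have h3 : 0 ≤ s - s' := by linarith
    rw [abs_of_nonneg h3, abs_le]
    constructor
    · nlinarith [mul_nonneg h3 hA0, mul_nonneg h3 hB0, mul_nonneg h3 hζ, sq_nonneg s]
    · nlinarith [mul_nonneg h3 hA0, mul_nonneg h3 hB0, mul_nonneg h3 hζ,
        mul_nonneg h1 (neg_nonneg.2 h2)]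
  · rw [max_eq_right h1] at hA ⊢
    rw [max_eq_left h2] at hB ⊢
    have h3 : 0 ≤ s' - s := by linarith
    rw [abs_sub_comm s s', abs_of_nonneg h3, abs_le]
    constructor
    · nlinarith [mul_nonneg h3 hA0, mul_nonneg h3 hB0, mul_nonneg h3 hζ,
        mul_nonneg h2 (neg_nonneg.2 h1)]
    · nlinarith [mul_nonneg h3 hA0, mul_nonneg h3 hB0, mul_nonneg h3 hζ, sq_nonneg s']
  · rw [max_eq_right h1] at hA ⊢
    rw [max_eq_right h2] at hB ⊢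
    have h3 : (0 : ℝ) ^ 2 - 0 ^ 2 - 2 * ζ * (s - s') = (-(2 * ζ)) * (s - s') := by ring
    rw [h3, abs_mul]
    apply mul_le_mul_of_nonneg_right _ (abs_nonneg _)
    rw [abs_le]
    constructor <;> linarith

variable {E : Type*} [NormedAddCommGroup E] [NormedSpace ℝ E] {e₀ : E}

lemma cont {f : E → ℝ} {C : ℝ}
    (hf : ∀ᶠ p in 𝓝 (e₀, e₀), |f p.1 - f p.2| ≤ C * ‖p.1 - p.2‖) :
    Tendsto f (𝓝 e₀) (𝓝 (f e₀)) := by
  have ht : Tendsto (fun x : E => (x, e₀)) (𝓝 e₀) (𝓝 (e₀, e₀)) := by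
    have hc : Continuous fun x : E => (x, e₀) := by fun_prop
    exact hc.tendsto e₀
  have h1 := ht.eventually hf
  rw [tendsto_iff_dist_tendsto_zero]
  have h2 : Tendsto (fun x : E => C * ‖x - e₀‖) (𝓝 e₀) (𝓝 0) := by
    have hc : Continuous fun x : E => C * ‖x - e₀‖ := by fun_prop
    have := hc.tendsto e₀
    simpa using this
  refine squeeze_zero' (Filter.Eventually.of_forall fun x => dist_nonneg) ?_ h2
  filter_upwards [h1] with x hx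
  rw [Real.dist_eq]
  exact hx

lemma small {f : E → ℝ} {C : ℝ}
    (hf : ∀ᶠ p in 𝓝 (e₀, e₀), |f p.1 - f p.2| ≤ C * ‖p.1 - p.2‖) (m : ℝ) (hm : 0 < m) :
    ∀ᶠ p in 𝓝 (e₀, e₀),
      2 * (|f p.1 - f e₀| + |f p.2 - f e₀|) * |f p.1 - f p.2| ≤ m * ‖p.1 - p.2‖ := by
  have hc := cont hf
  have h1 : Tendsto (fun p : E × E => 2 * (|f p.1 - f e₀| + |f p.2 - f e₀|) * |C|)
      (𝓝 (e₀, e₀)) (𝓝 (2 * (|f e₀ - f e₀| + |f e₀ - f e₀|) * |C|)) := by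
    have ha : Tendsto (fun p : E × E => f p.1) (𝓝 (e₀, e₀)) (𝓝 (f e₀)) :=
      hc.comp (continuous_fst.tendsto (e₀, e₀))
    have hb : Tendsto (fun p : E × E => f p.2) (𝓝 (e₀, e₀)) (𝓝 (f e₀)) :=
      hc.comp (continuous_snd.tendsto (e₀, e₀))
    exact (((ha.sub_const _).abs.add (hb.sub_const _).abs).const_mul 2).mul_const _
  rw [sub_self, abs_zero, add_zero, mul_zero, zero_mul] at h1
  have h2 : ∀ᶠ p : E × E in 𝓝 (e₀, e₀), 2 * (|f p.1 - f e₀| + |f p.2 - f e₀|) * |C| < m :=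
    (tendsto_order.1 h1).2 _ hm
  filter_upwards [h2, hf] with p h3 h4
  have h5 : |f p.1 - f p.2| ≤ |C| * ‖p.1 - p.2‖ :=
    h4.trans (mul_le_mul_of_nonneg_right (le_abs_self C) (norm_nonneg _))
  calc 2 * (|f p.1 - f e₀| + |f p.2 - f e₀|) * |f p.1 - f p.2|
      ≤ 2 * (|f p.1 - f e₀| + |f p.2 - f e₀|) * (|C| * ‖p.1 - p.2‖) := by gcongr
    _ = (2 * (|f p.1 - f e₀| + |f p.2 - f e₀|) * |C|) * ‖p.1 - p.2‖ := by ring
    _ ≤ m * ‖p.1 - p.2‖ := by gcongr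

lemma lip_sub {f g : E → ℝ} {C : ℝ}
    (hf : ∀ᶠ p in 𝓝 (e₀, e₀), |f p.1 - f p.2| ≤ C * ‖p.1 - p.2‖)
    (hg : ∀ᶠ p in 𝓝 (e₀, e₀), |g p.1 - g p.2| ≤ C * ‖p.1 - p.2‖) :
    ∀ᶠ p in 𝓝 (e₀, e₀), |(f p.1 - g p.1) - (f p.2 - g p.2)| ≤ (2 * C) * ‖p.1 - p.2‖ := by
  filter_upwards [hf, hg] with p h1 h2
  have h3 : (f p.1 - g p.1) - (f p.2 - g p.2) = (f p.1 - f p.2) - (g p.1 - g p.2) := by ring
  rw [h3]
  refine (abs_sub _ _).trans ?_
  linarith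

end Flat3_aux

theorem Flat.root {ι : Type*} {E : Type*} [NormedAddCommGroup E] [NormedSpace ℝ E]
    (S : Finset ι) (v : ι → E → ℝ) (b t : E → ℝ) {η l m C : ℝ} (hη : 0 < η) (hl : 0 ≤ l)
    (hm : 0 ≤ m) (e₀ : E) (hb : b e₀ < t e₀)
    (heq : ∀ᶠ e in 𝓝 e₀, ∑ i ∈ S, (max (v i e - t e) 0) ^ 2 = η ^ 2 * (t e - b e) ^ 2)
    (hlv : ∀ i ∈ S, ∀ᶠ p in 𝓝 (e₀, e₀), |v i p.1 - v i p.2| ≤ C * ‖p.1 - p.2‖)
    (hlb : ∀ᶠ p in 𝓝 (e₀, e₀), |b p.1 - b p.2| ≤ C * ‖p.1 - p.2‖)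
    (hlt : ∀ᶠ p in 𝓝 (e₀, e₀), |t p.1 - t p.2| ≤ C * ‖p.1 - p.2‖)
    (hv : ∀ i ∈ S, Flat l (v i) e₀) (hbf : Flat m b e₀) : Flat (l + η * m) t e₀ := by
  classical
  set ζ : ι → ℝ := fun i => max (v i e₀ - t e₀) 0 with hζ
  set τ₀ : ℝ := t e₀ - b e₀ with hτ₀
  have hτ : 0 < τ₀ := by rw [hτ₀]; linarith
  have hζ0 : ∀ i, 0 ≤ ζ i := fun i => le_max_right _ _
  set s : ℝ := ∑ i ∈ S, ζ i with hs
  have hs0 : 0 ≤ s := Finset.sum_nonneg fun i _ => hζ0 i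
  set Z : ℝ := s + η ^ 2 * τ₀ with hZ
  have hZ0 : 0 < Z := by rw [hZ]; positivity
  have he₀ := heq.self_of_nhds
  -- `∑ ζ ≥ η τ₀`
  have hsτ : η * τ₀ ≤ s := by
    have h1 : ∑ i ∈ S, (ζ i) ^ 2 ≤ s ^ 2 := by
      rw [hs]
      exact Finset.sum_sq_le_sq_sum_of_nonneg fun i _ => hζ0 i
    have h2 : (η * τ₀) ^ 2 ≤ s ^ 2 := by
      rw [mul_pow, ← he₀]
      exact h1
    exact (abs_le_of_sq_le_sq' h2 hs0).2
  -- the model
  have hg : Flat (l + η * m) (fun e => (∑ i ∈ S, (ζ i / Z) * v i e) + (η ^ 2 * τ₀ / Z) * b e)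
      e₀ := by
    have h1 : Flat (∑ i ∈ S, |ζ i / Z| * l) (fun e => ∑ i ∈ S, (ζ i / Z) * v i e) e₀ :=
      Flat.sum S fun i hi => Flat.const_mul (hv i hi) hl _
    have h2 : Flat (|η ^ 2 * τ₀ / Z| * m) (fun e => (η ^ 2 * τ₀ / Z) * b e) e₀ :=
      Flat.const_mul hbf hm _
    refine (Flat.add h1 h2).mono ?_
    have h3 : ∑ i ∈ S, |ζ i / Z| * l ≤ l := by
      have h4 : ∑ i ∈ S, |ζ i / Z| * l = s / Z * l := by
        rw [hs, Finset.sum_div, Finset.sum_mul]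
        refine Finset.sum_congr rfl fun i _ => ?_
        rw [abs_of_nonneg (div_nonneg (hζ0 i) hZ0.le)]
      rw [h4]
      have h5 : s / Z ≤ 1 := by
        rw [div_le_one hZ0, hZ]
        have : 0 ≤ η ^ 2 * τ₀ := by positivity
        linarith
      exact (mul_le_mul_of_nonneg_right h5 hl).trans (by linarith)
    have h6 : |η ^ 2 * τ₀ / Z| * m ≤ η * m := by
      apply mul_le_mul_of_nonneg_right _ hm
      rw [abs_of_nonneg (by positivity), div_le_iff₀ hZ0]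
      have h7 : η * τ₀ ≤ Z := by
        rw [hZ]
        have : 0 ≤ η ^ 2 * τ₀ := by positivity
        linarith
      have h8 := mul_le_mul_of_nonneg_left h7 hη.le
      calc η ^ 2 * τ₀ = η * (η * τ₀) := by ring
        _ ≤ η * Z := h8
    linarith
  refine hg.of_close ?_
  intro k hk
  -- the terms
  have hU : ∀ i ∈ S, ∀ᶠ p in 𝓝 (e₀, e₀),
      |(max (v i p.1 - t p.1) 0) ^ 2 - (max (v i p.2 - t p.2) 0) ^ 2 -
        2 * ζ i * ((v i p.1 - t p.1) - (v i p.2 - t p.2))| ≤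
        (k * Z / (S.card + 1)) * ‖p.1 - p.2‖ := by
    intro i hi
    have h1 := Flat3_aux.small (f := fun e => v i e - t e) (Flat3_aux.lip_sub (hlv i hi) hlt)
      (k * Z / (S.card + 1)) (by positivity)
    filter_upwards [h1] with p h2
    exact (Flat3_aux.sq_ineq _ _ _).trans h2
  have hall : ∀ᶠ p in 𝓝 (e₀, e₀), ∀ i ∈ S,
      |(max (v i p.1 - t p.1) 0) ^ 2 - (max (v i p.2 - t p.2) 0) ^ 2 -
        2 * ζ i * ((v i p.1 - t p.1) - (v i p.2 - t p.2))| ≤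
        (k * Z / (S.card + 1)) * ‖p.1 - p.2‖ :=
    (Filter.eventually_all_finset S).2 hU
  have hτs := Flat3_aux.small (f := fun e => t e - b e) (Flat3_aux.lip_sub hlt hlb)
    (k * Z / (η ^ 2)) (by positivity)
  have he1 : ∀ᶠ p : E × E in 𝓝 (e₀, e₀),
      ∑ i ∈ S, (max (v i p.1 - t p.1) 0) ^ 2 = η ^ 2 * (t p.1 - b p.1) ^ 2 :=
    (continuous_fst.tendsto (e₀, e₀)).eventually heq
  have he2 : ∀ᶠ p : E × E in 𝓝 (e₀, e₀),
      ∑ i ∈ S, (max (v i p.2 - t p.2) 0) ^ 2 = η ^ 2 * (t p.2 - b p.2) ^ 2 :=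
    (continuous_snd.tendsto (e₀, e₀)).eventually heq
  filter_upwards [hall, hτs, he1, he2] with p h1 h2 h3 h4
  have hn : 0 ≤ ‖p.1 - p.2‖ := norm_nonneg _
  -- sum of the terms
  have h5 : |∑ i ∈ S, ((max (v i p.1 - t p.1) 0) ^ 2 - (max (v i p.2 - t p.2) 0) ^ 2 -
        2 * ζ i * ((v i p.1 - t p.1) - (v i p.2 - t p.2)))| ≤ (k * Z) * ‖p.1 - p.2‖ := by
    refine (Finset.abs_sum_le_sum_abs _ _).trans ((Finset.sum_le_sum h1).trans ?_)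
    rw [Finset.sum_const, nsmul_eq_mul]
    have h6 : (S.card : ℝ) * (k * Z / (S.card + 1) * ‖p.1 - p.2‖) =
        (S.card / (S.card + 1)) * ((k * Z) * ‖p.1 - p.2‖) := by
      field_simp
    rw [h6]
    have h7 : (S.card : ℝ) / (S.card + 1) ≤ 1 := by
      rw [div_le_one (by positivity)]
      linarith
    have h8 : 0 ≤ (k * Z) * ‖p.1 - p.2‖ := by positivity
    nlinarith
  have h9 : ∑ i ∈ S, ((max (v i p.1 - t p.1) 0) ^ 2 - (max (v i p.2 - t p.2) 0) ^ 2 -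
        2 * ζ i * ((v i p.1 - t p.1) - (v i p.2 - t p.2))) =
      η ^ 2 * (t p.1 - b p.1) ^ 2 - η ^ 2 * (t p.2 - b p.2) ^ 2 -
        2 * (∑ i ∈ S, ζ i * (v i p.1 - v i p.2) - s * (t p.1 - t p.2)) := by
    rw [Finset.sum_sub_distrib, Finset.sum_sub_distrib, h3, h4, hs, Finset.sum_mul,
      ← Finset.sum_sub_distrib, Finset.mul_sum]
    congr 1
    refine Finset.sum_congr rfl fun i _ => ?_
    ring
  rw [h9] at h5
  -- the quadratic term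
  have h10 : |η ^ 2 * (t p.1 - b p.1) ^ 2 - η ^ 2 * (t p.2 - b p.2) ^ 2 -
      2 * (η ^ 2 * τ₀) * ((t p.1 - b p.1) - (t p.2 - b p.2))| ≤ (k * Z) * ‖p.1 - p.2‖ := by
    have h11 : η ^ 2 * (t p.1 - b p.1) ^ 2 - η ^ 2 * (t p.2 - b p.2) ^ 2 -
      2 * (η ^ 2 * τ₀) * ((t p.1 - b p.1) - (t p.2 - b p.2)) =
      η ^ 2 * ((((t p.1 - b p.1) - (t e₀ - b e₀)) + ((t p.2 - b p.2) - (t e₀ - b e₀))) *
        ((t p.1 - b p.1) - (t p.2 - b p.2))) := by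
      rw [hτ₀]; ring
    rw [h11, abs_mul, abs_of_nonneg (by positivity : 0 ≤ η ^ 2), abs_mul]
    have h12 : |((t p.1 - b p.1) - (t e₀ - b e₀)) + ((t p.2 - b p.2) - (t e₀ - b e₀))| ≤
        2 * (|(t p.1 - b p.1) - (t e₀ - b e₀)| + |(t p.2 - b p.2) - (t e₀ - b e₀)|) := by
      refine (abs_add_le _ _).trans ?_
      have ha := abs_nonneg ((t p.1 - b p.1) - (t e₀ - b e₀))
      have hb' := abs_nonneg ((t p.2 - b p.2) - (t e₀ - b e₀))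
      linarith
    have h13 : |((t p.1 - b p.1) - (t e₀ - b e₀)) + ((t p.2 - b p.2) - (t e₀ - b e₀))| *
        |(t p.1 - b p.1) - (t p.2 - b p.2)| ≤ k * Z / (η ^ 2) * ‖p.1 - p.2‖ :=
      (mul_le_mul_of_nonneg_right h12 (abs_nonneg _)).trans h2
    calc η ^ 2 * (|((t p.1 - b p.1) - (t e₀ - b e₀)) + ((t p.2 - b p.2) - (t e₀ - b e₀))| *
        |(t p.1 - b p.1) - (t p.2 - b p.2)|) ≤ η ^ 2 * (k * Z / (η ^ 2) * ‖p.1 - p.2‖) := by
          gcongr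
      _ = (k * Z) * ‖p.1 - p.2‖ := by field_simp
  -- conclusion
  have h14 : ((t p.1 - ((∑ i ∈ S, (ζ i / Z) * v i p.1) + (η ^ 2 * τ₀ / Z) * b p.1)) -
      (t p.2 - ((∑ i ∈ S, (ζ i / Z) * v i p.2) + (η ^ 2 * τ₀ / Z) * b p.2))) =
      (1 / (2 * Z)) * ((η ^ 2 * (t p.1 - b p.1) ^ 2 - η ^ 2 * (t p.2 - b p.2) ^ 2 -
        2 * (∑ i ∈ S, ζ i * (v i p.1 - v i p.2) - s * (t p.1 - t p.2))) -
      (η ^ 2 * (t p.1 - b p.1) ^ 2 - η ^ 2 * (t p.2 - b p.2) ^ 2 -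
      2 * (η ^ 2 * τ₀) * ((t p.1 - b p.1) - (t p.2 - b p.2)))) := by
    have h15 : ∀ e, ∑ i ∈ S, (ζ i / Z) * v i e = (∑ i ∈ S, ζ i * v i e) / Z := by
      intro e
      rw [Finset.sum_div]
      refine Finset.sum_congr rfl fun i _ => ?_
      ring
    have h16 : ∑ i ∈ S, ζ i * (v i p.1 - v i p.2) =
        ∑ i ∈ S, ζ i * v i p.1 - ∑ i ∈ S, ζ i * v i p.2 := by
      rw [← Finset.sum_sub_distrib]
      refine Finset.sum_congr rfl fun i _ => ?_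
      ring
    rw [h15, h15, h16]
    have hZne : Z ≠ 0 := hZ0.ne'
    have hsZ : s = Z - η ^ 2 * τ₀ := by rw [hZ]; ring
    rw [hsZ]
    field_simp
    ring
  rw [h14, abs_mul, abs_of_nonneg (by positivity : 0 ≤ 1 / (2 * Z))]
  have h17 := (abs_sub _ _).trans (add_le_add h5 h10)
  calc 1 / (2 * Z) * |_| ≤ 1 / (2 * Z) * (k * Z * ‖p.1 - p.2‖ + k * Z * ‖p.1 - p.2‖) := by
        gcongr
    _ = k * ‖p.1 - p.2‖ := by field_simp; ring

end Pool.Agent.Helper74.AS
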