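import Pool.Agent.Helper74.AS.Defs

/-!
AS-6. The truncation function `hh a j = a * j⁺ / (a + j⁺)`.
-/

set_option autoImplicit false

open scoped Topology
open Filter Set

namespace Pool.Agent.Helper74.AS

theorem hh_nonneg {a : ℝ} (ha : 0 < a) (j : ℝ) : 0 ≤ hh a j := by
  unfold hh
  have h : 0 ≤ max j 0 := le_max_right _ _
  positivity

theorem hh_le_left {a : ℝ} (ha : 0 < a) (j : ℝ) : hh a j ≤ a := by
  unfold hh
  have h : 0 ≤ max j 0 := le_max_right _ _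
  rw [div_le_iff₀ (by positivity)]
  nlinarith

theorem hh_le_right {a : ℝ} (ha : 0 < a) (j : ℝ) : hh a j ≤ max j 0 := by
  unfold hh
  have h : 0 ≤ max j 0 := le_max_right _ _
  rw [div_le_iff₀ (by positivity)]
  nlinarith

theorem hh_mono {a : ℝ} (ha : 0 < a) {j j' : ℝ} (h : j ≤ j') : hh a j ≤ hh a j' := by
  unfold hh
  have h0 : 0 ≤ max j 0 := le_max_right _ _
  have h1 : 0 ≤ max j' 0 := le_max_right _ _
  have h2 : max j 0 ≤ max j' 0 := max_le_max_right 0 h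
  rw [div_le_div_iff₀ (by positivity) (by positivity)]
  nlinarith [mul_nonneg ha.le (sub_nonneg.2 h2), mul_nonneg (mul_nonneg ha.le ha.le) (sub_nonneg.2 h2)]

theorem hh_pos {a j : ℝ} (ha : 0 < a) (hj : 0 < j) : 0 < hh a j := by
  unfold hh
  rw [max_eq_left hj.le]
  positivity

theorem hh_lip {a b : ℝ} (ha : 0 < a) (hb : 0 < b) (j j' : ℝ) :
    |hh a j - hh b j'| ≤ |a - b| + |j - j'| := by
  unfold hh
  have hu : 0 ≤ max j 0 := le_max_right _ _
  have hv : 0 ≤ max j' 0 := le_max_right _ _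
  have huv : |max j 0 - max j' 0| ≤ |j - j'| := abs_max_sub_max_le_abs j j' 0
  set u := max j 0 with hudef
  set v := max j' 0 with hvdef
  have key : a * u / (a + u) - b * v / (b + v)
      = (a - b) * (u * v / ((a + u) * (b + v))) + (u - v) * (a * b / ((a + u) * (b + v))) := by
    have h1 : a + u ≠ 0 := by positivity
    have h2 : b + v ≠ 0 := by positivity
    field_simp
    ring
  rw [key]
  have hden : 0 < (a + u) * (b + v) := by positivity
  have e1 : |u * v / ((a + u) * (b + v))| ≤ 1 := by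
    rw [abs_of_nonneg (by positivity), div_le_one hden]
    nlinarith [mul_nonneg ha.le hb.le, mul_nonneg ha.le hv, mul_nonneg hu hb.le]
  have e2 : |a * b / ((a + u) * (b + v))| ≤ 1 := by
    rw [abs_of_nonneg (by positivity), div_le_one hden]
    nlinarith [mul_nonneg hu hv, mul_nonneg ha.le hv, mul_nonneg hu hb.le]
  calc |(a - b) * (u * v / ((a + u) * (b + v))) + (u - v) * (a * b / ((a + u) * (b + v)))|
      ≤ |(a - b) * (u * v / ((a + u) * (b + v)))| + |(u - v) * (a * b / ((a + u) * (b + v)))| :=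
        abs_add_le _ _
    _ ≤ |a - b| * 1 + |u - v| * 1 := by
        rw [abs_mul, abs_mul]
        exact add_le_add (mul_le_mul_of_nonneg_left e1 (abs_nonneg _))
          (mul_le_mul_of_nonneg_left e2 (abs_nonneg _))
    _ ≤ |a - b| + |j - j'| := by linarith

theorem hh_strict {a j : ℝ} (ha : 0 < a) (hj : 0 < j) : ∃ d₁ d₂ : ℝ, 0 ≤ d₁ ∧ d₁ ≤ 1 ∧ 0 ≤ d₂ ∧
    d₂ ≤ 1 ∧ ∀ m > 0, ∀ᶠ p : (ℝ × ℝ) × (ℝ × ℝ) in 𝓝 ((a, j), (a, j)),
      |hh p.1.1 p.1.2 - hh p.2.1 p.2.2 - (d₁ * (p.1.1 - p.2.1) + d₂ * (p.1.2 - p.2.2))| ≤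
        m * (|p.1.1 - p.2.1| + |p.1.2 - p.2.2|) := by
  have hs : 0 < a + j := by positivity
  refine ⟨j * j / ((a + j) * (a + j)), a * a / ((a + j) * (a + j)), by positivity, ?_,
    by positivity, ?_, ?_⟩
  · rw [div_le_one (by positivity)]
    nlinarith
  · rw [div_le_one (by positivity)]
    nlinarith
  · intro m hm
    -- coefficient functions
    have hc1 : Filter.Tendsto (fun p : (ℝ × ℝ) × (ℝ × ℝ) =>
        p.1.2 * p.2.2 / ((p.1.1 + p.1.2) * (p.2.1 + p.2.2))) (𝓝 ((a, j), (a, j)))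
        (𝓝 (j * j / ((a + j) * (a + j)))) := by
      have : ContinuousAt (fun p : (ℝ × ℝ) × (ℝ × ℝ) =>
        p.1.2 * p.2.2 / ((p.1.1 + p.1.2) * (p.2.1 + p.2.2))) ((a, j), (a, j)) := by
        apply ContinuousAt.div
        · fun_prop
        · fun_prop
        · positivity
      exact this
    have hc2 : Filter.Tendsto (fun p : (ℝ × ℝ) × (ℝ × ℝ) =>
        p.1.1 * p.2.1 / ((p.1.1 + p.1.2) * (p.2.1 + p.2.2))) (𝓝 ((a, j), (a, j)))
        (𝓝 (a * a / ((a + j) * (a + j)))) := by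
      have : ContinuousAt (fun p : (ℝ × ℝ) × (ℝ × ℝ) =>
        p.1.1 * p.2.1 / ((p.1.1 + p.1.2) * (p.2.1 + p.2.2))) ((a, j), (a, j)) := by
        apply ContinuousAt.div
        · fun_prop
        · fun_prop
        · positivity
      exact this
    have g1 : ∀ᶠ p : (ℝ × ℝ) × (ℝ × ℝ) in 𝓝 ((a, j), (a, j)),
        |p.1.2 * p.2.2 / ((p.1.1 + p.1.2) * (p.2.1 + p.2.2)) - j * j / ((a + j) * (a + j))| < m := by
      have := hc1.eventually (Metric.ball_mem_nhds _ hm)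
      simpa [Real.dist_eq] using this
    have g2 : ∀ᶠ p : (ℝ × ℝ) × (ℝ × ℝ) in 𝓝 ((a, j), (a, j)),
        |p.1.1 * p.2.1 / ((p.1.1 + p.1.2) * (p.2.1 + p.2.2)) - a * a / ((a + j) * (a + j))| < m := by
      have := hc2.eventually (Metric.ball_mem_nhds _ hm)
      simpa [Real.dist_eq] using this
    have c11 : ContinuousAt (fun p : (ℝ × ℝ) × (ℝ × ℝ) => p.1.1) ((a, j), (a, j)) := by fun_prop
    have c12 : ContinuousAt (fun p : (ℝ × ℝ) × (ℝ × ℝ) => p.1.2) ((a, j), (a, j)) := by fun_prop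
    have c21 : ContinuousAt (fun p : (ℝ × ℝ) × (ℝ × ℝ) => p.2.1) ((a, j), (a, j)) := by fun_prop
    have c22 : ContinuousAt (fun p : (ℝ × ℝ) × (ℝ × ℝ) => p.2.2) ((a, j), (a, j)) := by fun_prop
    have p11 : ∀ᶠ p : (ℝ × ℝ) × (ℝ × ℝ) in 𝓝 ((a, j), (a, j)), 0 < p.1.1 :=
      c11.eventually (lt_mem_nhds ha)
    have p12 : ∀ᶠ p : (ℝ × ℝ) × (ℝ × ℝ) in 𝓝 ((a, j), (a, j)), 0 < p.1.2 :=
      c12.eventually (lt_mem_nhds hj)
    have p21 : ∀ᶠ p : (ℝ × ℝ) × (ℝ × ℝ) in 𝓝 ((a, j), (a, j)), 0 < p.2.1 :=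
      c21.eventually (lt_mem_nhds ha)
    have p22 : ∀ᶠ p : (ℝ × ℝ) × (ℝ × ℝ) in 𝓝 ((a, j), (a, j)), 0 < p.2.2 :=
      c22.eventually (lt_mem_nhds hj)
    filter_upwards [g1, g2, p11, p12, p21, p22] with p h1 h2 q11 q12 q21 q22
    obtain ⟨⟨a1, j1⟩, ⟨a2, j2⟩⟩ := p
    simp only at h1 h2 q11 q12 q21 q22 ⊢
    unfold hh
    rw [max_eq_left q12.le, max_eq_left q22.le]
    have key : a1 * j1 / (a1 + j1) - a2 * j2 / (a2 + j2)
        = (a1 - a2) * (j1 * j2 / ((a1 + j1) * (a2 + j2)))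
          + (j1 - j2) * (a1 * a2 / ((a1 + j1) * (a2 + j2))) := by
      have e1 : a1 + j1 ≠ 0 := by positivity
      have e2 : a2 + j2 ≠ 0 := by positivity
      field_simp
      ring
    rw [key]
    have : (a1 - a2) * (j1 * j2 / ((a1 + j1) * (a2 + j2)))
          + (j1 - j2) * (a1 * a2 / ((a1 + j1) * (a2 + j2)))
          - (j * j / ((a + j) * (a + j)) * (a1 - a2) + a * a / ((a + j) * (a + j)) * (j1 - j2))
        = (j1 * j2 / ((a1 + j1) * (a2 + j2)) - j * j / ((a + j) * (a + j))) * (a1 - a2)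
          + (a1 * a2 / ((a1 + j1) * (a2 + j2)) - a * a / ((a + j) * (a + j))) * (j1 - j2) := by
      ring
    rw [this]
    calc _ ≤ |(j1 * j2 / ((a1 + j1) * (a2 + j2)) - j * j / ((a + j) * (a + j))) * (a1 - a2)|
          + |(a1 * a2 / ((a1 + j1) * (a2 + j2)) - a * a / ((a + j) * (a + j))) * (j1 - j2)| :=
          abs_add_le _ _
      _ ≤ m * |a1 - a2| + m * |j1 - j2| := by
          rw [abs_mul, abs_mul]
          exact add_le_add (mul_le_mul_of_nonneg_right h1.le (abs_nonneg _))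
            (mul_le_mul_of_nonneg_right h2.le (abs_nonneg _))
      _ = m * (|a1 - a2| + |j1 - j2|) := by ring

end Pool.Agent.Helper74.AS
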