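import Pool.Agent.Helper74.AS.Loc
import Pool.Agent.Helper74.AS.Contr

/-!
AS-10. The sequence of families.

`par n` is admissible. `F n 0 = fun q x _ => q x` (in `MM δ` for all `δ ≥ 0`: `Sem.attain`),
`F n (m+1) = T (par n) (F (n+1) m)`. By induction on `m`, `F n m ∈ MM (δ n)`, `δ n = 4⁻ⁿ/50`
(`MM.opT`, `MM` is monotone in `δ`, `δ (n+1) (1 + 5κ) + 5c ≤ δ n`);
`|F n (m+1) - F n m| ≤ α / 2^m` by induction (`contr`; for `m = 0` both values are in `[p x, p x + α]`).
So `F n m q x α` is Cauchy; let `F n q x α` be the limit, for `Sem q`, `0 < α`;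
`|F n - F n m| ≤ 2 α / 2^m`. Limits preserve `MM`; `F n = T (par n) (F (n+1))` by `contr` again.
-/

set_option autoImplicit false

open scoped Topology
open Filter Set

namespace Pool.Agent.Helper74.AS

universe u

variable {X : Type u} [NormedAddCommGroup X] [NormedSpace ℝ X]

namespace Lim_aux

theorem q_pos (n : ℕ) : (0 : ℝ) < (1 / 4) ^ n := by positivity

theorem q_le (n : ℕ) : ((1 : ℝ) / 4) ^ n ≤ 1 := pow_le_one₀ (by norm_num) (by norm_num)

theorem d_nonneg (n : ℕ) : (0 : ℝ) ≤ (1 / 4) ^ n / 50 := by positivity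

theorem d_le (n : ℕ) : ((1 : ℝ) / 4) ^ n / 50 ≤ 1 / 10 := by
  have := q_le n
  linarith

end Lim_aux

open Lim_aux

theorem par_ok (n : ℕ) : (par n).Ok := by
  have h0 := q_pos n
  have h1 := q_le n
  constructor <;> simp only [par] <;> linarith

namespace Lim_aux

theorem mm_base {δ : ℝ} (hδ : 0 ≤ δ) : MM δ (fun (q : X → ℝ) (x : X) (_ : ℝ) => q x) := by
  refine ⟨fun q _ x α _ => le_rfl, fun q _ x α hα => by linarith, ?_⟩
  intro q hq y z α β s hα hβ h
  obtain ⟨φ, hφ, hy⟩ := hq.attain y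
  have h1 := h φ hφ (by rw [hy]; linarith)
  have h2 := hφ z
  rw [map_sub, hy] at h1
  have h3 : 0 ≤ δ * (‖y - z‖ + |α - β|) := by positivity
  change q y - q z ≤ _
  linarith

theorem mm_mono {δ δ' : ℝ} {F : Fam X} (h : MM δ F) (hd : δ ≤ δ') : MM δ' F := by
  refine ⟨h.lo, h.hi, ?_⟩
  intro q hq y z α β s hα hβ hs
  have h1 := h.loc q hq y z α β s hα hβ hs
  have h2 : δ * (‖y - z‖ + |α - β|) ≤ δ' * (‖y - z‖ + |α - β|) :=
    mul_le_mul_of_nonneg_right hd (by positivity)
  linarith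

/-- the approximating families -/
noncomputable def GG (X : Type u) [NormedAddCommGroup X] [NormedSpace ℝ X] : ℕ → ℕ → Fam X
  | 0, _ => fun q x _ => q x
  | m + 1, n => T (par n) (GG X m (n + 1))

theorem mm_GG (hX : Dent X) (m : ℕ) : ∀ n, MM ((1 / 4) ^ n / 50) (GG X m n) := by
  induction m with
  | zero => exact fun n => mm_base (d_nonneg n)
  | succ m ih =>
    intro n
    have h := (ih (n + 1)).opT hX (par_ok n) (d_nonneg _) (d_le _)
    refine mm_mono h ?_
    have h0 := q_pos n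
    have h1 := q_le n
    simp only [par]
    rw [pow_succ]
    nlinarith

theorem step_GG (hX : Dent X) (m : ℕ) : ∀ n q, Sem q → ∀ x α, 0 < α →
    |GG X (m + 1) n q x α - GG X m n q x α| ≤ 1 / 2 ^ m * α := by
  induction m with
  | zero =>
    intro n q hq x α hα
    have h1 := (mm_GG hX 1 n).lo q hq x α hα
    have h2 := (mm_GG hX 1 n).hi q hq x α hα
    have h3 : GG X 0 n q x α = q x := rfl
    rw [zero_add, h3, abs_le]
    constructor <;> simp only [pow_zero, div_one, one_mul] <;> linarith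
  | succ m ih =>
    intro n q hq x α hα
    have h := contr hX (par_ok n) (mm_GG hX (m + 1) (n + 1)) (mm_GG hX m (n + 1)) (d_nonneg _)
      (d_le _) (r := 1 / 2 ^ m) (by positivity) (ih (n + 1)) q hq x α hα
    have e : (1 : ℝ) / 2 ^ m / 2 = 1 / 2 ^ (m + 1) := by
      rw [pow_succ]
      field_simp
    rw [e] at h
    exact h

/-- the limit family -/
noncomputable def FF (X : Type u) [NormedAddCommGroup X] [NormedSpace ℝ X] (n : ℕ) : Fam X :=
  fun q x α => limUnder atTop (fun m => GG X m n q x α)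

theorem dist_GG (hX : Dent X) (n : ℕ) {q : X → ℝ} (hq : Sem q) (x : X) {α : ℝ} (hα : 0 < α)
    (m : ℕ) : dist (GG X m n q x α) (GG X (m + 1) n q x α) ≤ 2 * α / 2 / 2 ^ m := by
  rw [dist_comm, Real.dist_eq]
  refine (step_GG hX m n q hq x α hα).trans (le_of_eq ?_)
  field_simp

theorem tendsto_FF (hX : Dent X) (n : ℕ) {q : X → ℝ} (hq : Sem q) (x : X) {α : ℝ} (hα : 0 < α) :
    Tendsto (fun m => GG X m n q x α) atTop (𝓝 (FF X n q x α)) :=
  (cauchySeq_of_le_geometric_two (dist_GG hX n hq x hα)).tendsto_limUnder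

theorem close_FF (hX : Dent X) (n : ℕ) {q : X → ℝ} (hq : Sem q) (x : X) {α : ℝ} (hα : 0 < α)
    (m : ℕ) : |GG X m n q x α - FF X n q x α| ≤ 2 / 2 ^ m * α := by
  have h := dist_le_of_le_geometric_two_of_tendsto (dist_GG hX n hq x hα)
    (tendsto_FF hX n hq x hα) m
  rw [Real.dist_eq] at h
  refine h.trans (le_of_eq ?_)
  ring

theorem mm_FF (hX : Dent X) (n : ℕ) : MM ((1 / 4) ^ n / 50) (FF X n) := by
  refine ⟨?_, ?_, ?_⟩
  · intro q hq x α hα
    exact ge_of_tendsto' (tendsto_FF hX n hq x hα) fun m => (mm_GG hX m n).lo q hq x α hα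
  · intro q hq x α hα
    exact le_of_tendsto' (tendsto_FF hX n hq x hα) fun m => (mm_GG hX m n).hi q hq x α hα
  · intro q hq y z α β s hα hβ hs
    exact le_of_tendsto' ((tendsto_FF hX n hq y hα).sub (tendsto_FF hX n hq z hβ))
      fun m => (mm_GG hX m n).loc q hq y z α β s hα hβ hs

theorem eq_FF (hX : Dent X) (n : ℕ) {p : X → ℝ} (hp : Sem p) (x : X) {α : ℝ} (hα : 0 < α) :
    FF X n p x α = T (par n) (FF X (n + 1)) p x α := by
  have key : ∀ m : ℕ, |FF X n p x α - T (par n) (FF X (n + 1)) p x α| ≤ 2 * α * (1 / 2) ^ m := by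
    intro m
    have h1 := close_FF hX n hp x hα (m + 1)
    have h2 := contr hX (par_ok n) (mm_GG hX m (n + 1)) (mm_FF hX (n + 1)) (d_nonneg _)
      (d_le _) (r := 2 / 2 ^ m) (by positivity)
      (fun q hq x α hα => close_FF hX (n + 1) hq x hα m) p hp x α hα
    have h3 : GG X (m + 1) n p x α = T (par n) (GG X m (n + 1)) p x α := rfl
    rw [← h3] at h2
    have h4 : |FF X n p x α - T (par n) (FF X (n + 1)) p x α| ≤
        |GG X (m + 1) n p x α - FF X n p x α| +
          |GG X (m + 1) n p x α - T (par n) (FF X (n + 1)) p x α| := by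
      have := abs_sub_le (FF X n p x α) (GG X (m + 1) n p x α) (T (par n) (FF X (n + 1)) p x α)
      rwa [abs_sub_comm (FF X n p x α) (GG X (m + 1) n p x α)] at this
    have e1 : (2 : ℝ) / 2 ^ (m + 1) * α = α * (1 / 2) ^ m := by
      rw [pow_succ, one_div, inv_pow]
      field_simp
    have e2 : (2 : ℝ) / 2 ^ m / 2 * α = α * (1 / 2) ^ m := by
      rw [one_div, inv_pow]
      field_simp
    rw [e1] at h1
    rw [e2] at h2
    linarith
  have hlim : Tendsto (fun m : ℕ => 2 * α * (1 / 2 : ℝ) ^ m) atTop (𝓝 (2 * α * 0)) :=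
    (tendsto_pow_atTop_nhds_zero_of_lt_one (by norm_num) (by norm_num)).const_mul _
  rw [mul_zero] at hlim
  have h0 : |FF X n p x α - T (par n) (FF X (n + 1)) p x α| ≤ 0 := ge_of_tendsto' hlim key
  have h1 := abs_nonpos_iff.1 h0
  linarith

end Lim_aux

theorem exists_seq (hX : Dent X) : ∃ F : ℕ → Fam X, ∀ n, MM ((1 / 4) ^ n / 50) (F n) ∧
    ∀ p, Sem p → ∀ x α, 0 < α → F n p x α = T (par n) (F (n + 1)) p x α :=
  ⟨FF X, fun n => ⟨mm_FF hX n, fun _ hp x _ hα => eq_FF hX n hp x hα⟩⟩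

end Pool.Agent.Helper74.AS
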