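import Pool.Agent.Helper74.AS.Rough
import Pool.Agent.Helper74.AS.Lim

/-!
AS-16. Iteration; `C¹` approximation of seminorms.

`δ n = 4⁻ⁿ/50`, `s n = 4⁻ⁿ`. Suppose all `F n q` are `l`-flat everywhere (`0 ≤ l ≤ 2`). Fix `m` and
`r = 2 s(m) + 2 δ(m+1)`. By `MM.flat_good`, `F (m+1)` is `r`-flat at points good for `s m`; `rough_step`
then gives: `F m` is `X m`-flat everywhere, `X n := (1 + s n) r + (s n / 4) l`, and by downward
induction (`rough_step` with `l₁ = X (n+1)`, good or not; cap `l₁` by `2`, i.e. use `min`):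
`(1 + c)X(n+1) + θ l ≤ X n` since `c = s n/1000`, `θ = 58 s n/1000`. Hence `F n` is `(2r + l/4)`-flat for
all `m ≥ n`, `r → 0`: `F n` is `l/4`-flat. Iterating from `l = 2` (`MM.flat_two`): `Flat 0`.
`exists_C1`: `g x = F 0 p x α` with `F` from `exists_seq`; `Flat.contDiffOn` on `{e | 0 < e.2}` composed
with `x ↦ (x, α)`; `MM.lo`, `MM.hi`, `MM.lip`.
-/

set_option autoImplicit false

open scoped Topology
open Filter Set

namespace Pool.Agent.Helper74.AS

universe u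

variable {X : Type u} [NormedAddCommGroup X] [NormedSpace ℝ X]

namespace Iter_aux

theorem par_c (n : ℕ) : (par n).c = (1 / 4) ^ n / 1000 := rfl

theorem par_κ (n : ℕ) : (par n).κ = (1 / 4) ^ n / 1000 := rfl

theorem par_η (n : ℕ) : (par n).η = (1 / 4) ^ n / 1000 := rfl

theorem par_ε (n : ℕ) : (par n).ε = (1 / 4) ^ n := rfl

theorem s_pos (n : ℕ) : (0 : ℝ) < (1 / 4) ^ n := by positivity

theorem s_le (n : ℕ) : ((1 : ℝ) / 4) ^ n ≤ 1 := pow_le_one₀ (by norm_num) (by norm_num)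

theorem δ_nonneg (n : ℕ) : (0 : ℝ) ≤ (1 / 4) ^ n / 50 := by positivity

theorem δ_le (n : ℕ) : ((1 : ℝ) / 4) ^ n / 50 ≤ 1 / 10 := by
  have := s_le n
  linarith

/-- All the families are `l`-flat. -/
def AllFlat (F : ℕ → Fam X) (l : ℝ) : Prop :=
  ∀ n q, Sem q → ∀ x α, 0 < α → Flat l (fn (F n) q) (x, α)

/-- The radius at the level `m`. -/
noncomputable def rad (m : ℕ) : ℝ := 2 * (1 / 4) ^ m + 2 * ((1 / 4) ^ (m + 1) / 50)

theorem rad_nonneg (m : ℕ) : 0 ≤ rad m := by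
  unfold rad
  positivity

theorem rad_le (m : ℕ) : rad m ≤ 3 * (1 / 4) ^ m := by
  unfold rad
  have := s_pos m
  rw [pow_succ]
  linarith

/-- The one step estimate with an arbitrary constant at the good points. -/
theorem step (hX : Dent X) (F : ℕ → Fam X) (hF : ∀ n, MM ((1 / 4) ^ n / 50) (F n) ∧
    ∀ p, Sem p → ∀ x α, 0 < α → F n p x α = T (par n) (F (n + 1)) p x α) {l : ℝ} (hl : 0 ≤ l)
    (hl2 : l ≤ 2) (hfl : AllFlat F l) (n : ℕ) {r : ℝ} (hr : 0 ≤ r)
    (hgood : ∀ q, Sem q → ∀ x α, 0 < α → Good (par n).ε q x α → Flat r (fn (F (n + 1)) q) (x, α)) :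
    ∀ p, Sem p → ∀ x α, 0 < α →
      Flat ((1 + (1 / 4) ^ n / 1000) * r + 58 * ((1 / 4) ^ n / 1000) * l) (fn (F n) p) (x, α) := by
  intro p hp x α hα
  have h1 := rough_step hX (par_ok n) (hF (n + 1)).1 (δ_nonneg (n + 1)) (δ_le (n + 1))
    (hF n).2 hl hl2 (l₁ := min r 2) (le_min hr (by norm_num)) (min_le_right r 2)
    (fun q hq x α hα => hfl n q hq x α hα) (fun q hq x α hα => hfl (n + 1) q hq x α hα)
    (fun q hq x α hα hg => by
      rcases le_total r 2 with h | h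
      · rw [min_eq_left h]
        exact hgood q hq x α hα hg
      · rw [min_eq_right h]
        exact (hF (n + 1)).1.flat_two (δ_nonneg (n + 1)) (δ_le (n + 1)) hq x hα) p hp x α hα
  refine h1.mono ?_
  rw [par_c, par_κ, par_η]
  have h2 : min r 2 ≤ r := min_le_left r 2
  have h3 := s_pos n
  have h4 : (1 + (1 / 4) ^ n / 1000) * min r 2 ≤ (1 + (1 / 4) ^ n / 1000) * r :=
    mul_le_mul_of_nonneg_left h2 (by positivity)
  have h5 : (50 * ((1 / 4 : ℝ) ^ n / 1000) + 5 * ((1 / 4) ^ n / 1000) + 3 * ((1 / 4) ^ n / 1000)) * l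
      = 58 * ((1 / 4) ^ n / 1000) * l := by ring
  rw [h5]
  linarith

/-- Downward induction from the level `m`. -/
theorem down (hX : Dent X) (F : ℕ → Fam X) (hF : ∀ n, MM ((1 / 4) ^ n / 50) (F n) ∧
    ∀ p, Sem p → ∀ x α, 0 < α → F n p x α = T (par n) (F (n + 1)) p x α) {l : ℝ} (hl : 0 ≤ l)
    (hl2 : l ≤ 2) (hfl : AllFlat F l) (m : ℕ) : ∀ j n, n + j = m → ∀ p, Sem p → ∀ x α, 0 < α →
      Flat ((1 + (1 / 4) ^ n) * rad m + (1 / 4) ^ n / 4 * l) (fn (F n) p) (x, α) := by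
  intro j
  induction j with
  | zero =>
    intro n hn p hp x α hα
    have hnm : n = m := by omega
    subst hnm
    have h1 := step hX F hF hl hl2 hfl n (rad_nonneg n) (fun q hq x α hα hg =>
      (hF (n + 1)).1.flat_good (δ_nonneg (n + 1)) hq hα (s_pos n).le hg) p hp x α hα
    refine h1.mono ?_
    have h2 := s_pos n
    have h3 := rad_nonneg n
    have h4 : (1 / 4 : ℝ) ^ n / 1000 * rad n ≤ (1 / 4) ^ n * rad n :=
      mul_le_mul_of_nonneg_right (by linarith) h3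
    have h5 : 58 * ((1 / 4 : ℝ) ^ n / 1000) * l ≤ (1 / 4) ^ n / 4 * l :=
      mul_le_mul_of_nonneg_right (by linarith) hl
    nlinarith
  | succ j ih =>
    intro n hn p hp x α hα
    have h1 := step hX F hF hl hl2 hfl n
      (r := (1 + (1 / 4) ^ (n + 1)) * rad m + (1 / 4) ^ (n + 1) / 4 * l)
      (by have := rad_nonneg m; positivity)
      (fun q hq x α hα _ => ih (n + 1) (by omega) q hq x α hα) p hp x α hα
    refine h1.mono ?_
    have h2 := s_pos n
    have h2' := s_le n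
    have h3 := rad_nonneg m
    obtain ⟨s, hs⟩ : ∃ s : ℝ, s = (1 / 4) ^ n := ⟨_, rfl⟩
    have hs1 : (1 / 4 : ℝ) ^ (n + 1) = s / 4 := by
      rw [pow_succ, hs]
      ring
    rw [hs1, ← hs]
    rw [← hs] at h2 h2'
    have h6 : (1 + s / 1000) * (1 + s / 4) ≤ 1 + s := by nlinarith
    have h7 : (1 + s / 1000) * (s / 4 / 4) + 58 * (s / 1000) ≤ s / 4 := by nlinarith
    have h8 := mul_le_mul_of_nonneg_right h6 h3
    have h9 := mul_le_mul_of_nonneg_right h7 hl
    calc (1 + s / 1000) * ((1 + s / 4) * rad m + s / 4 / 4 * l) + 58 * (s / 1000) * l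
        = (1 + s / 1000) * (1 + s / 4) * rad m +
          ((1 + s / 1000) * (s / 4 / 4) + 58 * (s / 1000)) * l := by ring
      _ ≤ (1 + s) * rad m + s / 4 * l := add_le_add h8 h9

theorem exists_small (n : ℕ) {ε : ℝ} (hε : 0 < ε) : ∃ m ≥ n, ((1 : ℝ) / 4) ^ m ≤ ε := by
  obtain ⟨m, hm⟩ := exists_pow_lt_of_lt_one hε (show (1 / 4 : ℝ) < 1 by norm_num)
  refine ⟨max m n, le_max_right m n, ?_⟩
  exact (pow_le_pow_of_le_one (by norm_num) (by norm_num) (le_max_left m n)).trans hm.le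

theorem quarter (hX : Dent X) (F : ℕ → Fam X) (hF : ∀ n, MM ((1 / 4) ^ n / 50) (F n) ∧
    ∀ p, Sem p → ∀ x α, 0 < α → F n p x α = T (par n) (F (n + 1)) p x α) {l : ℝ} (hl : 0 ≤ l)
    (hl2 : l ≤ 2) (hfl : AllFlat F l) : AllFlat F (l / 4) := by
  intro n q hq x α hα
  apply Flat.of_forall
  intro k hk
  obtain ⟨m, hmn, hm⟩ := exists_small n (ε := (k - l / 4) / 6) (by linarith)
  refine (down hX F hF hl hl2 hfl m (m - n) n (by omega) q hq x α hα).mono ?_
  have h1 := rad_le m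
  have h2 := rad_nonneg m
  have h3 := s_le n
  have h4 := s_pos n
  have h5 : (1 + (1 / 4 : ℝ) ^ n) * rad m ≤ 2 * rad m :=
    mul_le_mul_of_nonneg_right (by linarith) h2
  have h6 : (1 / 4 : ℝ) ^ n / 4 * l ≤ 1 / 4 * l :=
    mul_le_mul_of_nonneg_right (by linarith) hl
  linarith

theorem iter (hX : Dent X) (F : ℕ → Fam X) (hF : ∀ n, MM ((1 / 4) ^ n / 50) (F n) ∧
    ∀ p, Sem p → ∀ x α, 0 < α → F n p x α = T (par n) (F (n + 1)) p x α) (j : ℕ) :
    AllFlat F (2 * (1 / 4) ^ j) := by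
  induction j with
  | zero =>
    intro n q hq x α hα
    rw [pow_zero, mul_one]
    exact (hF n).1.flat_two (δ_nonneg n) (δ_le n) hq x hα
  | succ j ih =>
    have h1 := quarter hX F hF (by have := s_pos j; positivity)
      (by have := s_le j; linarith) ih
    have h2 : (2 : ℝ) * (1 / 4) ^ (j + 1) = 2 * (1 / 4) ^ j / 4 := by
      rw [pow_succ]
      ring
    rw [h2]
    exact h1

end Iter_aux

theorem flat_zero (hX : Dent X) (F : ℕ → Fam X) (hF : ∀ n, MM ((1 / 4) ^ n / 50) (F n) ∧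
    ∀ p, Sem p → ∀ x α, 0 < α → F n p x α = T (par n) (F (n + 1)) p x α) :
    ∀ n q, Sem q → ∀ x α, 0 < α → Flat 0 (fn (F n) q) (x, α) := by
  intro n q hq x α hα
  apply Flat.of_forall
  intro k hk
  obtain ⟨j, -, hj⟩ := Iter_aux.exists_small 0 (ε := k / 2) (by linarith)
  exact (Iter_aux.iter hX F hF j n q hq x α hα).mono (by linarith)

theorem exists_C1 (hX : Dent X) {p : X → ℝ} (hp : Sem p) {α : ℝ} (hα : 0 < α) :
    ∃ g : X → ℝ, ContDiff ℝ 1 g ∧ (∀ x, p x ≤ g x ∧ g x ≤ p x + α) ∧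
      ∀ x y, |g x - g y| ≤ 2 * ‖x - y‖ := by
  obtain ⟨F, hF⟩ := exists_seq hX
  refine ⟨fun x => F 0 p x α, ?_, fun x => ⟨(hF 0).1.lo p hp x α hα, (hF 0).1.hi p hp x α hα⟩, ?_⟩
  · have hU : IsOpen {e : X × ℝ | 0 < e.2} := isOpen_lt continuous_const continuous_snd
    have h1 : ContDiffOn ℝ 1 (fn (F 0) p) {e : X × ℝ | 0 < e.2} :=
      Flat.contDiffOn hU fun e he => flat_zero hX F hF 0 p hp e.1 e.2 he
    have h2 : ContDiff ℝ 1 fun x : X => ((x, α) : X × ℝ) := contDiff_id.prodMk contDiff_const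
    exact h1.comp_contDiff h2 fun x => hα
  · intro x y
    have h1 := (hF 0).1.lip hp x y hα hα
    rw [sub_self, abs_zero, mul_zero, add_zero, pow_zero] at h1
    refine h1.trans ?_
    have h2 := norm_nonneg (x - y)
    linarith

end Pool.Agent.Helper74.AS
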