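import Pool.Agent.Helper74.AS.Nodes
import Pool.Agent.Helper74.AS.Cmp

/-!
AS-8. The operator preserves admissible families.

* `tau_lip`: let `τ = tau .. y α`, `τ' = tau .. z β`, `E = ‖y - z‖ + |α - β|`. By `IsSol.cmp_tau`
  (with `t - b = τ`) it suffices for each node `i`:
  `u i (y, α, τ) - u i (z, β, τ') ≤ (5/2) E + |τ - τ'| / 2` : pass through `u i (y, α, τ')` with
  `node_lip`, then vary the point.
* `MM.opT`: `lo`, `hi` from `0 < τ ≤ 2cα`, `MM.lo`, `MM.hi`; `loc`: apply `IsSol.cmp` with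
  `L = s + δ'(‖y - z‖ + |α - β|)`, `δ' = δ(1+5κ) + 5c`.
-/

set_option autoImplicit false

open scoped Topology
open Filter Set

namespace Pool.Agent.Helper74.AS

universe u

variable {X : Type u} [NormedAddCommGroup X] [NormedSpace ℝ X] {P : Par} {δ : ℝ} {F : Fam X}
  {p : X → ℝ}

namespace Loc_aux

theorem node_var (hX : Dent X) (hP : P.Ok) (hF : MM δ F) (hδ : 0 ≤ δ) (hδ1 : δ ≤ 1 / 10)
    (hp : Sem p) (y z : X) {α β τ : ℝ} (hα : 0 < α) (hβ : 0 < β) (hτ : 0 < τ)
    (i : Option (chain P.ε p)) :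
    (node P F p y α τ i - F p y (P.κ * τ)) - (node P F p z β τ i - F p z (P.κ * τ)) ≤
      5 / 2 * (‖y - z‖ + |α - β|) := by
  have hκτ : 0 < P.κ * τ := mul_pos hP.κ0 hτ
  have hc0 := hP.c0
  have hc1 := hP.c1
  have hn := norm_nonneg (y - z)
  have ha := abs_nonneg (α - β)
  have hb := (abs_le.1 (hF.lip hp y z hκτ hκτ)).1
  rw [sub_self, abs_zero, mul_zero, add_zero] at hb
  have hδn : δ * ‖y - z‖ ≤ 1 / 10 * ‖y - z‖ := mul_le_mul_of_nonneg_right hδ1 hn
  rcases i with _ | q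
  · simp only [node]
    have h1 : P.c * α - P.c * β ≤ |α - β| := by
      have h2 : P.c * (α - β) ≤ P.c * |α - β| := mul_le_mul_of_nonneg_left (le_abs_self _) hc0.le
      have h3 : P.c * |α - β| ≤ 1 * |α - β| := mul_le_mul_of_nonneg_right (by linarith) ha
      linarith
    linarith
  · simp only [node]
    have hC := chain_spec hX hP.ε0 hp
    have hq := hC.sem q.1 q.2
    have hD := D_sem hP.ε0 hq
    have h1 := hF.lip hq y z hκτ hκτ
    have h2 := hF.lip hD y z hκτ hκτ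
    rw [sub_self, abs_zero, mul_zero, add_zero] at h1 h2
    have h3 := hh_lip hα hβ (F q.1 y (P.κ * τ) - F (D P.ε q.1) y (P.κ * τ))
      (F q.1 z (P.κ * τ) - F (D P.ε q.1) z (P.κ * τ))
    have h4 : |(F q.1 y (P.κ * τ) - F (D P.ε q.1) y (P.κ * τ)) -
        (F q.1 z (P.κ * τ) - F (D P.ε q.1) z (P.κ * τ))| ≤ 2 * ((1 + δ) * ‖y - z‖) := by
      rw [abs_le] at h1 h2 ⊢
      constructor <;> linarith [h1.1, h1.2, h2.1, h2.2]
    have h5 := (abs_le.1 (h3.trans (add_le_add le_rfl h4))).2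
    have h6 : P.c * (hh α (F q.1 y (P.κ * τ) - F (D P.ε q.1) y (P.κ * τ)) -
        hh β (F q.1 z (P.κ * τ) - F (D P.ε q.1) z (P.κ * τ))) ≤
        P.c * (|α - β| + 2 * ((1 + δ) * ‖y - z‖)) := mul_le_mul_of_nonneg_left h5 hc0.le
    have h7 : P.c * (|α - β| + 2 * ((1 + δ) * ‖y - z‖)) ≤
        1 / 1000 * (|α - β| + 2 * ((1 + δ) * ‖y - z‖)) := by
      apply mul_le_mul_of_nonneg_right hc1
      have : 0 ≤ (1 + δ) * ‖y - z‖ := mul_nonneg (by linarith) hn
      linarith
    have h8 := (abs_le.1 h1).2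
    nlinarith [h6, h7, h8, hb, hδn, hn, ha]

theorem tau_half (hX : Dent X) (hP : P.Ok) (hF : MM δ F) (hδ : 0 ≤ δ) (hδ1 : δ ≤ 1 / 10)
    (hp : Sem p) (y z : X) {α β : ℝ} (hα : 0 < α) (hβ : 0 < β) :
    tau P F p y α - tau P F p z β ≤
      5 / 2 * (‖y - z‖ + |α - β|) + |tau P F p y α - tau P F p z β| / 2 := by
  obtain ⟨h1, -, h2⟩ := tau_spec hX hP hF hδ hδ1 hp y hα
  obtain ⟨h1', -, h2'⟩ := tau_spec hX hP hF hδ hδ1 hp z hβ
  have h3 := IsSol.cmp_tau hP.η0 h2 h2'
    (L := 5 / 2 * (‖y - z‖ + |α - β|) + |tau P F p y α - tau P F p z β| / 2) (by positivity)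
    (fun i _ => by
      have h4 := (abs_le.1 (node_lip hX hP hF hδ hδ1 hp y hα h1 h1' i)).2
      have h5 := node_var hX hP hF hδ hδ1 hp y z hα hβ h1' i
      linarith)
  linarith

end Loc_aux

open Loc_aux

theorem tau_lip (hX : Dent X) (hP : P.Ok) (hF : MM δ F) (hδ : 0 ≤ δ) (hδ1 : δ ≤ 1 / 10)
    (hp : Sem p) (y z : X) {α β : ℝ} (hα : 0 < α) (hβ : 0 < β) :
    |tau P F p y α - tau P F p z β| ≤ 5 * (‖y - z‖ + |α - β|) := by
  have h1 := tau_half hX hP hF hδ hδ1 hp y z hα hβ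
  have h2 := tau_half hX hP hF hδ hδ1 hp z y hβ hα
  rw [norm_sub_rev z y, abs_sub_comm β α, abs_sub_comm (tau P F p z β)] at h2
  have h3 : |tau P F p y α - tau P F p z β| ≤
      5 / 2 * (‖y - z‖ + |α - β|) + |tau P F p y α - tau P F p z β| / 2 := by
    rw [abs_le]
    constructor <;> linarith
  linarith

theorem MM.opT (hX : Dent X) (hP : P.Ok) (hF : MM δ F) (hδ : 0 ≤ δ) (hδ1 : δ ≤ 1 / 10) :
    MM (δ * (1 + 5 * P.κ) + 5 * P.c) (T P F) := by
  have hc0 := hP.c0
  have hc1 := hP.c1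
  have hκ0 := hP.κ0
  have hκ1 := hP.κ1
  refine ⟨?_, ?_, ?_⟩
  · intro p hp x α hα
    obtain ⟨h1, h2, -⟩ := tau_spec hX hP hF hδ hδ1 hp x hα
    have h3 := hF.lo p hp x (P.κ * tau P F p x α) (mul_pos hκ0 h1)
    simp only [T]
    linarith
  · intro p hp x α hα
    obtain ⟨h1, h2, -⟩ := tau_spec hX hP hF hδ hδ1 hp x hα
    have h3 := hF.hi p hp x (P.κ * tau P F p x α) (mul_pos hκ0 h1)
    simp only [T]
    have h4 : P.κ * tau P F p x α ≤ 1 * tau P F p x α :=
      mul_le_mul_of_nonneg_right (by linarith) h1.le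
    have h5 : 2 * P.c * α ≤ 1 / 500 * α := mul_le_mul_of_nonneg_right (by linarith) hα.le
    linarith
  · intro p hp y z α β s hα hβ hs
    obtain ⟨h1, h2, h3⟩ := tau_spec hX hP hF hδ hδ1 hp y hα
    obtain ⟨h1', h2', h3'⟩ := tau_spec hX hP hF hδ hδ1 hp z hβ
    have hl := tau_lip hX hP hF hδ hδ1 hp y z hα hβ
    simp only [T]
    set τ := tau P F p y α with hτ
    set τ' := tau P F p z β with hτ'
    set E := ‖y - z‖ + |α - β| with hE
    have hn := norm_nonneg (y - z)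
    have ha := abs_nonneg (α - β)
    have hE0 : 0 ≤ E := by rw [hE]; linarith
    have hκτ : 0 < P.κ * τ := mul_pos hκ0 h1
    have hκτ' : 0 < P.κ * τ' := mul_pos hκ0 h1'
    have hk : |P.κ * τ - P.κ * τ'| ≤ 5 * P.κ * E := by
      rw [← mul_sub, abs_mul, abs_of_pos hκ0]
      have := mul_le_mul_of_nonneg_left hl hκ0.le
      linarith
    have hcα : P.c * α ≤ 1 / 1000 * α := mul_le_mul_of_nonneg_right hc1 hα.le
    have hκτα : P.κ * τ ≤ 1 / 500 * α := by
      have h4 : P.κ * τ ≤ 1 * τ := mul_le_mul_of_nonneg_right (by linarith) h1.le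
      have h5 : 2 * P.c * α ≤ 1 / 500 * α := mul_le_mul_of_nonneg_right (by linarith) hα.le
      linarith
    have hδE : δ * (‖y - z‖ + |P.κ * τ - P.κ * τ'|) ≤ δ * (1 + 5 * P.κ) * E := by
      have h4 : ‖y - z‖ + |P.κ * τ - P.κ * τ'| ≤ (1 + 5 * P.κ) * E := by
        have : ‖y - z‖ ≤ E := by rw [hE]; linarith
        linarith
      have h5 := mul_le_mul_of_nonneg_left h4 hδ
      linarith
    have hcE : 0 ≤ P.c * E := mul_nonneg hc0.le hE0
    have hδE0 : 0 ≤ δ * (1 + 5 * P.κ) * E :=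
      mul_nonneg (mul_nonneg hδ (by linarith)) hE0
    have hmain := IsSol.cmp hP.η0 h3 h3' (L := s + (δ * (1 + 5 * P.κ) + 5 * P.c) * E) ?_ ?_
    · exact hmain
    · have h4 := hF.loc p hp y z (P.κ * τ) (P.κ * τ') s hκτ hκτ'
        (fun φ hφ h5 => hs φ hφ (by linarith))
      linarith
    · intro i hi
      rcases i with _ | q
      · simp only [node] at hi ⊢
        have h4 := hF.lo p hp y (P.κ * τ) hκτ
        have h5 := hs 0 (K_zero hp) (by
          rw [ContinuousLinearMap.zero_apply]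
          linarith)
        rw [ContinuousLinearMap.zero_apply] at h5
        have h6 : P.c * (α - β) ≤ P.c * E := by
          apply mul_le_mul_of_nonneg_left _ hc0.le
          have := le_abs_self (α - β)
          rw [hE]
          linarith
        linarith
      · have hact := node_active hX hP hF hp y hα h1 q hi
        simp only [node]
        have hC := chain_spec hX hP.ε0 hp
        have hq := hC.sem q.1 q.2
        have hD := D_sem hP.ε0 hq
        have h4 := hF.loc q.1 hq y z (P.κ * τ) (P.κ * τ') s hκτ hκτ'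
          (fun φ hφ h5 => hs φ (K_mono (hC.le q.1 q.2) hφ) (by linarith [hact.2]))
        have h5 := hF.lip hq y z hκτ hκτ'
        have h6 := hF.lip hD y z hκτ hκτ'
        have h7 := hh_lip hα hβ (F q.1 y (P.κ * τ) - F (D P.ε q.1) y (P.κ * τ))
          (F q.1 z (P.κ * τ') - F (D P.ε q.1) z (P.κ * τ'))
        have h8 : (1 + δ) * ‖y - z‖ + δ * |P.κ * τ - P.κ * τ'| ≤
            (1 + 1 / 10) * ‖y - z‖ + 1 / 10 * (5 * P.κ * E) :=
          add_le_add (mul_le_mul_of_nonneg_right (by linarith) hn)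
            (mul_le_mul hδ1 hk (abs_nonneg _) (by norm_num))
        have h9 : 5 * P.κ * E ≤ 5 * (1 / 1000) * E :=
          mul_le_mul_of_nonneg_right (by linarith) hE0
        have h10 : |(F q.1 y (P.κ * τ) - F (D P.ε q.1) y (P.κ * τ)) -
            (F q.1 z (P.κ * τ') - F (D P.ε q.1) z (P.κ * τ'))| ≤
            2 * ((1 + 1 / 10) * ‖y - z‖ + 1 / 10 * (5 * P.κ * E)) := by
          rw [abs_le] at h5 h6 ⊢
          constructor <;> linarith [h5.1, h5.2, h6.1, h6.2]
        have h11 : hh α (F q.1 y (P.κ * τ) - F (D P.ε q.1) y (P.κ * τ)) -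
            hh β (F q.1 z (P.κ * τ') - F (D P.ε q.1) z (P.κ * τ')) ≤ 5 * E := by
          have h12 := (abs_le.1 h7).2
          have h13 : ‖y - z‖ + |α - β| = E := hE.symm
          linarith
        have h14 := mul_le_mul_of_nonneg_left h11 hc0.le
        linarith

end Pool.Agent.Helper74.AS
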