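import Pool.Agent.Helper74.AS.Defs

/-!
AS-4. Existence of a solution of the equation (abstract).

Let `r` be from `hpos`, `τ₁ = min (r / (2 * (1 + η))) (M / 2)`, `S` the finset for `τ₀ = τ₁`.
`g τ = ∑ i ∈ S, (max (v i τ - b τ - τ) 0)² - η² τ²` is continuous on `[τ₁, M]` (each `v i - b` is
Lipschitz on `(0, ∞)`), `g τ₁ ≥ 0` (the index `i` of `hpos` is in `S`, since `v i τ₁ - b τ₁ ≥ r > τ₁`,
and `r - τ₁ ≥ η τ₁`), `g M < 0`. Intermediate value theorem.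
-/

set_option autoImplicit false

open scoped Topology
open Filter Set

namespace Pool.Agent.Helper74.AS

theorem exists_root {ι : Type*} {η M : ℝ} (hη : 0 < η) (hM : 0 < M) (b : ℝ → ℝ) (v : ι → ℝ → ℝ)
    (hlip : ∀ i, ∀ τ > 0, ∀ τ' > 0, |(v i τ - b τ) - (v i τ' - b τ')| ≤ |τ - τ'| / 2)
    (hfin : ∀ τ₀ > 0, ∃ S : Finset ι, ∀ i, i ∉ S → ∀ τ ≥ τ₀, v i τ - b τ ≤ τ)
    (hpos : ∃ i, ∃ r > 0, ∀ τ, 0 < τ → τ < r → r ≤ v i τ - b τ)
    (hlast : ∀ i, v i M - b M ≤ M) :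
    ∃ τ, 0 < τ ∧ τ ≤ M ∧ IsSol η (fun i => v i τ) (b τ) (b τ + τ) := by
  obtain ⟨i₀, r, hr, hpos⟩ := hpos
  have hη1 : 0 < 2 * (1 + η) := by linarith
  set τ₁ : ℝ := min (r / (2 * (1 + η))) (M / 2) with hτ₁
  have hτ₁0 : 0 < τ₁ := lt_min (div_pos hr hη1) (by linarith)
  have hτ₁M : τ₁ ≤ M := (min_le_right _ _).trans (by linarith)
  have hτ₁r : 2 * (1 + η) * τ₁ ≤ r := by
    have h1 : τ₁ ≤ r / (2 * (1 + η)) := min_le_left _ _
    have h2 := mul_le_mul_of_nonneg_left h1 hη1.le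
    rwa [mul_div_cancel₀ _ hη1.ne'] at h2
  have hητ : 0 < η * τ₁ := mul_pos hη hτ₁0
  have hτ₁r' : τ₁ < r := by nlinarith
  obtain ⟨S, hS⟩ := hfin τ₁ hτ₁0
  have hi₀ : r ≤ v i₀ τ₁ - b τ₁ := hpos τ₁ hτ₁0 hτ₁r'
  have hi₀S : i₀ ∈ S := by
    by_contra hni
    have := hS i₀ hni τ₁ le_rfl
    linarith
  set g : ℝ → ℝ := fun τ => ∑ i ∈ S, (max (v i τ - b τ - τ) 0) ^ 2 - η ^ 2 * τ ^ 2 with hg
  have hcont : ContinuousOn g (Icc τ₁ M) := by
    have h1 : ∀ i, ContinuousOn (fun τ => v i τ - b τ) (Icc τ₁ M) := by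
      intro i
      have hL : LipschitzOnWith (1 / 2) (fun τ => v i τ - b τ) (Icc τ₁ M) := by
        apply LipschitzOnWith.of_dist_le_mul
        intro x hx y hy
        rw [Real.dist_eq, Real.dist_eq]
        have := hlip i x (lt_of_lt_of_le hτ₁0 hx.1) y (lt_of_lt_of_le hτ₁0 hy.1)
        have h2 : (((1 / 2 : NNReal) : ℝ)) = 1 / 2 := by norm_num
        rw [h2]
        linarith
      exact hL.continuousOn
    refine ContinuousOn.sub ?_ (by fun_prop)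
    refine continuousOn_finsetSum _ fun i _ => ?_
    exact (((h1 i).sub continuousOn_id).sup continuousOn_const).pow 2
  have hg1 : 0 ≤ g τ₁ := by
    have h1 : (max (v i₀ τ₁ - b τ₁ - τ₁) 0) ^ 2 ≤ ∑ i ∈ S, (max (v i τ₁ - b τ₁ - τ₁) 0) ^ 2 :=
      Finset.single_le_sum (f := fun i => (max (v i τ₁ - b τ₁ - τ₁) 0) ^ 2)
        (fun i _ => sq_nonneg _) hi₀S
    have h2 : η * τ₁ ≤ max (v i₀ τ₁ - b τ₁ - τ₁) 0 := by
      refine le_trans ?_ (le_max_left _ _)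
      nlinarith
    have h3 : (η * τ₁) ^ 2 ≤ (max (v i₀ τ₁ - b τ₁ - τ₁) 0) ^ 2 :=
      pow_le_pow_left₀ hητ.le h2 2
    have h4 : (η * τ₁) ^ 2 = η ^ 2 * τ₁ ^ 2 := by ring
    simp only [hg]
    linarith
  have hgM : g M ≤ 0 := by
    have h1 : ∑ i ∈ S, (max (v i M - b M - M) 0) ^ 2 = 0 := by
      refine Finset.sum_eq_zero fun i _ => ?_
      rw [max_eq_right (by linarith [hlast i])]
      norm_num
    simp only [hg]
    rw [h1]
    nlinarith [sq_nonneg (η * M)]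
  obtain ⟨τ, hτ, hgτ⟩ := intermediate_value_Icc' hτ₁M hcont ⟨hgM, hg1⟩
  have hτ0 : 0 < τ := lt_of_lt_of_le hτ₁0 hτ.1
  refine ⟨τ, hτ0, hτ.2, by linarith, S, fun i hi => ?_, ?_⟩
  · have := hS i hi τ hτ.1
    show v i τ ≤ b τ + τ
    linarith
  · show ∑ i ∈ S, (max (v i τ - (b τ + τ)) 0) ^ 2 = η ^ 2 * (b τ + τ - b τ) ^ 2
    have h1 : ∀ i, v i τ - (b τ + τ) = v i τ - b τ - τ := fun i => by ring
    have h2 : b τ + τ - b τ = τ := by ring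
    simp only [h1, h2]
    simp only [hg] at hgτ
    linarith

end Pool.Agent.Helper74.AS
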