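import Pool.Agent.Helper74.AS.Fin
import Pool.Agent.Helper74.AS.Chn
import Pool.Agent.Helper74.AS.Root
import Pool.Agent.Helper74.AS.HH

/-!
AS-7. Facts on the nodes and existence of `tau`.

Write `b τ = F p x (κ τ)`, `u i τ = node i - b τ`.
* `MM.lip`: `MM.loc` with `s = ‖x - z‖` (since `φ (x - z) ≤ q (x - z) ≤ ‖x - z‖`) in both directions.
  `MM.lip_a`: `MM.loc` with `y = z`, `s = 0`.
* `node_le`: for `none`: `c α - b ≤ c α` as `b ≥ p x ≥ 0`. For `some q`: `F q x (κτ) ≤ q x + κτ ≤ p x + κτ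
  ≤ b + κτ` and `hh ≤ α`.
* `node_lip`: `|u i τ - u i τ'| ≤ (2 + 2c) δ κ |τ - τ'| ≤ |τ - τ'| / 2` by `MM.lip_a`, `hh_lip`
  (`a = b = α`). (`D ε q` is `Sem` by `D_sem`.)
* `node_active`: `u > τ` gives `c * hh α j > τ - κτ ≥ τ/2`, `hh ≤ max j 0`, so `j > τ/(2c)` where
  `j ≤ q x + κτ - D q x`, and `κτ ≤ τ/(4c)`. And `q x + κτ + c α ≥ node > b + τ ≥ p x + τ`.
* `exists_tau`: `exists_root` with `M = 2 c α`. `hfin`: the set
  `{q ∈ chain | τ₀/(4c) ≤ q x - D q x}` is finite (`Chain.fin`), plus the index `none`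
  (use `node_active` contrapositively; the finset lives in `Option ↥(chain ε p)`).
  `hpos`: if `0 < p x` take `q` from `Chain.jump`, `j₀ = p x - D q x`,
  `u ≥ -κτ + c * hh α (j₀ - κτ) ≥ -κτ + c * hh α (j₀/2)` when `κτ ≤ j₀/2`, and choose `r` small.
  If `p x = 0`: `u none = c α - b ≥ c α - κτ`. `hlast`: `node_le`.
-/

set_option autoImplicit false

open scoped Topology
open Filter Set

namespace Pool.Agent.Helper74.AS

universe u

variable {X : Type u} [NormedAddCommGroup X] [NormedSpace ℝ X] {P : Par} {δ : ℝ} {F : Fam X}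
  {p q : X → ℝ}

theorem MM.lip (hF : MM δ F) (hq : Sem q) (x z : X) {α β : ℝ} (hα : 0 < α) (hβ : 0 < β) :
    |F q x α - F q z β| ≤ (1 + δ) * ‖x - z‖ + δ * |α - β| := by
  have h1 := hF.loc q hq x z α β ‖x - z‖ hα hβ (fun φ hφ _ => (hφ (x - z)).trans (hq.le _))
  have h2 := hF.loc q hq z x β α ‖z - x‖ hβ hα (fun φ hφ _ => (hφ (z - x)).trans (hq.le _))
  rw [norm_sub_rev z x, abs_sub_comm β α] at h2
  rw [abs_le]
  constructor <;> linarith

theorem MM.lip_a (hF : MM δ F) (hq : Sem q) (x : X) {α β : ℝ} (hα : 0 < α) (hβ : 0 < β) :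
    |F q x α - F q x β| ≤ δ * |α - β| := by
  have h1 := hF.loc q hq x x α β 0 hα hβ (fun φ _ _ => by rw [sub_self, map_zero])
  have h2 := hF.loc q hq x x β α 0 hβ hα (fun φ _ _ => by rw [sub_self, map_zero])
  rw [sub_self, norm_zero, zero_add, zero_add] at h1 h2
  rw [abs_sub_comm β α] at h2
  rw [abs_le]
  constructor <;> linarith

theorem node_le (hX : Dent X) (hP : P.Ok) (hF : MM δ F) (hp : Sem p) (x : X) {α τ : ℝ}
    (hα : 0 < α) (hτ : 0 < τ) (i : Option (chain P.ε p)) :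
    node P F p x α τ i - F p x (P.κ * τ) ≤ P.κ * τ + P.c * α := by
  have hκτ : 0 < P.κ * τ := mul_pos hP.κ0 hτ
  have hb := hF.lo p hp x _ hκτ
  have hp0 := hp.nonneg x
  match i with
  | none =>
    change P.c * α - F p x (P.κ * τ) ≤ _
    linarith
  | some q =>
    have hC := chain_spec hX hP.ε0 hp
    have hq := hC.sem q.1 q.2
    have h1 := hF.hi q.1 hq x _ hκτ
    have h2 := hC.le q.1 q.2 x
    have h3 := mul_le_mul_of_nonneg_left (hh_le_left hα
      (F q.1 x (P.κ * τ) - F (D P.ε q.1) x (P.κ * τ))) hP.c0.le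
    change F q.1 x (P.κ * τ) + P.c * hh α (F q.1 x (P.κ * τ) - F (D P.ε q.1) x (P.κ * τ)) -
      F p x (P.κ * τ) ≤ _
    linarith

theorem node_lip (hX : Dent X) (hP : P.Ok) (hF : MM δ F) (hδ : 0 ≤ δ) (hδ1 : δ ≤ 1 / 10)
    (hp : Sem p) (x : X) {α τ τ' : ℝ} (hα : 0 < α) (hτ : 0 < τ) (hτ' : 0 < τ')
    (i : Option (chain P.ε p)) :
    |(node P F p x α τ i - F p x (P.κ * τ)) - (node P F p x α τ' i - F p x (P.κ * τ'))| ≤
      |τ - τ'| / 2 := by
  have hκτ : 0 < P.κ * τ := mul_pos hP.κ0 hτ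
  have hκτ' : 0 < P.κ * τ' := mul_pos hP.κ0 hτ'
  have hk : ∀ q, Sem q → |F q x (P.κ * τ) - F q x (P.κ * τ')| ≤ |τ - τ'| / 10000 := by
    intro q hq
    have h1 := hF.lip_a hq x hκτ hκτ'
    have h2 : |P.κ * τ - P.κ * τ'| = P.κ * |τ - τ'| := by
      rw [← mul_sub, abs_mul, abs_of_pos hP.κ0]
    rw [h2] at h1
    refine h1.trans ?_
    have h3 : P.κ * |τ - τ'| ≤ 1 / 1000 * |τ - τ'| :=
      mul_le_mul_of_nonneg_right hP.κ1 (abs_nonneg _)
    have h4 : δ * (P.κ * |τ - τ'|) ≤ 1 / 10 * (1 / 1000 * |τ - τ'|) :=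
      mul_le_mul hδ1 h3 (mul_nonneg hP.κ0.le (abs_nonneg _)) (by norm_num)
    linarith
  have hpb := abs_le.1 (hk p hp)
  have habs := abs_nonneg (τ - τ')
  match i with
  | none =>
    change |(P.c * α - F p x (P.κ * τ)) - (P.c * α - F p x (P.κ * τ'))| ≤ _
    rw [abs_le]
    constructor <;> linarith [hpb.1, hpb.2]
  | some q =>
    have hC := chain_spec hX hP.ε0 hp
    have hq := hC.sem q.1 q.2
    have h1 := abs_le.1 (hk q.1 hq)
    have h2 := abs_le.1 (hk (D P.ε q.1) (D_sem hP.ε0 hq))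
    have h3 := hh_lip hα hα (F q.1 x (P.κ * τ) - F (D P.ε q.1) x (P.κ * τ))
      (F q.1 x (P.κ * τ') - F (D P.ε q.1) x (P.κ * τ'))
    have h4 : |(F q.1 x (P.κ * τ) - F (D P.ε q.1) x (P.κ * τ)) -
        (F q.1 x (P.κ * τ') - F (D P.ε q.1) x (P.κ * τ'))| ≤ |τ - τ'| / 5000 := by
      rw [abs_le]
      constructor <;> linarith [h1.1, h1.2, h2.1, h2.2]
    rw [sub_self, abs_zero, zero_add] at h3
    have h5 := abs_le.1 (h3.trans h4)
    have h6 : P.c * (|τ - τ'| / 5000) ≤ 1 / 1000 * (|τ - τ'| / 5000) :=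
      mul_le_mul_of_nonneg_right hP.c1 (by linarith)
    have h7 := mul_le_mul_of_nonneg_left h5.1 hP.c0.le
    have h8 := mul_le_mul_of_nonneg_left h5.2 hP.c0.le
    change |(F q.1 x (P.κ * τ) + P.c * hh α (F q.1 x (P.κ * τ) - F (D P.ε q.1) x (P.κ * τ)) -
        F p x (P.κ * τ)) - (F q.1 x (P.κ * τ') + P.c * hh α (F q.1 x (P.κ * τ') -
        F (D P.ε q.1) x (P.κ * τ')) - F p x (P.κ * τ'))| ≤ _
    rw [abs_le]
    constructor <;> linarith [h1.1, h1.2, hpb.1, hpb.2]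

theorem node_active (hX : Dent X) (hP : P.Ok) (hF : MM δ F) (hp : Sem p) (x : X) {α τ : ℝ}
    (hα : 0 < α) (hτ : 0 < τ) (i : chain P.ε p)
    (h : F p x (P.κ * τ) + τ < node P F p x α τ (some i)) :
    τ / (4 * P.c) ≤ i.1 x - D P.ε i.1 x ∧ p x - P.c * α ≤ i.1 x := by
  have hκτ : 0 < P.κ * τ := mul_pos hP.κ0 hτ
  have hb := hF.lo p hp x _ hκτ
  have hC := chain_spec hX hP.ε0 hp
  have hq := hC.sem i.1 i.2
  have h1 := hF.hi i.1 hq x _ hκτ
  have h2 := hC.le i.1 i.2 x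
  have h3 := hF.lo (D P.ε i.1) (D_sem hP.ε0 hq) x _ hκτ
  have hκ : P.κ * τ ≤ 1 / 1000 * τ := mul_le_mul_of_nonneg_right hP.κ1 hτ.le
  set j : ℝ := F i.1 x (P.κ * τ) - F (D P.ε i.1) x (P.κ * τ) with hj
  have h' : F p x (P.κ * τ) + τ < F i.1 x (P.κ * τ) + P.c * hh α j := h
  have h4 := mul_le_mul_of_nonneg_left (hh_le_left hα j) hP.c0.le
  have h5 := mul_le_mul_of_nonneg_left (hh_le_right hα j) hP.c0.le
  have hc := hP.c0
  constructor
  · have h6 : τ / 2 < P.c * max j 0 := by linarith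
    have hj0 : 0 < j := by
      by_contra hn
      rw [max_eq_right (not_lt.1 hn), mul_zero] at h6
      linarith
    rw [max_eq_left hj0.le] at h6
    have h7 : P.κ * τ * P.c ≤ τ / 4 := by
      have : P.κ * τ * P.c ≤ 1 / 1000 * τ * (1 / 1000) :=
        mul_le_mul hκ hP.c1 hc.le (by linarith)
      linarith
    rw [div_le_iff₀ (by linarith)]
    have h8 : j ≤ i.1 x + P.κ * τ - D P.ε i.1 x := by linarith
    have h9 := mul_le_mul_of_nonneg_left h8 hc.le
    nlinarith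
  · linarith

theorem exists_tau (hX : Dent X) (hP : P.Ok) (hF : MM δ F) (hδ : 0 ≤ δ) (hδ1 : δ ≤ 1 / 10)
    (hp : Sem p) (x : X) {α : ℝ} (hα : 0 < α) : ∃ τ, IsTau P F p x α τ := by
  have hC := chain_spec hX hP.ε0 hp
  have hc := hP.c0
  have hcα : 0 < P.c * α := mul_pos hc hα
  have hM : 0 < 2 * P.c * α := by linarith
  have hκle : ∀ τ : ℝ, 0 < τ → P.κ * τ ≤ 1 / 1000 * τ := fun τ hτ =>
    mul_le_mul_of_nonneg_right hP.κ1 hτ.le
  refine exists_root (ι := Option (chain P.ε p)) hP.η0 hM (fun τ => F p x (P.κ * τ))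
    (fun i τ => node P F p x α τ i) ?_ ?_ ?_ ?_
  · intro i τ hτ τ' hτ'
    exact node_lip hX hP hF hδ hδ1 hp x hα hτ hτ' i
  · intro τ₀ hτ₀
    have hfin := Chain.fin hP.ε0 hC x (r := τ₀ / (4 * P.c)) (by positivity)
    have h1 : {q : chain P.ε p | τ₀ / (4 * P.c) ≤ q.1 x - D P.ε q.1 x}.Finite := by
      refine (hfin.preimage (f := fun q : chain P.ε p => q.1)
        Subtype.val_injective.injOn).subset ?_
      intro q hq
      exact ⟨q.2, hq⟩
    have h2 : (insert none (some '' {q : chain P.ε p | τ₀ / (4 * P.c) ≤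
        q.1 x - D P.ε q.1 x})).Finite := (h1.image some).insert none
    refine ⟨h2.toFinset, ?_⟩
    intro i hi τ hτ
    rw [Set.Finite.mem_toFinset] at hi
    match i with
    | none => exact absurd (Set.mem_insert _ _) hi
    | some q =>
      by_contra hn
      have hτ0 : 0 < τ := lt_of_lt_of_le hτ₀ hτ
      have h3 := (node_active hX hP hF hp x hα hτ0 q (by
        have := not_le.1 hn
        linarith)).1
      refine hi (Set.mem_insert_of_mem _ ⟨q, ?_, rfl⟩)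
      exact (div_le_div_of_nonneg_right hτ (by linarith)).trans h3
  · rcases (hp.nonneg x).lt_or_eq with hpx | hpx
    · obtain ⟨q, hq, hq1, hq2⟩ := hC.jump x hpx
      have hsq := hC.sem q hq
      set j₀ : ℝ := p x - D P.ε q x with hj₀
      have hj₀0 : 0 < j₀ := by linarith
      have hA : 0 < P.c * hh α (j₀ / 2) := mul_pos hc (hh_pos hα (by linarith))
      refine ⟨some ⟨q, hq⟩, min (j₀ / 2) (P.c * hh α (j₀ / 2) / 2),
        lt_min (by linarith) (by linarith), ?_⟩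
      intro τ hτ hτr
      have hτ1 : τ < j₀ / 2 := lt_of_lt_of_le hτr (min_le_left _ _)
      have hτ2 : τ < P.c * hh α (j₀ / 2) / 2 := lt_of_lt_of_le hτr (min_le_right _ _)
      have hκτ : 0 < P.κ * τ := mul_pos hP.κ0 hτ
      have hk := hκle τ hτ
      have h1 := hF.lo q hsq x _ hκτ
      have h2 := hF.hi (D P.ε q) (D_sem hP.ε0 hsq) x _ hκτ
      have h3 := hF.hi p hp x _ hκτ
      have h4 : j₀ / 2 ≤ F q x (P.κ * τ) - F (D P.ε q) x (P.κ * τ) := by linarith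
      have h5 := mul_le_mul_of_nonneg_left (hh_mono hα h4) hc.le
      change min (j₀ / 2) (P.c * hh α (j₀ / 2) / 2) ≤ F q x (P.κ * τ) +
        P.c * hh α (F q x (P.κ * τ) - F (D P.ε q) x (P.κ * τ)) - F p x (P.κ * τ)
      refine (min_le_right _ _).trans ?_
      linarith
    · refine ⟨none, P.c * α / 2, by linarith, ?_⟩
      intro τ hτ hτr
      have hκτ : 0 < P.κ * τ := mul_pos hP.κ0 hτ
      have hk := hκle τ hτ
      have h3 := hF.hi p hp x _ hκτ
      change P.c * α / 2 ≤ P.c * α - F p x (P.κ * τ)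
      linarith
  · intro i
    have h1 := node_le hX hP hF hp x hα hM i
    have hk := hκle _ hM
    change node P F p x α (2 * P.c * α) i - F p x (P.κ * (2 * P.c * α)) ≤ 2 * P.c * α
    linarith

theorem tau_spec (hX : Dent X) (hP : P.Ok) (hF : MM δ F) (hδ : 0 ≤ δ) (hδ1 : δ ≤ 1 / 10)
    (hp : Sem p) (x : X) {α : ℝ} (hα : 0 < α) : IsTau P F p x α (tau P F p x α) := by
  have h := exists_tau hX hP hF hδ hδ1 hp x hα
  rw [tau, dif_pos h]
  exact h.choose_spec

end Pool.Agent.Helper74.AS
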