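import Pool.Agent.Helper74.AS.Nodes
import Pool.Agent.Helper74.AS.Flat1

/-!
AS-14. Flatness of admissible families: always `2`, and small at good points.

`flat_two`: `MM.lip` and `(1 + δ)‖x - z‖ + δ|α - β| ≤ (1 + 2δ)‖(x, α) - (z, β)‖`.
`flat_good`: let `φ₀ ∈ K q` with `φ₀ x = q x` (`Sem.attain`). Let `y, z` be within `α/8` of `x`
and `a, a'` within `α/8` of `α`. If `φ ∈ K q` and `q y - a ≤ φ y` then
`φ x ≥ φ y - ‖x - y‖ ≥ q y - a - ‖x - y‖ ≥ q x - 2‖x - y‖ - a ≥ q x - 2α`, so `‖φ - φ₀‖ ≤ 2ε` by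
`Good` and `φ (y - z) ≤ φ₀ (y - z) + 2ε‖y - z‖ =: s`; `MM.loc` gives
`F q y a - F q z a' ≤ φ₀ (y - z) + 2ε‖y - z‖ + δ(‖y - z‖ + |a - a'|)`. The functional is
`(x, a) ↦ φ₀ x`.
-/

set_option autoImplicit false

open scoped Topology
open Filter Set

namespace Pool.Agent.Helper74.AS

universe u

variable {X : Type u} [NormedAddCommGroup X] [NormedSpace ℝ X] {δ : ℝ} {F : Fam X} {q : X → ℝ}

namespace RGood_aux

/-- points near `(x, α)` in both variables -/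
theorem near_both (x : X) {α r : ℝ} (hr : 0 < r) :
    ∀ᶠ p in 𝓝 (((x, α) : X × ℝ), ((x, α) : X × ℝ)),
      (‖p.1.1 - x‖ < r ∧ |p.1.2 - α| < r) ∧ (‖p.2.1 - x‖ < r ∧ |p.2.2 - α| < r) := by
  have h0 : ∀ᶠ e in 𝓝 ((x, α) : X × ℝ), ‖e.1 - x‖ < r ∧ |e.2 - α| < r := by
    filter_upwards [Metric.ball_mem_nhds ((x, α) : X × ℝ) hr] with e he
    rw [Metric.mem_ball, Prod.dist_eq, max_lt_iff] at he
    refine ⟨?_, ?_⟩
    · rw [← dist_eq_norm]; exact he.1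
    · rw [← Real.dist_eq]; exact he.2
  rw [nhds_prod_eq]
  exact h0.prod_mk h0

theorem le_max1 (e e' : X × ℝ) : ‖e.1 - e'.1‖ ≤ ‖e - e'‖ := by
  rw [Prod.norm_def]
  exact le_max_left _ _

theorem le_max2 (e e' : X × ℝ) : |e.2 - e'.2| ≤ ‖e - e'‖ := by
  rw [Prod.norm_def, ← Real.norm_eq_abs]
  exact le_max_right _ _

end RGood_aux

open RGood_aux

theorem MM.lip_fn (hF : MM δ F) (hδ : 0 ≤ δ) (hδ1 : δ ≤ 1 / 10) (hq : Sem q) (x : X) {α : ℝ}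
    (hα : 0 < α) :
    ∀ᶠ p in 𝓝 (((x, α) : X × ℝ), ((x, α) : X × ℝ)), |fn F q p.1 - fn F q p.2| ≤
      2 * ‖p.1 - p.2‖ := by
  filter_upwards [near_both x (α := α) (half_pos hα)] with p hp
  obtain ⟨⟨-, h1⟩, -, h2⟩ := hp
  have a1 : 0 < p.1.2 := by
    have := (abs_lt.1 h1).1
    linarith
  have a2 : 0 < p.2.2 := by
    have := (abs_lt.1 h2).1
    linarith
  have h := hF.lip hq p.1.1 p.2.1 a1 a2
  have n1 := le_max1 p.1 p.2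
  have n2 := le_max2 p.1 p.2
  have n0 := norm_nonneg (p.1 - p.2)
  have n3 := norm_nonneg (p.1.1 - p.2.1)
  change |F q p.1.1 p.1.2 - F q p.2.1 p.2.2| ≤ _
  have e1 : (1 + δ) * ‖p.1.1 - p.2.1‖ ≤ (1 + δ) * ‖p.1 - p.2‖ :=
    mul_le_mul_of_nonneg_left n1 (by linarith)
  have e2 : δ * |p.1.2 - p.2.2| ≤ δ * ‖p.1 - p.2‖ := mul_le_mul_of_nonneg_left n2 hδ
  have e3 : δ * ‖p.1 - p.2‖ ≤ 1 / 10 * ‖p.1 - p.2‖ := mul_le_mul_of_nonneg_right hδ1 n0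
  nlinarith

theorem MM.flat_two (hF : MM δ F) (hδ : 0 ≤ δ) (hδ1 : δ ≤ 1 / 10) (hq : Sem q) (x : X) {α : ℝ}
    (hα : 0 < α) : Flat 2 (fn F q) (x, α) := by
  exact Flat.of_lip (by norm_num) (hF.lip_fn hδ hδ1 hq x hα)

namespace RGood_aux

/-- one direction of the estimate at a good point -/
theorem one_dir (hF : MM δ F) (hδ : 0 ≤ δ) (hq : Sem q) {x : X} {α ε : ℝ}
    (hg : Good ε q x α) {φ₀ : X →L[ℝ] ℝ} (h0 : φ₀ ∈ K q) (h1 : φ₀ x = q x)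
    {y z : X} {a b : ℝ} (ha : 0 < a) (hb : 0 < b) (hy : ‖y - x‖ < α / 8) (haα : |a - α| < α / 8) :
    F q y a - F q z b ≤ φ₀ (y - z) + 2 * ε * ‖y - z‖ + δ * (‖y - z‖ + |a - b|) := by
  have hα : 0 < α := by
    have := (norm_nonneg (y - x)).trans_lt hy
    linarith
  refine hF.loc q hq y z a b _ ha hb fun φ hφ hφy => ?_
  have k1 : φ (y - x) ≤ ‖y - x‖ := (hφ (y - x)).trans (hq.le _)
  have k2 := (abs_le.1 (hq.lip y x)).1
  have k3 := (abs_lt.1 haα).2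
  rw [map_sub] at k1
  have k4 : q x - 2 * α ≤ φ x := by linarith
  have k5 : q x - 2 * α ≤ φ₀ x := by rw [h1]; linarith
  have k6 := hg φ hφ φ₀ h0 k4 k5
  have k7 : (φ - φ₀) (y - z) ≤ 2 * ε * ‖y - z‖ :=
    (le_abs_self _).trans (((φ - φ₀).le_opNorm (y - z)).trans
      (mul_le_mul_of_nonneg_right k6 (norm_nonneg _)))
  rw [ContinuousLinearMap.sub_apply] at k7
  linarith

end RGood_aux

theorem MM.flat_good (hF : MM δ F) (hδ : 0 ≤ δ) (hq : Sem q) {x : X} {α ε : ℝ} (hα : 0 < α)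
    (hε : 0 ≤ ε) (hg : Good ε q x α) : Flat (2 * ε + 2 * δ) (fn F q) (x, α) := by
  intro m hm
  obtain ⟨φ₀, h0, h1⟩ := hq.attain x
  refine ⟨φ₀.comp (ContinuousLinearMap.fst ℝ X ℝ), ?_⟩
  filter_upwards [near_both x (α := α) (r := α / 8) (by linarith)] with p hp
  obtain ⟨⟨p1, p2⟩, p3, p4⟩ := hp
  have a1 : 0 < p.1.2 := by
    have := (abs_lt.1 p2).1
    linarith
  have a2 : 0 < p.2.2 := by
    have := (abs_lt.1 p4).1
    linarith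
  have e1 := one_dir hF hδ hq hg h0 h1 (z := p.2.1) a1 a2 p1 p2
  have e2 := one_dir hF hδ hq hg h0 h1 (z := p.1.1) a2 a1 p3 p4
  rw [norm_sub_rev p.2.1, abs_sub_comm p.2.2, ← neg_sub p.1.1 p.2.1, map_neg] at e2
  have n1 := le_max1 p.1 p.2
  have n2 := le_max2 p.1 p.2
  have n0 := norm_nonneg (p.1 - p.2)
  change |F q p.1.1 p.1.2 - F q p.2.1 p.2.2 - φ₀ (p.1.1 - p.2.1)| ≤ m * ‖p.1 - p.2‖
  have f1 : 2 * ε * ‖p.1.1 - p.2.1‖ ≤ 2 * ε * ‖p.1 - p.2‖ :=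
    mul_le_mul_of_nonneg_left n1 (by linarith)
  have f2 : δ * (‖p.1.1 - p.2.1‖ + |p.1.2 - p.2.2|) ≤ δ * (2 * ‖p.1 - p.2‖) :=
    mul_le_mul_of_nonneg_left (by linarith) hδ
  have f3 : (2 * ε + 2 * δ) * ‖p.1 - p.2‖ ≤ m * ‖p.1 - p.2‖ :=
    mul_le_mul_of_nonneg_right hm.le n0
  rw [abs_le]
  constructor
  · linarith
  · linarith

end Pool.Agent.Helper74.AS
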