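import Pool.Agent.Helper74.AS.RGood
import Pool.Agent.Helper74.AS.Loc
import Pool.Agent.Helper74.AS.Flat2
import Pool.Agent.Helper74.AS.Flat3

/-!
AS-15. One step of the improvement of flatness.

Fix `p`, `e₀ = (x₀, α₀)`; `τ e = tau P G p e.1 e.2`, `σ e = κ τ e`, `τ₀ = τ e₀ > 0`,
`b e = G p e.1 (σ e)`, `t e = b e + τ e = F p e.1 e.2` (for `e.2 > 0`, i.e. near `e₀`).
`τ` is `10`-Lipschitz near `e₀` (`tau_lip`, sup norm), `σ` is `1`-Lipschitz.
`S₀ = {q ∈ chain | τ₀/(8c) ≤ q x₀ - D q x₀}` is finite (`Chain.fin`). Near `e₀` (`τ e ≥ τ₀/2` is not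
needed exactly: `τ e / (4c) - 2‖x - x₀‖ ≥ τ₀/(8c)`) every active node `some q` has `q ∈ S₀`
(`node_active`, `Sem.lip` for `q` and `D q`). So the equation of `IsTau` can be written as a sum
over the fixed finset `S = {none} ∪ S₀` near `e₀` (the terms outside the finset of `IsSol` and
those outside `S` vanish).
For `q ∈ S₀`: `2 κ τ₀ < τ₀/(8c)`, so `Good ε q x₀ (κ τ₀)` by `face`; hence `fn G q` is `l₁`-flat at
`(x₀, κ τ₀)`. `flat_tau` (`Fp = fn G p`): `τ` is `3l`-flat, `σ` is `3κl`-flat; `flat_comp`: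
`e ↦ G q e.1 (σ e)` is `(l₁ + 15κl)`-flat for `q ∈ S₀`, and `(l + 15κl)`-flat for arbitrary `Sem q`
(in particular for `p` and `D q`). `hh_strict` at `(α₀, j₀)`, `j₀ ≥ q x₀ - D q x₀ - κτ₀ > 0`:
`e ↦ hh e.2 (G q e.1 (σ e) - G (D q) e.1 (σ e))` is close (`Flat.of_close`) to a linear functional
plus `d₂` times the difference. So the node is flat with constant
`(1 + c)(l₁ + 15κl) + c(l + 15κl)`; node `none` is linear. `Flat.root` with base constant
`l + 15κl` gives the claim.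
-/

set_option autoImplicit false

open scoped Topology
open Filter Set

namespace Pool.Agent.Helper74.AS

universe u

namespace Rough_aux

theorem sum_eq {ι : Type*} {f : ι → ℝ} {S S' : Finset ι} (h : ∀ i, i ∉ S → f i = 0)
    (h' : ∀ i, i ∉ S' → f i = 0) : ∑ i ∈ S, f i = ∑ i ∈ S', f i := by
  classical
  have h1 : ∑ i ∈ S, f i = ∑ i ∈ S ∪ S', f i :=
    Finset.sum_subset Finset.subset_union_left (fun i _ hi => h i hi)
  have h2 : ∑ i ∈ S', f i = ∑ i ∈ S ∪ S', f i :=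
    Finset.sum_subset Finset.subset_union_right (fun i _ hi => h' i hi)
  rw [h1, h2]

theorem norm_le_pair {X : Type*} [NormedAddCommGroup X] (p : (X × ℝ) × (X × ℝ)) :
    ‖p.1.1 - p.2.1‖ ≤ ‖p.1 - p.2‖ ∧ |p.1.2 - p.2.2| ≤ ‖p.1 - p.2‖ := by
  rw [← Prod.fst_sub, ← Prod.snd_sub, ← Real.norm_eq_abs]
  exact ⟨norm_fst_le _, norm_snd_le _⟩

end Rough_aux

open Rough_aux

variable {X : Type u} [NormedAddCommGroup X] [NormedSpace ℝ X] {P : Par} {δ : ℝ} {F G : Fam X}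

theorem rough_step (hX : Dent X) (hP : P.Ok) (hG : MM δ G) (hδ : 0 ≤ δ) (hδ1 : δ ≤ 1 / 10)
    (hFG : ∀ p, Sem p → ∀ x α, 0 < α → F p x α = T P G p x α) {l l₁ : ℝ} (hl : 0 ≤ l)
    (hl2 : l ≤ 2) (hl₁ : 0 ≤ l₁) (hl₁2 : l₁ ≤ 2)
    (hFl : ∀ q, Sem q → ∀ x α, 0 < α → Flat l (fn F q) (x, α))
    (hGl : ∀ q, Sem q → ∀ x α, 0 < α → Flat l (fn G q) (x, α))
    (hgood : ∀ q, Sem q → ∀ x α, 0 < α → Good P.ε q x α → Flat l₁ (fn G q) (x, α)) :
    ∀ p, Sem p → ∀ x α, 0 < α →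
      Flat ((1 + P.c) * l₁ + (50 * P.κ + 5 * P.c + 3 * P.η) * l) (fn F p) (x, α) := by
  classical
  intro p hp x₀ α₀ hα₀
  have hch := chain_spec hX hP.ε0 hp
  have hc0 := hP.c0
  have hc1 := hP.c1
  have hκ0 := hP.κ0
  have hκ1 := hP.κ1
  have hη0 := hP.η0
  obtain ⟨e₀, he₀⟩ : ∃ e₀ : X × ℝ, e₀ = (x₀, α₀) := ⟨_, rfl⟩
  have he1 : e₀.1 = x₀ := by rw [he₀]
  have he2 : e₀.2 = α₀ := by rw [he₀]
  rw [← he₀]
  obtain ⟨τ, hτ⟩ : ∃ τ : X × ℝ → ℝ, ∀ e, τ e = tau P G p e.1 e.2 := ⟨_, fun _ => rfl⟩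
  obtain ⟨σ, hσ⟩ : ∃ σ : X × ℝ → ℝ, ∀ e, σ e = P.κ * τ e := ⟨_, fun _ => rfl⟩
  obtain ⟨b, hb⟩ : ∃ b : X × ℝ → ℝ, ∀ e, b e = fn G p (e.1, σ e) := ⟨_, fun _ => rfl⟩
  obtain ⟨t, ht⟩ : ∃ t : X × ℝ → ℝ, ∀ e, t e = b e + τ e := ⟨_, fun _ => rfl⟩
  have hpos : ∀ᶠ e : X × ℝ in 𝓝 e₀, 0 < e.2 := by
    have h1 : Tendsto (fun e : X × ℝ => e.2) (𝓝 e₀) (𝓝 e₀.2) := continuousAt_snd
    rw [he2] at h1
    exact h1.eventually (lt_mem_nhds hα₀)
  have hpos2 : ∀ᶠ r : (X × ℝ) × (X × ℝ) in 𝓝 (e₀, e₀), 0 < r.1.2 ∧ 0 < r.2.2 := by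
    have h1 : Tendsto (fun r : (X × ℝ) × (X × ℝ) => r.1) (𝓝 (e₀, e₀)) (𝓝 e₀) := continuousAt_fst
    have h2 : Tendsto (fun r : (X × ℝ) × (X × ℝ) => r.2) (𝓝 (e₀, e₀)) (𝓝 e₀) := continuousAt_snd
    exact (h1.eventually hpos).and (h2.eventually hpos)
  have hspec : ∀ e : X × ℝ, 0 < e.2 → IsTau P G p e.1 e.2 (τ e) := fun e he => by
    rw [hτ]; exact tau_spec hX hP hG hδ hδ1 hp e.1 he
  have hτ0 : 0 < τ e₀ := (hspec e₀ (by rw [he2]; exact hα₀)).1
  have hσ0 : 0 < σ e₀ := by rw [hσ]; positivity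
  have hτpos : ∀ e : X × ℝ, 0 < e.2 → 0 < τ e := fun e he => (hspec e he).1
  have hσpos : ∀ e : X × ℝ, 0 < e.2 → 0 < σ e := fun e he => by
    rw [hσ]; exact mul_pos hκ0 (hτpos e he)
  have hτlip : ∀ᶠ r : (X × ℝ) × (X × ℝ) in 𝓝 (e₀, e₀), |τ r.1 - τ r.2| ≤ 10 * ‖r.1 - r.2‖ := by
    filter_upwards [hpos2] with r hr
    have h1 := tau_lip hX hP hG hδ hδ1 hp r.1.1 r.2.1 hr.1 hr.2
    have h2 := norm_le_pair r
    rw [hτ, hτ]
    linarith [h2.1, h2.2]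
  have hσlip : ∀ᶠ r : (X × ℝ) × (X × ℝ) in 𝓝 (e₀, e₀), |σ r.1 - σ r.2| ≤ ‖r.1 - r.2‖ := by
    filter_upwards [hτlip] with r hr
    rw [hσ, hσ, ← mul_sub, abs_mul, abs_of_pos hκ0]
    have h1 := mul_le_mul_of_nonneg_left hr hκ0.le
    have h2 := norm_nonneg (r.1 - r.2)
    nlinarith
  have hτc : Tendsto τ (𝓝 e₀) (𝓝 (τ e₀)) := by
    have h1 : Tendsto (fun e : X × ℝ => (e, e₀)) (𝓝 e₀) (𝓝 (e₀, e₀)) :=
      tendsto_id.prodMk_nhds tendsto_const_nhds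
    have h2 := h1.eventually hτlip
    have h3 : Tendsto (fun e : X × ℝ => 10 * ‖e - e₀‖) (𝓝 e₀) (𝓝 0) := by
      have h4 : Tendsto (fun e : X × ℝ => 10 * ‖e - e₀‖) (𝓝 e₀) (𝓝 (10 * ‖e₀ - e₀‖)) :=
        ((continuous_const.mul (continuous_id.sub continuous_const).norm)).tendsto e₀
      rwa [sub_self, norm_zero, mul_zero] at h4
    rw [tendsto_iff_norm_sub_tendsto_zero]
    refine squeeze_zero' (Eventually.of_forall fun _ => norm_nonneg _) ?_ h3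
    filter_upwards [h2] with e he
    rw [Real.norm_eq_abs]
    exact he
  -- flatness of the scale
  have hFt : fn F p =ᶠ[𝓝 e₀] t := by
    filter_upwards [hpos] with e he
    rw [ht, hb, hσ]
    change F p e.1 e.2 = _
    rw [hFG p hp e.1 e.2 he, T, hτ]
    rfl
  have htf : Flat l t e₀ := (he₀ ▸ hFl p hp x₀ α₀ hα₀ : Flat l (fn F p) e₀).congr hFt
  have hlipG : ∀ q, Sem q → ∀ᶠ r : (X × ℝ) × (X × ℝ) in 𝓝 ((e₀.1, σ e₀), (e₀.1, σ e₀)),
      |fn G q r.1 - fn G q r.2| ≤ 2 * ‖r.1 - r.2‖ := fun q hq =>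
    hG.lip_fn hδ hδ1 hq e₀.1 hσ0
  have hτf : Flat (3 * l) τ e₀ := by
    refine flat_tau (Fp := fn G p) (t := t) hl hl2 hκ0 hκ1 ?_ ?_ ?_ hτlip htf
    · exact Eventually.of_forall fun e => by rw [ht, hb, hσ]
    · have := hGl p hp e₀.1 (σ e₀) hσ0
      rwa [hσ] at this
    · have := hlipG p hp
      rwa [hσ] at this
  have hσf : Flat (3 * P.κ * l) σ e₀ := by
    have h1 := hτf.const_mul (by positivity) P.κ
    rw [abs_of_pos hκ0] at h1
    have h2 : (fun e => P.κ * τ e) = σ := by funext e; rw [hσ]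
    rw [h2] at h1
    exact h1.mono (by linarith)
  have hcomp : ∀ q, Sem q → ∀ k, 0 ≤ k → k ≤ 2 → Flat k (fn G q) (e₀.1, σ e₀) →
      Flat (k + 15 * P.κ * l) (fun e => fn G q (e.1, σ e)) e₀ := by
    intro q hq k hk hk2 hf
    have h1 := flat_comp (σ := σ) (m := 3 * P.κ * l) hk hk2 (by positivity) hf (hlipG q hq)
      hσlip hσf
    exact h1.mono (by linarith)
  -- Lipschitz bounds
  have hGlip : ∀ q, Sem q → ∀ᶠ r : (X × ℝ) × (X × ℝ) in 𝓝 (e₀, e₀),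
      |fn G q (r.1.1, σ r.1) - fn G q (r.2.1, σ r.2)| ≤ 2 * ‖r.1 - r.2‖ := by
    intro q hq
    filter_upwards [hpos2, hσlip] with r hr hr2
    have h1 := hG.lip hq r.1.1 r.2.1 (hσpos _ hr.1) (hσpos _ hr.2)
    have h2 := norm_le_pair r
    change |G q r.1.1 (σ r.1) - G q r.2.1 (σ r.2)| ≤ _
    have h3 := norm_nonneg (r.1 - r.2)
    have h4 : (1 + δ) * ‖r.1.1 - r.2.1‖ ≤ (1 + δ) * ‖r.1 - r.2‖ :=
      mul_le_mul_of_nonneg_left h2.1 (by linarith)
    have h5 : δ * |σ r.1 - σ r.2| ≤ δ * ‖r.1 - r.2‖ := mul_le_mul_of_nonneg_left hr2 hδ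
    nlinarith
  -- the active nodes
  obtain ⟨v, hv⟩ : ∃ v : Option (chain P.ε p) → X × ℝ → ℝ,
      ∀ i e, v i e = node P G p e.1 e.2 (τ e) i := ⟨_, fun _ _ => rfl⟩
  have hvnone : ∀ e, v none e = P.c * e.2 := fun e => by rw [hv]; rfl
  have hvsome : ∀ (q : chain P.ε p) e, v (some q) e = fn G q.1 (e.1, σ e) +
      P.c * hh e.2 (fn G q.1 (e.1, σ e) - fn G (D P.ε q.1) (e.1, σ e)) := fun q e => by
    rw [hv, hσ]; rfl
  have hfinA : {q : chain P.ε p | τ e₀ / (8 * P.c) ≤ q.1 x₀ - D P.ε q.1 x₀}.Finite := by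
    have h1 := hch.fin hP.ε0 x₀ (r := τ e₀ / (8 * P.c)) (by positivity)
    have h2 := h1.preimage (Subtype.val_injective (p := fun q => q ∈ chain P.ε p)).injOn
    refine h2.subset ?_
    intro q hq
    exact ⟨q.2, hq⟩
  obtain ⟨S, hS⟩ : ∃ S : Finset (Option (chain P.ε p)), S = insert none
      (hfinA.toFinset.image some) := ⟨_, rfl⟩
  have hSnone : none ∈ S := by rw [hS]; exact Finset.mem_insert_self _ _
  have hSsome : ∀ q : chain P.ε p, some q ∈ S ↔ τ e₀ / (8 * P.c) ≤ q.1 x₀ - D P.ε q.1 x₀ := by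
    intro q
    rw [hS]
    simp
  have hout : ∀ᶠ e in 𝓝 e₀, ∀ i, i ∉ S → v i e ≤ t e := by
    have h1 : Tendsto (fun e : X × ℝ => τ e / (4 * P.c) - 2 * ‖e.1 - x₀‖) (𝓝 e₀)
        (𝓝 (τ e₀ / (4 * P.c) - 2 * ‖e₀.1 - x₀‖)) :=
      (hτc.div_const _).sub
        ((continuous_const.mul (continuous_fst.sub continuous_const).norm).tendsto e₀)
    rw [he1, sub_self, norm_zero, mul_zero, sub_zero] at h1
    have h2 : τ e₀ / (8 * P.c) < τ e₀ / (4 * P.c) := by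
      apply div_lt_div_of_pos_left hτ0 (by positivity)
      linarith
    filter_upwards [hpos, h1.eventually (lt_mem_nhds h2)] with e he hlt i hi
    by_contra hcon
    push Not at hcon
    rcases i with _ | q
    · exact hi hSnone
    · have h3 := node_active hX hP hG hp e.1 he (hτpos e he) q (by
        have h4 := hcon
        rw [hv, ht, hb, hσ] at h4
        exact h4)
      apply hi
      rw [hSsome]
      have hq := hch.sem q.1 q.2
      have h5 := abs_le.1 (hq.lip e.1 x₀)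
      have h6 := abs_le.1 ((D_sem hP.ε0 hq).lip e.1 x₀)
      linarith [h3.1, h5.1, h5.2, h6.1, h6.2]
  have heq : ∀ᶠ e in 𝓝 e₀, ∑ i ∈ S, (max (v i e - t e) 0) ^ 2 = P.η ^ 2 * (t e - b e) ^ 2 := by
    filter_upwards [hpos, hout] with e he hoe
    obtain ⟨-, -, -, S', hS'1, hS'2⟩ := hspec e he
    have e1 : G p e.1 (P.κ * τ e) + τ e = t e := by rw [ht, hb, hσ]; rfl
    have e2 : G p e.1 (P.κ * τ e) = b e := by rw [hb, hσ]; rfl
    rw [e1, e2] at hS'2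
    rw [e1] at hS'1
    rw [← hS'2]
    have h3 : ∀ i, node P G p e.1 e.2 (τ e) i = v i e := fun i => (hv i e).symm
    simp only [h3] at hS'1 ⊢
    refine sum_eq (fun i hi => ?_) (fun i hi => ?_)
    · rw [max_eq_right (by linarith [hoe i hi])]
      norm_num
    · rw [max_eq_right (by linarith [hS'1 i hi])]
      norm_num
  -- flatness of the nodes
  have hjlip : ∀ q : chain P.ε p, ∀ᶠ r : (X × ℝ) × (X × ℝ) in 𝓝 (e₀, e₀),
      |(fn G q.1 (r.1.1, σ r.1) - fn G (D P.ε q.1) (r.1.1, σ r.1)) -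
        (fn G q.1 (r.2.1, σ r.2) - fn G (D P.ε q.1) (r.2.1, σ r.2))| ≤ 4 * ‖r.1 - r.2‖ := by
    intro q
    have hq := hch.sem q.1 q.2
    filter_upwards [hGlip q.1 hq, hGlip _ (D_sem hP.ε0 hq)] with r h1 h2
    rw [abs_le] at h1 h2 ⊢
    constructor <;> linarith [h1.1, h1.2, h2.1, h2.2]
  have hvlip : ∀ i ∈ S, ∀ᶠ r : (X × ℝ) × (X × ℝ) in 𝓝 (e₀, e₀),
      |v i r.1 - v i r.2| ≤ 12 * ‖r.1 - r.2‖ := by
    intro i _
    rcases i with _ | q
    · refine Eventually.of_forall fun r => ?_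
      rw [hvnone, hvnone, ← mul_sub, abs_mul, abs_of_pos hc0]
      have h2 := norm_le_pair r
      have h3 := norm_nonneg (r.1 - r.2)
      have h4 := mul_le_mul_of_nonneg_left h2.2 hc0.le
      nlinarith
    · have hq := hch.sem q.1 q.2
      filter_upwards [hpos2, hGlip q.1 hq, hjlip q] with r hr h1 h2
      have h3 := hh_lip hr.1 hr.2 (fn G q.1 (r.1.1, σ r.1) - fn G (D P.ε q.1) (r.1.1, σ r.1))
        (fn G q.1 (r.2.1, σ r.2) - fn G (D P.ε q.1) (r.2.1, σ r.2))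
      have h4 := norm_le_pair r
      have h5 : |v (some q) r.1 - v (some q) r.2| ≤ 2 * ‖r.1 - r.2‖ + P.c * (5 * ‖r.1 - r.2‖) := by
        rw [hvsome, hvsome]
        have h6 : |P.c * (hh r.1.2 (fn G q.1 (r.1.1, σ r.1) - fn G (D P.ε q.1) (r.1.1, σ r.1)) -
            hh r.2.2 (fn G q.1 (r.2.1, σ r.2) - fn G (D P.ε q.1) (r.2.1, σ r.2)))| ≤
            P.c * (5 * ‖r.1 - r.2‖) := by
          rw [abs_mul, abs_of_pos hc0]
          exact mul_le_mul_of_nonneg_left (by linarith [h4.2]) hc0.le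
        rw [abs_le] at h6 h1 ⊢
        constructor <;> linarith [h6.1, h6.2, h1.1, h1.2]
      have h7 := norm_nonneg (r.1 - r.2)
      nlinarith
  have hblip : ∀ᶠ r : (X × ℝ) × (X × ℝ) in 𝓝 (e₀, e₀), |b r.1 - b r.2| ≤ 12 * ‖r.1 - r.2‖ := by
    filter_upwards [hGlip p hp] with r hr
    rw [hb, hb]
    linarith [norm_nonneg (r.1 - r.2)]
  have htlip : ∀ᶠ r : (X × ℝ) × (X × ℝ) in 𝓝 (e₀, e₀), |t r.1 - t r.2| ≤ 12 * ‖r.1 - r.2‖ := by
    filter_upwards [hGlip p hp, hτlip] with r h1 h2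
    rw [ht, ht, hb, hb]
    rw [abs_le] at h1 h2 ⊢
    constructor <;> linarith [h1.1, h1.2, h2.1, h2.2]
  have hbf : Flat (l + 15 * P.κ * l) b e₀ := by
    have h1 := hcomp p hp l hl hl2 (hGl p hp e₀.1 (σ e₀) hσ0)
    have h2 : (fun e : X × ℝ => fn G p (e.1, σ e)) = b := by funext e; rw [hb]
    rwa [h2] at h1
  have hvf : ∀ i ∈ S, Flat ((1 + P.c) * (l₁ + 15 * P.κ * l) + P.c * (l + 15 * P.κ * l)) (v i) e₀ := by
    intro i hi
    have hA1 : 0 ≤ l₁ + 15 * P.κ * l := by positivity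
    have hA2 : 0 ≤ l + 15 * P.κ * l := by positivity
    rcases i with _ | q
    · have h1 : Flat 0 (fun e : X × ℝ => (P.c • ContinuousLinearMap.snd ℝ X ℝ) e) e₀ := Flat.clm _
      have h2 : (fun e : X × ℝ => (P.c • ContinuousLinearMap.snd ℝ X ℝ) e) = v none := by
        funext e
        rw [hvnone]
        rfl
      rw [h2] at h1
      exact h1.mono (by positivity)
    · have hq := hch.sem q.1 q.2
      have hDq := D_sem hP.ε0 hq
      have hjump := (hSsome q).1 hi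
      have hgap : σ e₀ < τ e₀ / (8 * P.c) / 2 := by
        rw [hσ, lt_div_iff₀ (by norm_num), lt_div_iff₀ (by positivity)]
        have : P.κ * τ e₀ * 2 * (8 * P.c) = (16 * P.κ * P.c) * τ e₀ := by ring
        rw [this]
        have h3 : 16 * P.κ * P.c < 1 := by nlinarith
        nlinarith
      have hg : Good P.ε q.1 e₀.1 (σ e₀) := by
        intro φ hφ ψ hψ h1 h2
        rw [he1] at h1 h2
        exact face hP.ε0 hq (x := x₀) (δ := 2 * σ e₀) (by linarith) hφ hψ h1 h2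
      have hGq := hcomp q.1 hq l₁ hl₁ hl₁2 (hgood q.1 hq e₀.1 (σ e₀) hσ0 hg)
      have hGD := hcomp _ hDq l hl hl2 (hGl _ hDq e₀.1 (σ e₀) hσ0)
      obtain ⟨j, hj⟩ : ∃ j : X × ℝ → ℝ, ∀ e, j e = fn G q.1 (e.1, σ e) -
        fn G (D P.ε q.1) (e.1, σ e) := ⟨_, fun _ => rfl⟩
      have hj0 : 0 < j e₀ := by
        rw [hj]
        have h1 := hG.lo q.1 hq e₀.1 (σ e₀) hσ0
        have h2 := hG.hi _ hDq e₀.1 (σ e₀) hσ0
        change 0 < G q.1 e₀.1 (σ e₀) - G (D P.ε q.1) e₀.1 (σ e₀)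
        rw [he1] at h1 h2 ⊢
        linarith
      obtain ⟨d₁, d₂, hd1, hd1', hd2, hd2', hstr⟩ := hh_strict hα₀ hj0
      have hjl : ∀ᶠ r : (X × ℝ) × (X × ℝ) in 𝓝 (e₀, e₀), |j r.1 - j r.2| ≤ 4 * ‖r.1 - r.2‖ := by
        filter_upwards [hjlip q] with r hr
        rw [hj, hj]
        exact hr
      have hjc : Tendsto j (𝓝 e₀) (𝓝 (j e₀)) := by
        have h1 : Tendsto (fun e : X × ℝ => (e, e₀)) (𝓝 e₀) (𝓝 (e₀, e₀)) :=
          tendsto_id.prodMk_nhds tendsto_const_nhds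
        have h2 := h1.eventually hjl
        have h3 : Tendsto (fun e : X × ℝ => 4 * ‖e - e₀‖) (𝓝 e₀) (𝓝 0) := by
          have h4 : Tendsto (fun e : X × ℝ => 4 * ‖e - e₀‖) (𝓝 e₀) (𝓝 (4 * ‖e₀ - e₀‖)) :=
            ((continuous_const.mul (continuous_id.sub continuous_const).norm)).tendsto e₀
          rwa [sub_self, norm_zero, mul_zero] at h4
        rw [tendsto_iff_norm_sub_tendsto_zero]
        refine squeeze_zero' (Eventually.of_forall fun _ => norm_nonneg _) ?_ h3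
        filter_upwards [h2] with e he
        rw [Real.norm_eq_abs]
        exact he
      have hpair : Tendsto (fun r : (X × ℝ) × (X × ℝ) => ((r.1.2, j r.1), (r.2.2, j r.2)))
          (𝓝 (e₀, e₀)) (𝓝 ((α₀, j e₀), (α₀, j e₀))) := by
        have h1 : Tendsto (fun e : X × ℝ => (e.2, j e)) (𝓝 e₀) (𝓝 (α₀, j e₀)) := by
          have h2 : Tendsto (fun e : X × ℝ => e.2) (𝓝 e₀) (𝓝 e₀.2) := continuousAt_snd
          rw [he2] at h2
          exact h2.prodMk_nhds hjc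
        have h3 : Tendsto (fun r : (X × ℝ) × (X × ℝ) => r.1) (𝓝 (e₀, e₀)) (𝓝 e₀) :=
          continuousAt_fst
        have h4 : Tendsto (fun r : (X × ℝ) × (X × ℝ) => r.2) (𝓝 (e₀, e₀)) (𝓝 e₀) :=
          continuousAt_snd
        exact (h1.comp h3).prodMk_nhds (h1.comp h4)
      obtain ⟨g, hg'⟩ : ∃ g : X × ℝ → ℝ, ∀ e, g e = (1 + P.c * d₂) * fn G q.1 (e.1, σ e) +
        (-(P.c * d₂)) * fn G (D P.ε q.1) (e.1, σ e) + ((P.c * d₁) • ContinuousLinearMap.snd ℝ X ℝ) e :=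
        ⟨_, fun _ => rfl⟩
      have hgf : Flat ((1 + P.c) * (l₁ + 15 * P.κ * l) + P.c * (l + 15 * P.κ * l)) g e₀ := by
        have h1 := ((hGq.const_mul hA1 (1 + P.c * d₂)).add
          (hGD.const_mul hA2 (-(P.c * d₂)))).add
          (Flat.clm (e₀ := e₀) ((P.c * d₁) • ContinuousLinearMap.snd ℝ X ℝ))
        have h2 : (fun e : X × ℝ => (1 + P.c * d₂) * fn G q.1 (e.1, σ e) +
          (-(P.c * d₂)) * fn G (D P.ε q.1) (e.1, σ e) +
            ((P.c * d₁) • ContinuousLinearMap.snd ℝ X ℝ) e) = g := by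
          funext e
          rw [hg']
        rw [h2] at h1
        refine h1.mono ?_
        rw [abs_neg, abs_of_nonneg (by positivity), abs_of_nonneg (by positivity)]
        have h3 : P.c * d₂ ≤ P.c * 1 := mul_le_mul_of_nonneg_left hd2' hc0.le
        have h4 : (1 + P.c * d₂) * (l₁ + 15 * P.κ * l) ≤ (1 + P.c) * (l₁ + 15 * P.κ * l) :=
          mul_le_mul_of_nonneg_right (by linarith) hA1
        have h5 : P.c * d₂ * (l + 15 * P.κ * l) ≤ P.c * (l + 15 * P.κ * l) :=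
          mul_le_mul_of_nonneg_right (by linarith) hA2
        linarith
      refine hgf.of_close fun m hm => ?_
      have h1 := hpair.eventually (hstr m hm)
      filter_upwards [h1, hjl] with r h1 h2
      have h3 := norm_le_pair r
      have h4 := norm_nonneg (r.1 - r.2)
      have h5 : (v (some q) r.1 - g r.1) - (v (some q) r.2 - g r.2) =
          P.c * (hh r.1.2 (j r.1) - hh r.2.2 (j r.2) -
            (d₁ * (r.1.2 - r.2.2) + d₂ * (j r.1 - j r.2))) := by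
        have h0 : ∀ e : X × ℝ, ((P.c * d₁) • ContinuousLinearMap.snd ℝ X ℝ) e =
            P.c * d₁ * e.2 := fun _ => rfl
        rw [hvsome, hvsome, hg', hg', hj, hj, h0, h0]
        ring
      rw [h5, abs_mul, abs_of_pos hc0]
      have h6 : m * (|r.1.2 - r.2.2| + |j r.1 - j r.2|) ≤ m * (5 * ‖r.1 - r.2‖) :=
        mul_le_mul_of_nonneg_left (by linarith [h3.2]) hm.le
      have h7 : P.c * |hh r.1.2 (j r.1) - hh r.2.2 (j r.2) -
            (d₁ * (r.1.2 - r.2.2) + d₂ * (j r.1 - j r.2))| ≤ P.c * (m * (5 * ‖r.1 - r.2‖)) :=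
        mul_le_mul_of_nonneg_left (h1.trans h6) hc0.le
      have h8 : 0 ≤ m * ‖r.1 - r.2‖ := by positivity
      nlinarith
  have hbt : b e₀ < t e₀ := by rw [ht]; linarith
  have hfin := Flat.root S v b t (η := P.η) (l := (1 + P.c) * (l₁ + 15 * P.κ * l) +
    P.c * (l + 15 * P.κ * l)) (m := l + 15 * P.κ * l) (C := 12) hη0 (by positivity) (by positivity)
    e₀ hbt heq hvlip hblip htlip hvf hbf
  refine (hfin.mono ?_).congr hFt.symm
  have hκl : 0 ≤ P.κ * l := by positivity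
  have hcl : 0 ≤ P.c * l := by positivity
  have hηl : 0 ≤ P.η * l := by positivity
  have h1 : P.c * (P.κ * l) ≤ P.κ * l := by nlinarith
  have h2 : P.η * (P.κ * l) ≤ P.η * l := by
    have : P.κ * l ≤ l := by nlinarith
    exact mul_le_mul_of_nonneg_left this hη0.le
  nlinarith

end Pool.Agent.Helper74.AS
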